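import Mathlib
import Pool.Agent.TH671.SG.Fam

/-!
# Rank bounds for products of tensors with star decompositions (varying numbers of stars)
-/

set_option autoImplicit false
set_option linter.unusedSectionVars false

open Finset

namespace Pool.Agent.TH671.SH

open Pool.Agent.W329.AR Pool.Agent.TH671.SG

variable {K : Type*} [CommRing K]
variable {α β γ : Type*}

/-- `FT` with at most `s` summands -/
def FS (s : ℕ) (κ : Fin 3) (T : α → β → γ → K) (W : ℕ) : Prop :=
  ∃ (ς : Type) (_ : Fintype ς), Fintype.card ς ≤ s ∧ FT ς κ T W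

theorem FS.rot {s : ℕ} {κ : Fin 3} {T : α → β → γ → K} {W : ℕ} (h : FS s κ T W) :
    FS s (κ + 2) (fun b c a => T a b c) W := by
  obtain ⟨ς, _, h1, h2⟩ := h
  exact ⟨ς, inferInstance, h1, h2.rot⟩

theorem FS.mono {s s' : ℕ} {κ : Fin 3} {T : α → β → γ → K} {W W' : ℕ} (h : FS s κ T W)
    (hs : s ≤ s') (hW : W ≤ W') : FS s' κ T W' := by
  obtain ⟨ς, _, h1, h2⟩ := h
  exact ⟨ς, inferInstance, h1.trans hs, h2.mono hW⟩

theorem FS.congr {s : ℕ} {κ : Fin 3} {T T' : α → β → γ → K} {W : ℕ} (h : FS s κ T W)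
    (hT : ∀ a b c, T' a b c = T a b c) : FS s κ T' W := by
  obtain ⟨ς, _, h1, h2⟩ := h
  exact ⟨ς, inferInstance, h1, h2.congr hT⟩

theorem Fam.pi' {n : ℕ} {ι : Fin n → Type} [∀ t, Fintype (ι t)] (T : Fin n → α → β → γ → K)
    (P Q S : ∀ t, ι t → ℕ) (h : ∀ t, Fam (T t) (P t) (Q t) (S t)) :
    Fam (fun (a : Fin n → α) (b : Fin n → β) (c : Fin n → γ) => ∏ t, T t (a t) (b t) (c t))
      (ι := ∀ t, ι t) (fun l => ∏ t, P t (l t)) (fun l => ∏ t, Q t (l t))
      (fun l => ∏ t, S t (l t)) := by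
  classical
  choose F h1 h2 using h
  refine ⟨fun l a b c => ∏ t, F t (l t) (a t) (b t) (c t), fun l => ?_, fun a b c => ?_⟩
  · simpa using D.pi (fun t => F t (l t)) (fun _ => 1) (fun t => P t (l t)) (fun t => Q t (l t))
      (fun t => S t (l t)) (fun t => h1 t (l t))
  · beta_reduce
    rw [Finset.prod_congr rfl fun t _ => h2 t (a t) (b t) (c t), Finset.prod_univ_sum,
      Fintype.piFinset_univ]

theorem sum_prod' {n : ℕ} {ς : Fin n → Type} [∀ t, Fintype (ς t)] (g : ∀ t, ς t → ℕ) :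
    ∑ l : (∀ t, ς t), ∏ t, g t (l t) = ∏ t, ∑ i, g t i := by
  classical
  rw [Finset.prod_univ_sum, Fintype.piFinset_univ]

section sums

variable {n : ℕ} {ς : Fin n → Type} [∀ t, Fintype (ς t)] (κ : Fin n → Fin 3)
  (d : ∀ t, ς t → ℕ) (W s : Fin n → ℕ) (hd : ∀ t, ∑ i, d t i ≤ W t)
  (hσ : ∀ t, Fintype.card (ς t) ≤ s t)

include hd in
theorem sum_PQS' : ∑ l : (∀ t, ς t), (∏ t, if κ t = 0 then d t (l t) else 1) *
    (∏ t, if κ t = 1 then d t (l t) else 1) * (∏ t, if κ t = 2 then d t (l t) else 1) ≤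
    ∏ t, W t := by
  calc ∑ l : (∀ t, ς t), (∏ t, if κ t = 0 then d t (l t) else 1) *
        (∏ t, if κ t = 1 then d t (l t) else 1) * (∏ t, if κ t = 2 then d t (l t) else 1)
      = ∑ l : (∀ t, ς t), ∏ t, (fun t i => d t i) t (l t) := by
        refine Finset.sum_congr rfl fun l _ => ?_
        rw [← Finset.prod_mul_distrib, ← Finset.prod_mul_distrib]
        refine Finset.prod_congr rfl fun t _ => ?_
        beta_reduce
        generalize κ t = j
        fin_cases j <;> simp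
    _ = ∏ t, ∑ i, d t i := sum_prod' (fun t i => d t i)
    _ ≤ _ := Finset.prod_le_prod' fun t _ => hd t

include hd hσ in
theorem sum_two (c : Fin 3) : ∑ l : (∀ t, ς t), (∏ t, if κ t = c then 1 else d t (l t)) ≤
    ∏ t, if κ t = c then s t else W t := by
  calc ∑ l : (∀ t, ς t), (∏ t, if κ t = c then 1 else d t (l t))
      = ∑ l : (∀ t, ς t), ∏ t, (fun t i => if κ t = c then 1 else d t i) t (l t) := rfl
    _ = ∏ t, ∑ i, (if κ t = c then 1 else d t i) :=
        sum_prod' (fun t i => if κ t = c then 1 else d t i)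
    _ ≤ _ := Finset.prod_le_prod' fun t _ => by
        by_cases h : κ t = c
        · simpa [h] using hσ t
        · simpa [h] using hd t

end sums

section prods

variable {n : ℕ} {κ : Fin n → Fin 3} {W s : Fin n → ℕ} {T : Fin n → α → β → γ → K}

/-- Data for the product of the tensors `T t`. -/
theorem prod_fam' (h : ∀ t, FS (s t) (κ t) (T t) (W t)) :
    ∃ (ι : Type) (_ : Fintype ι) (P Q S : ι → ℕ),
      Fam (fun (a : Fin n → α) (b : Fin n → β) (c : Fin n → γ) =>
        ∏ t, T t (a t) (b t) (c t)) P Q S ∧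
      ∑ i, P i * Q i * S i ≤ ∏ t, W t ∧
      ∑ i, P i * Q i ≤ ∏ t, (if κ t = 2 then s t else W t) ∧
      ∑ i, Q i * S i ≤ ∏ t, (if κ t = 0 then s t else W t) ∧
      ∑ i, P i * S i ≤ ∏ t, (if κ t = 1 then s t else W t) := by
  choose ς inst hs d hd hF using h
  let _ := inst
  have h1 := Fam.pi' T _ _ _ hF
  refine ⟨_, _, _, _, _, h1, sum_PQS' κ d W hd, ?_, ?_, ?_⟩
  · refine le_trans (le_of_eq ?_) (sum_two κ d W s hd hs 2)
    refine Finset.sum_congr rfl fun l _ => ?_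
    rw [← Finset.prod_mul_distrib]
    refine Finset.prod_congr rfl fun t _ => ?_
    generalize κ t = j
    fin_cases j <;> simp
  · refine le_trans (le_of_eq ?_) (sum_two κ d W s hd hs 0)
    refine Finset.sum_congr rfl fun l _ => ?_
    rw [← Finset.prod_mul_distrib]
    refine Finset.prod_congr rfl fun t _ => ?_
    generalize κ t = j
    fin_cases j <;> simp
  · refine le_trans (le_of_eq ?_) (sum_two κ d W s hd hs 1)
    refine Finset.sum_congr rfl fun l _ => ?_
    rw [← Finset.prod_mul_distrib]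
    refine Finset.prod_congr rfl fun t _ => ?_
    generalize κ t = j
    fin_cases j <;> simp

theorem prod_rk0' (h : ∀ t, FS (s t) (κ t) (T t) (W t)) :
    Rk (fun (a : Fin n → α) (b : Fin n → β) (c : Fin n → γ) =>
        ∏ t, T t (a t) (b t) (c t)) (∏ t, W t) := by
  obtain ⟨ι, _, P, Q, S, hF, h1, h2, h3, h4⟩ := prod_fam' h
  exact (hF.toRk _ fun i => MR_triv _ _ _).mono h1

theorem prod_rk1' (h : ∀ t, FS (s t) (κ t) (T t) (W t)) (M B : ℕ)
    (hB : ∏ t, W t ≤ 4 ^ M * B) :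
    Rk (fun (a : Fin n → α) (b : Fin n → β) (c : Fin n → γ) =>
        ∏ t, T t (a t) (b t) (c t))
      (QQ M * (B + ∏ t, (if κ t = 2 then s t else W t)) +
        10 ^ (5 * M) * (∏ t, (if κ t = 1 then s t else W t) +
          ∏ t, (if κ t = 0 then s t else W t))) := by
  obtain ⟨ι, _, P, Q, S, hF, h1, h2, h3, h4⟩ := prod_fam' h
  refine (hF.rk1 M B (h1.trans hB)).mono ?_
  gcongr

theorem prod_rk2' (h : ∀ t, FS (s t) (κ t) (T t) (W t)) (M : ℕ) :
    ∃ ρ, Rk (fun (a : Fin n → α) (b : Fin n → β) (c : Fin n → γ) =>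
        ∏ t, T t (a t) (b t) (c t)) ρ ∧
      ρ * 4 ^ M ≤ 2 * QQ M * (∏ t, W t) + 4 ^ M * 10 ^ (5 * M) *
        (∏ t, (if κ t = 2 then s t else W t) +
          ∏ t, (if κ t = 0 then s t else W t) +
          ∏ t, (if κ t = 1 then s t else W t)) := by
  obtain ⟨ι, _, P, Q, S, hF, h1, h2, h3, h4⟩ := prod_fam' h
  obtain ⟨ρ, hρ, hρ2⟩ := hF.rk2 M
  refine ⟨ρ, hρ, hρ2.trans ?_⟩
  gcongr

end prods

/-! ### sums over words -/

/-- Grouping of words by the images of the letters. -/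
theorem group_words {N L L' : ℕ} (φ : Fin L → Fin L') (P : (Fin N → Fin L') → Prop)
    [DecidablePred P] (f : Fin N → Fin L → K) :
    ∑ v ∈ (univ : Finset (Fin N → Fin L)).filter (fun v => P (fun t => φ (v t))),
        ∏ t, f t (v t) =
      ∑ u ∈ (univ : Finset (Fin N → Fin L')).filter P,
        ∏ t, ∑ j ∈ univ.filter (fun j => φ j = u t), f t j := by
  classical
  rw [← Finset.sum_fiberwise_of_maps_to (s := (univ : Finset (Fin N → Fin L)).filter
    (fun v => P (fun t => φ (v t)))) (t := (univ : Finset (Fin N → Fin L')).filter P)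
    (g := fun v t => φ (v t)) (fun v hv => by simpa using hv)]
  refine Finset.sum_congr rfl fun u hu => ?_
  rw [Finset.prod_univ_sum]
  refine Finset.sum_congr ?_ fun _ _ => rfl
  ext v
  simp only [Finset.mem_filter, Finset.mem_univ, true_and, Fintype.mem_piFinset]
  constructor
  · rintro ⟨_, h⟩ t
    exact congrFun h t
  · intro h
    have h' : (fun t => φ (v t)) = u := funext h
    exact ⟨by rw [h']; exact (Finset.mem_filter.1 hu).2, h'⟩

/-- number of letters in the set `S` -/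
def cnt {N L : ℕ} (S : Finset (Fin L)) (u : Fin N → Fin L) : ℕ :=
  (univ.filter fun t => u t ∈ S).card

theorem cnt_le {N L : ℕ} (S : Finset (Fin L)) (u : Fin N → Fin L) : cnt S u ≤ N := by
  have := Finset.card_le_univ (univ.filter fun t => u t ∈ S)
  simpa [cnt] using this

theorem prod_ite_cnt {M : Type*} [CommMonoid M] {N L : ℕ} (S : Finset (Fin L))
    (u : Fin N → Fin L) (x : M) : ∏ t, (if u t ∈ S then x else 1) = x ^ cnt S u := by
  rw [Finset.prod_ite, Finset.prod_const, Finset.prod_const_one, mul_one]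
  rfl

theorem words_sum {M : Type*} [CommSemiring M] {N L : ℕ} (W : Fin L → M) :
    ∑ u : Fin N → Fin L, ∏ t, W (u t) = (∑ j, W j) ^ N := by
  classical
  have := Finset.prod_univ_sum (fun _ : Fin N => (univ : Finset (Fin L))) (fun _ j => W j)
  rw [Fintype.piFinset_univ] at this
  rw [← this, Finset.prod_const, Finset.card_univ, Fintype.card_fin]

/-- Words with many letters of small weight. -/
theorem exc_small {N L m K1 e1 : ℕ} (hL : L ≤ 8) (hK : 1 ≤ K1) (W : Fin L → ℕ)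
    (S : Finset (Fin L)) (hW : ∀ j, W j ≤ K1 * m) (hS : ∀ j ∈ S, (8 * K1) ^ e1 * W j ≤ m) :
    ∑ u ∈ (univ : Finset (Fin N → Fin L)).filter (fun u => N ≤ e1 * cnt S u),
      ∏ t, W (u t) ≤ m ^ N := by
  have h8 : 0 < 8 ^ N := by positivity
  have key : ∀ u ∈ (univ : Finset (Fin N → Fin L)).filter (fun u => N ≤ e1 * cnt S u),
      (∏ t, W (u t)) * 8 ^ N ≤ m ^ N := by
    intro u hu
    have hu' := (Finset.mem_filter.1 hu).2
    have h1 : (∏ t, W (u t)) * ((8 * K1) ^ e1) ^ cnt S u ≤ (K1 * m) ^ N := by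
      rw [← prod_ite_cnt, ← Finset.prod_mul_distrib]
      calc ∏ t, W (u t) * (if u t ∈ S then (8 * K1) ^ e1 else 1) ≤ ∏ _t : Fin N, K1 * m := by
            refine Finset.prod_le_prod' fun t _ => ?_
            by_cases ht : u t ∈ S
            · rw [if_pos ht, mul_comm]
              exact (hS _ ht).trans (Nat.le_mul_of_pos_left _ hK)
            · rw [if_neg ht, mul_one]
              exact hW _
        _ = _ := by simp
    have h2 : (8 * K1) ^ N ≤ ((8 * K1) ^ e1) ^ cnt S u := by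
      rw [← pow_mul]
      exact Nat.pow_le_pow_right (by omega) hu'
    have h3 : (∏ t, W (u t)) * (8 * K1) ^ N ≤ (K1 * m) ^ N :=
      (Nat.mul_le_mul_left _ h2).trans h1
    have hKN : 0 < K1 ^ N := by positivity
    refine Nat.le_of_mul_le_mul_left ?_ hKN
    calc K1 ^ N * ((∏ t, W (u t)) * 8 ^ N) = (∏ t, W (u t)) * (8 * K1) ^ N := by
          rw [mul_pow]; ring
      _ ≤ _ := h3
      _ = _ := by rw [mul_pow]
  refine Nat.le_of_mul_le_mul_right ?_ h8
  rw [Finset.sum_mul]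
  calc ∑ u ∈ (univ : Finset (Fin N → Fin L)).filter (fun u => N ≤ e1 * cnt S u),
        (∏ t, W (u t)) * 8 ^ N
      ≤ ∑ u ∈ (univ : Finset (Fin N → Fin L)).filter (fun u => N ≤ e1 * cnt S u), m ^ N :=
        Finset.sum_le_sum key
    _ = ((univ : Finset (Fin N → Fin L)).filter (fun u => N ≤ e1 * cnt S u)).card * m ^ N := by
        rw [Finset.sum_const, smul_eq_mul]
    _ ≤ 8 ^ N * m ^ N := by
        refine Nat.mul_le_mul_right _ ?_
        calc _ ≤ Fintype.card (Fin N → Fin L) := Finset.card_le_univ _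
          _ = L ^ N := by simp
          _ ≤ 8 ^ N := Nat.pow_le_pow_left hL _
    _ = _ := by ring

/-- Words with few letters of a set `O` when the other letters have total weight at most
`(1 - 1 / h) m`. -/
theorem exc_in {N L m h R e2 : ℕ} (hh : 1 ≤ h) (hR : 1 ≤ R) (W : Fin L → ℕ)
    (O : Finset (Fin L)) (hin : h * ∑ j ∈ univ.filter (fun j => j ∉ O), W j ≤ (h - 1) * m)
    (hout : ∑ j ∈ O, W j ≤ R * m)
    (he : 2 * h * R * (2 * h - 1) ^ e2 ≤ (2 * h) ^ e2) :
    ∑ u ∈ (univ : Finset (Fin N → Fin L)).filter (fun u => e2 * cnt O u ≤ N),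
      ∏ t, W (u t) ≤ m ^ N := by
  classical
  have hh' : (1 : ℝ) ≤ h := by exact_mod_cast hh
  have hR' : (1 : ℝ) ≤ R := by exact_mod_cast hR
  set ρ : ℝ := 2 * h / (2 * h - 1) with hρ
  have h21 : (0 : ℝ) < 2 * h - 1 := by linarith
  have hρ1 : 1 ≤ ρ := by
    rw [hρ, le_div_iff₀ h21]
    linarith
  set τ : ℝ := 2 * h * R with hτ
  have hτ0 : 0 < τ := by positivity
  have hτρ : τ ≤ ρ ^ e2 := by
    rw [hρ, div_pow, le_div_iff₀ (by positivity)]
    have h3 := he
    have h4 : ((2 * h * R * (2 * h - 1) ^ e2 : ℕ) : ℝ) ≤ ((2 * h) ^ e2 : ℕ) := by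
      exact_mod_cast h3
    rw [Nat.cast_mul, Nat.cast_mul, Nat.cast_mul, Nat.cast_pow, Nat.cast_pow,
      Nat.cast_sub (by omega)] at h4
    push_cast at h4
    exact h4
  have hsum : (∑ j, (W j : ℝ) * (if j ∈ O then τ⁻¹ else 1)) ≤ m * ρ⁻¹ := by
    have e1 : (∑ j, (W j : ℝ) * (if j ∈ O then τ⁻¹ else 1)) =
        (∑ j ∈ O, (W j : ℝ)) * τ⁻¹ + ∑ j ∈ univ.filter (fun j => j ∉ O), (W j : ℝ) := by
      rw [← Finset.sum_filter_add_sum_filter_not univ (fun j => j ∈ O)]
      congr 1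
      · rw [Finset.sum_mul, Finset.filter_mem_eq_inter, Finset.univ_inter]
        refine Finset.sum_congr rfl fun j hj => ?_
        rw [if_pos hj]
      · refine Finset.sum_congr rfl fun j hj => ?_
        rw [if_neg (Finset.mem_filter.1 hj).2, mul_one]
    rw [e1]
    have h1 : (∑ j ∈ O, (W j : ℝ)) ≤ R * m := by exact_mod_cast hout
    have h2 : (h : ℝ) * ∑ j ∈ univ.filter (fun j => j ∉ O), (W j : ℝ) ≤ (h - 1) * m := by
      have : ((h * ∑ j ∈ univ.filter (fun j => j ∉ O), W j : ℕ) : ℝ) ≤ (((h - 1) * m : ℕ) : ℝ) := by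
        exact_mod_cast hin
      rw [Nat.cast_mul, Nat.cast_mul, Nat.cast_sub hh] at this
      push_cast at this
      exact this
    have h3 : (∑ j ∈ O, (W j : ℝ)) * τ⁻¹ ≤ m / (2 * h) := by
      rw [← div_eq_mul_inv, div_le_div_iff₀ hτ0 (by positivity), hτ]
      calc (∑ j ∈ O, (W j : ℝ)) * (2 * h) ≤ (R * m) * (2 * h) := by gcongr
        _ = _ := by ring
    have h4 : ∑ j ∈ univ.filter (fun j => j ∉ O), (W j : ℝ) ≤ (h - 1) * m / h := by
      rw [le_div_iff₀ (by linarith)]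
      linarith
    have h5 : (m : ℝ) * ρ⁻¹ = m / (2 * h) + (h - 1) * m / h := by
      rw [hρ]
      field_simp
      ring
    linarith
  have hterm : ∀ u ∈ (univ : Finset (Fin N → Fin L)).filter (fun u => e2 * cnt O u ≤ N),
      ((∏ t, W (u t) : ℕ) : ℝ) ≤
        ρ ^ N * ∏ t, ((W (u t) : ℝ) * (if u t ∈ O then τ⁻¹ else 1)) := by
    intro u hu
    have hu' := (Finset.mem_filter.1 hu).2
    rw [Finset.prod_mul_distrib, prod_ite_cnt]
    have h1 : 1 ≤ ρ ^ N * τ⁻¹ ^ cnt O u := by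
      rw [inv_pow, ← div_eq_mul_inv, le_div_iff₀ (by positivity), one_mul]
      calc τ ^ cnt O u ≤ (ρ ^ e2) ^ cnt O u := by gcongr
        _ = ρ ^ (e2 * cnt O u) := by rw [pow_mul]
        _ ≤ ρ ^ N := pow_le_pow_right₀ hρ1 hu'
    have h2 : (0 : ℝ) ≤ ∏ t, (W (u t) : ℝ) := Finset.prod_nonneg fun t _ => by positivity
    push_cast
    calc (∏ t, (W (u t) : ℝ)) = (∏ t, (W (u t) : ℝ)) * 1 := (mul_one _).symm
      _ ≤ (∏ t, (W (u t) : ℝ)) * (ρ ^ N * τ⁻¹ ^ cnt O u) := by gcongr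
      _ = _ := by ring
  have hfin : ((∑ u ∈ (univ : Finset (Fin N → Fin L)).filter (fun u => e2 * cnt O u ≤ N),
      ∏ t, W (u t) : ℕ) : ℝ) ≤ ((m ^ N : ℕ) : ℝ) := by
    rw [Nat.cast_sum]
    calc ∑ u ∈ (univ : Finset (Fin N → Fin L)).filter (fun u => e2 * cnt O u ≤ N),
          ((∏ t, W (u t) : ℕ) : ℝ)
        ≤ ∑ u ∈ (univ : Finset (Fin N → Fin L)).filter (fun u => e2 * cnt O u ≤ N),
          ρ ^ N * ∏ t, ((W (u t) : ℝ) * (if u t ∈ O then τ⁻¹ else 1)) := Finset.sum_le_sum hterm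
      _ ≤ ∑ u : Fin N → Fin L,
          ρ ^ N * ∏ t, ((W (u t) : ℝ) * (if u t ∈ O then τ⁻¹ else 1)) := by
          refine Finset.sum_le_sum_of_subset_of_nonneg (Finset.filter_subset _ _) fun u _ _ => ?_
          refine mul_nonneg (by positivity) (Finset.prod_nonneg fun t _ => ?_)
          split_ifs <;> positivity
      _ = ρ ^ N * (∑ j, (W j : ℝ) * (if j ∈ O then τ⁻¹ else 1)) ^ N := by
          rw [← Finset.mul_sum, words_sum (fun j => (W j : ℝ) * (if j ∈ O then τ⁻¹ else 1))]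
      _ ≤ ρ ^ N * (m * ρ⁻¹) ^ N := by
          gcongr
      _ = ((m ^ N : ℕ) : ℝ) := by
          rw [mul_pow, inv_pow]
          have : ρ ^ N ≠ 0 := by positivity
          field_simp
          push_cast
          rfl
  exact_mod_cast hfin

end Pool.Agent.TH671.SH
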