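import Mathlib
import Pool.Agent.TH671.SH.Mid

/-!
# Bounds for the ranks of the products for all words
-/

set_option autoImplicit false
set_option linter.unusedSectionVars false

open Finset

namespace Pool.Agent.TH671.SH

open Pool.Agent.W329.AR Pool.Agent.TH671.SG

variable {K : Type*} [CommRing K]
variable {α β γ : Type*}

theorem FS_one (κ : Fin 3) : FS 1 κ (fun (_ : α) (_ : β) (_ : γ) => (1 : K)) 1 := by
  refine ⟨Unit, inferInstance, by simp, ?_⟩
  have h0 : Fintype.card Unit = 1 := by simp
  fin_cases κ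
  · have := FT_p (E := Unit) (ς := Unit) (T := fun (_ : α) (_ : β) (_ : γ) => (1 : K))
      (fun _ _ => 1) (fun _ => ()) (fun _ _ => 1) (fun _ _ => 1) (fun a b c => by simp)
    rwa [h0] at this
  · have := FT_q (E := Unit) (ς := Unit) (T := fun (_ : α) (_ : β) (_ : γ) => (1 : K))
      (fun _ _ => 1) (fun _ => ()) (fun _ _ => 1) (fun _ _ => 1) (fun a b c => by simp)
    rwa [h0] at this
  · have := FT_s (E := Unit) (ς := Unit) (T := fun (_ : α) (_ : β) (_ : γ) => (1 : K))
      (fun _ => ()) (fun _ _ => 1) (fun _ _ => 1) (fun _ _ => 1) (fun a b c => by simp)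
    rwa [h0] at this

/-- rank of the pointwise product -/
theorem Rk.hmul {T T' : α → β → γ → K} {r r' : ℕ} (h : Rk T r) (h' : Rk T' r') :
    Rk (fun a b c => T a b c * T' a b c) (r * r') := by
  obtain ⟨u, v, w, h⟩ := h
  obtain ⟨u', v', w', h'⟩ := h'
  have := Rk.of_fintype (κ := Fin r × Fin r') (T := fun a b c => T a b c * T' a b c)
    (fun l a => u l.1 a * u' l.2 a) (fun l a => v l.1 a * v' l.2 a)
    (fun l a => w l.1 a * w' l.2 a) (fun a b c => by
      rw [h, h', Finset.sum_mul_sum, Fintype.sum_prod_type]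
      exact Finset.sum_congr rfl fun i _ => Finset.sum_congr rfl fun j _ => by ring)
  simpa using this

theorem QQ_mono {a b : ℕ} (h : a ≤ b) : QQ a ≤ QQ b := by
  unfold QQ
  gcongr

/-- Powers of one tensor with stars in all three directions. -/
theorem pow_rk {σ z m X N : ℕ} {Z : α → β → γ → K} (hZ : ∀ κ, FS σ κ Z z) (B C : ℕ)
    (hzX : z ≤ X)
    (g1 : ∀ n, n ≤ N → z ^ n ≤ 4 ^ (B * n) * m ^ n)
    (g2 : ∀ n k, n ≤ N → k ≤ n → n ≤ 3 * (k + 1) →
      10 ^ (5 * (B * n)) * (σ ^ k * X ^ (n - k)) ≤ C * m ^ n) (J : Finset (Fin N)) :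
    Rk (fun (x : Fin N → α) (y : Fin N → β) (w : Fin N → γ) =>
        ∏ t, (if t ∈ J then Z (x t) (y t) (w t) else 1))
      ((2 * QQ (B * N) + 3 * C) * m ^ J.card) := by
  classical
  have hJN : J.card ≤ N := by simpa using Finset.card_le_univ J
  obtain ⟨J0, hJ0, d0⟩ := Finset.exists_subset_card_eq (s := J) (n := J.card / 3)
    (Nat.div_le_self _ _)
  obtain ⟨J1, hJ1, d1⟩ := Finset.exists_subset_card_eq (s := J \ J0) (n := J.card / 3)
    (by rw [Finset.card_sdiff_of_subset hJ0, d0]; omega)
  have hJ1' : J1 ⊆ J := hJ1.trans Finset.sdiff_subset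
  have hJ01 : ∀ t ∈ J1, t ∉ J0 := fun t ht => (Finset.mem_sdiff.1 (hJ1 ht)).2
  set J2 := (J \ J0) \ J1 with hJ2
  have d2 : J.card / 3 ≤ J2.card := by
    rw [hJ2, Finset.card_sdiff_of_subset hJ1, Finset.card_sdiff_of_subset hJ0, d0, d1]
    omega
  set κ : Fin N → Fin 3 := fun t => if t ∈ J0 then 0 else if t ∈ J1 then 1 else 2 with hκ
  have hFS : ∀ t, FS (if t ∈ J then σ else 1) (κ t)
      (fun a b c => if t ∈ J then Z a b c else 1) (if t ∈ J then z else 1) := by
    intro t
    by_cases ht : t ∈ J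
    · simpa [ht] using hZ (κ t)
    · simpa [ht] using FS_one (K := K) (α := α) (β := β) (γ := γ) (κ t)
  obtain ⟨ρ, hρ, hρ2⟩ := prod_rk2' hFS (B * J.card)
  refine hρ.mono ?_
  set n := J.card with hn
  have hW : ∏ t, (if t ∈ J then z else 1) = z ^ n := by
    rw [Finset.prod_ite, Finset.prod_const, Finset.prod_const_one, mul_one]
    congr 2
    ext t
    simp
  have key : ∀ (c : Fin 3) (I : Finset (Fin N)), I ⊆ J → (∀ t ∈ I, κ t = c) →
      n / 3 ≤ I.card →
      10 ^ (5 * (B * n)) * (∏ t, (if κ t = c then (if t ∈ J then σ else 1) else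
        (if t ∈ J then z else 1))) ≤ C * m ^ n := by
    intro c I hI hc hcard
    set P := J.filter fun t => κ t = c with hP
    have hPn : P.card ≤ n := Finset.card_le_card (Finset.filter_subset _ _)
    have hIP : I.card ≤ P.card := by
      refine Finset.card_le_card fun t ht => Finset.mem_filter.2 ⟨hI ht, hc t ht⟩
    have h1 : ∏ t, (if κ t = c then (if t ∈ J then σ else 1) else (if t ∈ J then z else 1)) ≤
        σ ^ P.card * X ^ (n - P.card) := by
      calc ∏ t, (if κ t = c then (if t ∈ J then σ else 1) else (if t ∈ J then z else 1))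
          = ∏ t, (if t ∈ J then (if κ t = c then σ else z) else 1) := by
            refine Finset.prod_congr rfl fun t _ => ?_
            by_cases h1 : t ∈ J <;> by_cases h2 : κ t = c <;> simp [h1, h2]
        _ = ∏ t ∈ J, (if κ t = c then σ else z) := by
            rw [Finset.prod_ite, Finset.prod_const_one, mul_one]
            refine Finset.prod_congr ?_ fun _ _ => rfl
            ext t
            simp
        _ = σ ^ P.card * z ^ (n - P.card) := by
            rw [Finset.prod_ite, Finset.prod_const, Finset.prod_const]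
            congr 2
            have h' : P.card + (J.filter fun t => ¬ κ t = c).card = n :=
              Finset.card_filter_add_card_filter_not (s := J) (fun t => κ t = c)
            omega
        _ ≤ _ := by gcongr
    calc 10 ^ (5 * (B * n)) * (∏ t, (if κ t = c then (if t ∈ J then σ else 1) else
          (if t ∈ J then z else 1))) ≤ 10 ^ (5 * (B * n)) * (σ ^ P.card * X ^ (n - P.card)) :=
          Nat.mul_le_mul_left _ h1
      _ ≤ _ := g2 n P.card hJN hPn (by omega)
  have q0 := key 0 J0 hJ0 (fun t ht => by simp [hκ, ht]) d0.ge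
  have q1 := key 1 J1 hJ1' (fun t ht => by simp [hκ, ht, hJ01 t ht]) d1.ge
  have q2 := key 2 J2 (Finset.sdiff_subset.trans Finset.sdiff_subset) (fun t ht => by
    have h1 := Finset.mem_sdiff.1 ht
    have h2 := Finset.mem_sdiff.1 h1.1
    simp [hκ, h1.2, h2.2]) d2
  have hfin : 4 ^ (B * n) * ρ ≤ 4 ^ (B * n) * ((2 * QQ (B * N) + 3 * C) * m ^ n) := by
    calc 4 ^ (B * n) * ρ = ρ * 4 ^ (B * n) := mul_comm _ _
      _ ≤ _ := hρ2
      _ = 2 * QQ (B * n) * z ^ n +
          4 ^ (B * n) * (10 ^ (5 * (B * n)) * (∏ t, (if κ t = 2 then (if t ∈ J then σ else 1)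
            else (if t ∈ J then z else 1))) +
          10 ^ (5 * (B * n)) * (∏ t, (if κ t = 0 then (if t ∈ J then σ else 1) else
            (if t ∈ J then z else 1))) +
          10 ^ (5 * (B * n)) * (∏ t, (if κ t = 1 then (if t ∈ J then σ else 1) else
            (if t ∈ J then z else 1)))) := by
          rw [hW]
          ring
      _ ≤ 2 * QQ (B * N) * (4 ^ (B * n) * m ^ n) +
          4 ^ (B * n) * (C * m ^ n + C * m ^ n + C * m ^ n) := by
          have hq : QQ (B * n) ≤ QQ (B * N) := QQ_mono (Nat.mul_le_mul_left _ hJN)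
          have hz := g1 n hJN
          gcongr
      _ = _ := by ring
  exact Nat.le_of_mul_le_mul_left hfin (by positivity)

/-- the weights used for exceptional words -/
def wtt (W : Fin 8 → ℕ) (m : ℕ) : Fin 8 → ℕ := fun j => if j = 7 then m else W j

theorem word_triv {σ m N : ℕ} {A : Fin 8 → α → β → γ → K} {W : Fin 8 → ℕ} {w c0 : ℕ}
    (hG : Good8 σ A W w)
    (hZ : ∀ J : Finset (Fin N), Rk (fun (x : Fin N → α) (y : Fin N → β) (z : Fin N → γ) =>
        ∏ t, (if t ∈ J then A 7 (x t) (y t) (z t) else 1)) (c0 * m ^ J.card))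
    (v : Fin N → Fin 8) : Rk (fun (x : Fin N → α) (y : Fin N → β) (z : Fin N → γ) =>
        ∏ t, A (v t) (x t) (y t) (z t)) (c0 * ∏ t, wtt W m (v t)) := by
  classical
  set J := univ.filter fun t => v t = 7 with hJ
  have h1 := hZ J
  have h2 : Rk (fun (x : Fin N → α) (y : Fin N → β) (z : Fin N → γ) =>
      ∏ t, (if t ∈ J then 1 else A (v t) (x t) (y t) (z t)))
      (∏ t, (if t ∈ J then 1 else W (v t))) := by
    have : ∀ t, FS (if t ∈ J then 1 else W (v t)) 2
        (fun a b c => if t ∈ J then 1 else A (v t) a b c) (if t ∈ J then 1 else W (v t)) := by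
      intro t
      by_cases ht : t ∈ J
      · simpa [ht] using FS_one (K := K) (α := α) (β := β) (γ := γ) 2
      · have h7 : v t ≠ 7 := fun h => ht (Finset.mem_filter.2 ⟨Finset.mem_univ _, h⟩)
        simpa [ht] using hG.tr _ h7 2
    exact prod_rk0' this
  refine ((Rk.hmul h2 h1).mono (le_of_eq ?_)).congr fun x y z => ?_
  · have : m ^ J.card = ∏ t : Fin N, (if t ∈ J then m else 1) := by
      rw [Finset.prod_ite, Finset.prod_const, Finset.prod_const_one, mul_one]
      congr 2
      ext t
      simp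
    rw [this]
    calc (∏ t, (if t ∈ J then 1 else W (v t))) * (c0 * ∏ t : Fin N, (if t ∈ J then m else 1))
        = c0 * ((∏ t, (if t ∈ J then 1 else W (v t))) *
            ∏ t : Fin N, (if t ∈ J then m else 1)) := by ring
      _ = _ := by
          rw [← Finset.prod_mul_distrib]
          congr 1
          refine Finset.prod_congr rfl fun t _ => ?_
          by_cases ht : v t = 7
          · have : t ∈ J := Finset.mem_filter.2 ⟨Finset.mem_univ _, ht⟩
            simp [this, wtt, ht]
          · have : t ∉ J := fun h => ht (Finset.mem_filter.1 h).2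
            simp [this, wtt, ht]
  · rw [← Finset.prod_mul_distrib]
    refine Finset.prod_congr rfl fun t _ => ?_
    by_cases ht : v t = 7
    · have : t ∈ J := Finset.mem_filter.2 ⟨Finset.mem_univ _, ht⟩
      simp [this, ht]
    · have : t ∉ J := fun h => ht (Finset.mem_filter.1 h).2
      simp [this]

/-- words with letters grouped -/
theorem word_triv5 {N c0 : ℕ} {A : Fin 8 → α → β → γ → K} {Wt : Fin 8 → ℕ}
    (hA : ∀ v : Fin N → Fin 8, Rk (fun (x : Fin N → α) (y : Fin N → β) (z : Fin N → γ) =>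
        ∏ t, A (v t) (x t) (y t) (z t)) (c0 * ∏ t, Wt (v t)))
    (φ : Fin 8 → Fin 5) (u : Fin N → Fin 5) :
    Rk (fun (x : Fin N → α) (y : Fin N → β) (z : Fin N → γ) =>
        ∏ t, ∑ j ∈ univ.filter (fun j => φ j = u t), A j (x t) (y t) (z t))
      (c0 * ∏ t, ∑ j ∈ univ.filter (fun j => φ j = u t), Wt j) := by
  classical
  have h := Rk.sum (Fintype.piFinset fun t => univ.filter (fun j => φ j = u t))
    (fun v (x : Fin N → α) (y : Fin N → β) (z : Fin N → γ) =>
      ∏ t, A (v t) (x t) (y t) (z t)) (fun v => c0 * ∏ t, Wt (v t)) (fun v _ => hA v)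
  refine (h.mono (le_of_eq ?_)).congr fun x y z => ?_
  · rw [← Finset.mul_sum, Finset.prod_univ_sum]
  · rw [Finset.prod_univ_sum]

end Pool.Agent.TH671.SH
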