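import Mathlib
import Pool.Agent.TH671.SH.Class
import Pool.Agent.TH671.SH.Triv

/-!
# The bound for the ranks of the Kronecker powers
-/

set_option autoImplicit false
set_option linter.unusedSectionVars false

open Finset

namespace Pool.Agent.TH671.SH

open Pool.Agent.W329.AR Pool.Agent.TH671.SG

variable {K : Type*} [CommRing K]
variable {α β γ : Type*}

theorem Rk.smul {T : α → β → γ → K} {r : ℕ} (h : Rk T r) (c : K) :
    Rk (fun x y z => c * T x y z) r := by
  obtain ⟨u, v, w, h⟩ := h
  refine ⟨fun i a => c * u i a, v, w, fun a b d => ?_⟩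
  beta_reduce
  rw [h, Finset.mul_sum]
  exact Finset.sum_congr rfl fun i _ => by ring

theorem signed_split {ι : Type*} [Fintype ι] (p q r : ι → Prop) [DecidablePred p]
    [DecidablePred q] [DecidablePred r] (f : ι → K) : ∑ v, f v =
      ∑ v ∈ univ.filter p, f v + (∑ v ∈ univ.filter q, f v + (∑ v ∈ univ.filter r, f v +
        ∑ v ∈ univ.filter (fun v => (¬ p v ∧ ¬ q v ∧ ¬ r v) ∨ (p v ∧ q v) ∨ (p v ∧ r v) ∨
          (q v ∧ r v)), (1 - (if p v then 1 else 0) - (if q v then 1 else 0) -
            (if r v then 1 else 0)) * f v)) := by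
  rw [Finset.sum_filter, Finset.sum_filter, Finset.sum_filter, Finset.sum_filter,
    ← Finset.sum_add_distrib, ← Finset.sum_add_distrib, ← Finset.sum_add_distrib]
  refine Finset.sum_congr rfl fun v _ => ?_
  by_cases h1 : p v <;> by_cases h2 : q v <;> by_cases h3 : r v <;> simp [h1, h2, h3]
  ring

/-- the class of a letter, first direction -/
def φX : Fin 8 → Fin 5 := ![0, 4, 4, 4, 1, 2, 3, 4]

/-- the class of a letter, second direction -/
def φY : Fin 8 → Fin 5 := ![4, 0, 4, 2, 4, 1, 3, 4]

/-- the class of a letter, third direction -/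
def φW : Fin 8 → Fin 5 := ![4, 4, 0, 1, 2, 4, 3, 4]

theorem cnt_comp {N : ℕ} (φ : Fin 8 → Fin 5) (S : Finset (Fin 8))
    (h : ∀ j, φ j ∈ ({4} : Finset (Fin 5)) ↔ j ∈ S) (v : Fin N → Fin 8) :
    cnt {4} (fun t => φ (v t)) = cnt S v := by
  unfold cnt
  congr 1
  ext t
  simp only [Finset.mem_filter, Finset.mem_univ, true_and]
  exact h (v t)

theorem cnt_union {N L : ℕ} (S S' U : Finset (Fin L)) (h : U ⊆ S ∪ S') (v : Fin N → Fin L) :
    cnt U v ≤ cnt S v + cnt S' v := by
  classical
  refine le_trans (Finset.card_le_card ?_) (Finset.card_union_le _ _)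
  intro t ht
  have := h (Finset.mem_filter.1 ht).2
  rw [Finset.mem_union] at this ⊢
  rcases this with h | h
  · exact Or.inl (Finset.mem_filter.2 ⟨Finset.mem_univ _, h⟩)
  · exact Or.inr (Finset.mem_filter.2 ⟨Finset.mem_univ _, h⟩)

/-- The numbers used in the bound. -/
structure Num (σ m z N h e1 e2 E d M C B C' X : ℕ) : Prop where
  hh : 1 ≤ h
  hd : 1 ≤ d
  he1 : 2 * E ≤ e1
  hE : 2 * e2 ≤ E
  hd0 : σ * d * 32 ^ e1 ≤ m
  he : 2 * h * 32 * (2 * h - 1) ^ e2 ≤ (2 * h) ^ e2
  hmX : m ≤ X
  hzX : z ≤ X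
  n1 : ∀ g, E * g ≤ N → (4 * X) ^ g ≤ 4 ^ M * σ ^ g
  n2 : ∀ k, N ≤ 8 * e2 * (k + 1) → 10 ^ (5 * M) * 4 ^ M ≤ C * d ^ k
  m1 : 8 ^ N * X ^ N ≤ 4 ^ (B * N) * m ^ N
  m2 : ∀ k, k ≤ N → N ≤ 6 * E * (k + 1) →
      8 ^ N * 10 ^ (5 * (B * N)) * (σ ^ k * X ^ (N - k)) ≤ C' * m ^ N
  g1 : ∀ n, n ≤ N → z ^ n ≤ 4 ^ (B * n) * m ^ n
  g2 : ∀ n k, n ≤ N → k ≤ n → n ≤ 3 * (k + 1) →
      10 ^ (5 * (B * n)) * (σ ^ k * X ^ (n - k)) ≤ C' * m ^ n

variable {σ m z N h e1 e2 E d M C B C' X : ℕ}

/-- one of the three classes -/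
theorem class_all (hn : Num σ m z N h e1 e2 E d M C B C' X) {A : Fin 5 → α → β → γ → K}
    {W Wt : Fin 5 → ℕ} (hC : Cl σ A W) (hW4 : W 4 ≤ 4 * X) (hWt : ∀ j, Wt j ≤ 4 * m)
    (hWW : ∀ j, j ≠ 4 → Wt j = W j) {c0 : ℕ}
    (htriv : ∀ u : Fin N → Fin 5, Rk (fun (x : Fin N → α) (y : Fin N → β) (z : Fin N → γ) =>
      ∏ t, A (u t) (x t) (y t) (z t)) (c0 * ∏ t, Wt (u t)))
    (hm : W 0 + W 1 + W 2 + W 3 + σ ≤ m) (c1 : h * (W 2 + W 3) ≤ (h - 1) * m)
    (c2 : h * (W 1 + W 3) ≤ (h - 1) * m) :
    Rk (fun (x : Fin N → α) (y : Fin N → β) (z : Fin N → γ) =>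
        ∑ u ∈ (univ : Finset (Fin N → Fin 5)).filter (fun u => E * cnt {4} u ≤ N),
          ∏ t, A (u t) (x t) (y t) (z t))
      ((2 * QQ M + 2 * C + 3 * c0) * m ^ N) := by
  classical
  have hK8 : 1 ≤ 8 * 4 := by norm_num
  have hW0 := hWW 0 (by decide)
  have hW1 := hWW 1 (by decide)
  have hW2 := hWW 2 (by decide)
  have hW3 := hWW 3 (by decide)
  refine class_sum hC (univ.filter fun j => j ≠ 4 ∧ 32 ^ e1 * W j ≤ m) ?_ hn.hd hm N M C
    e1 e2 E ?_ hn.n2 hn.hE (by have := hn.he1; have := hn.hE; omega) Wt c0 htriv ?_ ?_ ?_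
  · intro j _ h4 hj
    simp only [Finset.mem_filter, Finset.mem_univ, true_and, not_and, not_le] at hj
    have h1 : 32 ^ e1 * (σ * d) ≤ 32 ^ e1 * W j := by
      calc 32 ^ e1 * (σ * d) = σ * d * 32 ^ e1 := by ring
        _ ≤ m := hn.hd0
        _ ≤ _ := (hj h4).le
    exact Nat.le_of_mul_le_mul_left h1 (by positivity)
  · intro g hg
    exact (Nat.pow_le_pow_left hW4 g).trans (hn.n1 g hg)
  · refine exc_small (K1 := 4) (by norm_num) (by norm_num) Wt _ hWt ?_
    intro j hj
    obtain ⟨_, h1, h2⟩ := Finset.mem_filter.1 hj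
    rw [hWW j h1]
    exact h2
  · refine exc_in (R := 32) hn.hh (by norm_num) Wt _ ?_ ?_ hn.he
    · have : (univ.filter fun j : Fin 5 => j ∉ ({0, 1, 4} : Finset (Fin 5))) = {2, 3} := by decide
      rw [this, Finset.sum_pair (by decide), hW2, hW3]
      exact c1
    · rw [Finset.sum_insert (by decide), Finset.sum_pair (by decide)]
      have := hWt 0; have := hWt 1; have := hWt 4
      omega
  · refine exc_in (R := 32) hn.hh (by norm_num) Wt _ ?_ ?_ hn.he
    · have : (univ.filter fun j : Fin 5 => j ∉ ({0, 2, 4} : Finset (Fin 5))) = {1, 3} := by decide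
      rw [this, Finset.sum_pair (by decide), hW1, hW3]
      exact c2
    · rw [Finset.sum_insert (by decide), Finset.sum_pair (by decide)]
      have := hWt 0; have := hWt 2; have := hWt 4
      omega

/-- the sum over the words of a class in terms of words with eight letters -/
theorem class_words (φ : Fin 8 → Fin 5) (S : Finset (Fin 8))
    (hφ : ∀ j, φ j ∈ ({4} : Finset (Fin 5)) ↔ j ∈ S) (A : Fin 8 → α → β → γ → K)
    {r : ℕ} (hr : Rk (fun (x : Fin N → α) (y : Fin N → β) (z : Fin N → γ) =>
        ∑ u ∈ (univ : Finset (Fin N → Fin 5)).filter (fun u => E * cnt {4} u ≤ N),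
          ∏ t, ∑ j ∈ univ.filter (fun j => φ j = u t), A j (x t) (y t) (z t)) r) :
    Rk (fun (x : Fin N → α) (y : Fin N → β) (z : Fin N → γ) =>
        ∑ v ∈ (univ : Finset (Fin N → Fin 8)).filter (fun v => E * cnt S v ≤ N),
          ∏ t, A (v t) (x t) (y t) (z t)) r := by
  classical
  refine hr.congr fun x y z => ?_
  have := group_words (K := K) (N := N) φ (fun u => E * cnt {4} u ≤ N)
    (fun t j => A j (x t) (y t) (z t))
  rw [← this]
  refine Finset.sum_congr ?_ fun _ _ => rfl
  ext v
  simp only [Finset.mem_filter, Finset.mem_univ, true_and]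
  rw [cnt_comp φ S hφ]

theorem master (hn : Num σ m z N h e1 e2 E d M C B C' X) {T : α → β → γ → K}
    {A : Fin 8 → α → β → γ → K} (hT : ∀ x y z, T x y z = ∑ j, A j x y z) {W : Fin 8 → ℕ} {w : ℕ}
    (hG : Good8 σ A W w) (hW7 : W 7 ≤ z) (hw : w ≤ 4 * X)
    (hX : W 0 + W 4 + W 5 + W 6 + σ ≤ m) (hY : W 1 + W 5 + W 3 + W 6 + σ ≤ m)
    (hZ : W 2 + W 3 + W 4 + W 6 + σ ≤ m)
    (c0 : h * (W 3 + W 6) ≤ (h - 1) * m) (c1 : h * (W 4 + W 6) ≤ (h - 1) * m)
    (c2 : h * (W 5 + W 6) ≤ (h - 1) * m) :
    Rk (fun (x : Fin N → α) (y : Fin N → β) (z : Fin N → γ) => ∏ t, T (x t) (y t) (z t))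
      ((3 * (2 * QQ M + 2 * C + 3 * (2 * QQ (B * N) + 3 * C')) + (2 * QQ (B * N) + 3 * C') +
        4 * (2 * QQ (B * N) + 3 * C')) * m ^ N) := by
  classical
  set k0 := 2 * QQ (B * N) + 3 * C' with hk0
  have hzf : ∀ J : Finset (Fin N), Rk (fun (x : Fin N → α) (y : Fin N → β) (z : Fin N → γ) =>
      ∏ t, (if t ∈ J then A 7 (x t) (y t) (z t) else 1)) (k0 * m ^ J.card) :=
    pow_rk (fun κ => (hG.z κ).mono le_rfl hW7) B C' hn.hzX hn.g1 hn.g2
  have htriv := word_triv hG hzf
  have hWX : ∀ j, W j ≤ X := by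
    intro j
    have hm := hn.hmX
    have hz := hn.hzX
    fin_cases j
    · change W 0 ≤ X; omega
    · change W 1 ≤ X; omega
    · change W 2 ≤ X; omega
    · change W 3 ≤ X; omega
    · change W 4 ≤ X; omega
    · change W 5 ≤ X; omega
    · change W 6 ≤ X; omega
    · exact hW7.trans hz
  have hWm : ∀ j, wtt W m j ≤ m := by
    intro j
    fin_cases j
    · change W 0 ≤ m; omega
    · change W 1 ≤ m; omega
    · change W 2 ≤ m; omega
    · change W 3 ≤ m; omega
    · change W 4 ≤ m; omega
    · change W 5 ≤ m; omega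
    · change W 6 ≤ m; omega
    · exact le_rfl
  -- the three classes
  have hCX : Cl σ (fun (i : Fin 5) (a : α) (b : β) (c : γ) =>
      ∑ j ∈ univ.filter (fun j => φX j = i), A j a b c) ![W 0, W 4, W 5, W 6, w] := by
    have f0 : (univ.filter fun j => φX j = 0) = {0} := by decide
    have f1 : (univ.filter fun j => φX j = 1) = {4} := by decide
    have f2 : (univ.filter fun j => φX j = 2) = {5} := by decide
    have f3 : (univ.filter fun j => φX j = 3) = {6} := by decide
    have f4 : (univ.filter fun j => φX j = 4) = {1, 2, 3, 7} := by decide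
    refine ⟨?_, ?_, ?_, ?_, ?_, ?_⟩
    · exact hG.a00.congr fun a b c => by rw [f0, Finset.sum_singleton]
    · exact hG.a01.congr fun a b c => by rw [f0, Finset.sum_singleton]
    · exact hG.b1.congr fun a b c => by rw [f1, Finset.sum_singleton]
    · exact hG.b2.congr fun a b c => by rw [f2, Finset.sum_singleton]
    · exact hG.R0.congr fun a b c => by rw [f4]
    · intro j hj κ
      fin_cases j
      · exact (hG.tr 0 (by decide) κ).congr fun a b c => by
          change ∑ j ∈ univ.filter (fun j => φX j = 0), A j a b c = _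
          rw [f0, Finset.sum_singleton]
      · exact (hG.tr 4 (by decide) κ).congr fun a b c => by
          change ∑ j ∈ univ.filter (fun j => φX j = 1), A j a b c = _
          rw [f1, Finset.sum_singleton]
      · exact (hG.tr 5 (by decide) κ).congr fun a b c => by
          change ∑ j ∈ univ.filter (fun j => φX j = 2), A j a b c = _
          rw [f2, Finset.sum_singleton]
      · exact (hG.tr 6 (by decide) κ).congr fun a b c => by
          change ∑ j ∈ univ.filter (fun j => φX j = 3), A j a b c = _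
          rw [f3, Finset.sum_singleton]
      · exact absurd rfl hj
  have hCY : Cl σ (fun (i : Fin 5) (b : β) (c : γ) (a : α) =>
      ∑ j ∈ univ.filter (fun j => φY j = i), A j a b c) ![W 1, W 5, W 3, W 6, w] := by
    have f0 : (univ.filter fun j => φY j = 0) = {1} := by decide
    have f1 : (univ.filter fun j => φY j = 1) = {5} := by decide
    have f2 : (univ.filter fun j => φY j = 2) = {3} := by decide
    have f3 : (univ.filter fun j => φY j = 3) = {6} := by decide
    have f4 : (univ.filter fun j => φY j = 4) = {0, 2, 4, 7} := by decide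
    refine ⟨?_, ?_, ?_, ?_, ?_, ?_⟩
    · exact hG.a11.rot.congr fun b c a => by rw [f0, Finset.sum_singleton]
    · exact hG.a12.rot.congr fun b c a => by rw [f0, Finset.sum_singleton]
    · exact hG.b2.rot.congr fun b c a => by rw [f1, Finset.sum_singleton]
    · exact hG.b0.rot.congr fun b c a => by rw [f2, Finset.sum_singleton]
    · exact hG.R1.rot.congr fun b c a => by rw [f4]
    · intro j hj κ
      have hκ : κ + 1 + 2 = κ := by
        revert κ; decide
      fin_cases j
      · have := (hG.tr 1 (by decide) (κ + 1)).rot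
        rw [hκ] at this
        exact this.congr fun b c a => by
          change ∑ j ∈ univ.filter (fun j => φY j = 0), A j a b c = _
          rw [f0, Finset.sum_singleton]
      · have := (hG.tr 5 (by decide) (κ + 1)).rot
        rw [hκ] at this
        exact this.congr fun b c a => by
          change ∑ j ∈ univ.filter (fun j => φY j = 1), A j a b c = _
          rw [f1, Finset.sum_singleton]
      · have := (hG.tr 3 (by decide) (κ + 1)).rot
        rw [hκ] at this
        exact this.congr fun b c a => by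
          change ∑ j ∈ univ.filter (fun j => φY j = 2), A j a b c = _
          rw [f2, Finset.sum_singleton]
      · have := (hG.tr 6 (by decide) (κ + 1)).rot
        rw [hκ] at this
        exact this.congr fun b c a => by
          change ∑ j ∈ univ.filter (fun j => φY j = 3), A j a b c = _
          rw [f3, Finset.sum_singleton]
      · exact absurd rfl hj
  have hCZ : Cl σ (fun (i : Fin 5) (c : γ) (a : α) (b : β) =>
      ∑ j ∈ univ.filter (fun j => φW j = i), A j a b c) ![W 2, W 3, W 4, W 6, w] := by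
    have f0 : (univ.filter fun j => φW j = 0) = {2} := by decide
    have f1 : (univ.filter fun j => φW j = 1) = {3} := by decide
    have f2 : (univ.filter fun j => φW j = 2) = {4} := by decide
    have f3 : (univ.filter fun j => φW j = 3) = {6} := by decide
    have f4 : (univ.filter fun j => φW j = 4) = {0, 1, 5, 7} := by decide
    refine ⟨?_, ?_, ?_, ?_, ?_, ?_⟩
    · exact hG.a22.rot.rot.congr fun c a b => by rw [f0, Finset.sum_singleton]
    · exact hG.a20.rot.rot.congr fun c a b => by rw [f0, Finset.sum_singleton]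
    · exact hG.b0.rot.rot.congr fun c a b => by rw [f1, Finset.sum_singleton]
    · exact hG.b1.rot.rot.congr fun c a b => by rw [f2, Finset.sum_singleton]
    · exact hG.R2.rot.rot.congr fun c a b => by rw [f4]
    · intro j hj κ
      have hκ : κ + 2 + 2 + 2 = κ := by
        revert κ; decide
      fin_cases j
      · have := (hG.tr 2 (by decide) (κ + 2)).rot.rot
        rw [hκ] at this
        exact this.congr fun c a b => by
          change ∑ j ∈ univ.filter (fun j => φW j = 0), A j a b c = _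
          rw [f0, Finset.sum_singleton]
      · have := (hG.tr 3 (by decide) (κ + 2)).rot.rot
        rw [hκ] at this
        exact this.congr fun c a b => by
          change ∑ j ∈ univ.filter (fun j => φW j = 1), A j a b c = _
          rw [f1, Finset.sum_singleton]
      · have := (hG.tr 4 (by decide) (κ + 2)).rot.rot
        rw [hκ] at this
        exact this.congr fun c a b => by
          change ∑ j ∈ univ.filter (fun j => φW j = 2), A j a b c = _
          rw [f2, Finset.sum_singleton]
      · have := (hG.tr 6 (by decide) (κ + 2)).rot.rot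
        rw [hκ] at this
        exact this.congr fun c a b => by
          change ∑ j ∈ univ.filter (fun j => φW j = 3), A j a b c = _
          rw [f3, Finset.sum_singleton]
      · exact absurd rfl hj
  have hs4 : ∀ S : Finset (Fin 8), S.card ≤ 4 → ∑ j ∈ S, wtt W m j ≤ 4 * m := by
    intro S hS
    calc ∑ j ∈ S, wtt W m j ≤ S.card * m := by
          have := Finset.sum_le_card_nsmul S (wtt W m) m fun j _ => hWm j
          simpa using this
      _ ≤ 4 * m := Nat.mul_le_mul_right _ hS
  have rX := class_words φX {1, 2, 3, 7} (by decide) A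
    (class_all hn hCX (Wt := fun i => ∑ j ∈ univ.filter (fun j => φX j = i), wtt W m j) hw
      (fun i => hs4 _ (by revert i; decide)) (by
        intro j hj
        fin_cases j
        · change ∑ j ∈ univ.filter (fun j => φX j = 0), wtt W m j = W 0
          rw [show (univ.filter fun j => φX j = 0) = {0} by decide, Finset.sum_singleton]
          rfl
        · change ∑ j ∈ univ.filter (fun j => φX j = 1), wtt W m j = W 4
          rw [show (univ.filter fun j => φX j = 1) = {4} by decide, Finset.sum_singleton]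
          rfl
        · change ∑ j ∈ univ.filter (fun j => φX j = 2), wtt W m j = W 5
          rw [show (univ.filter fun j => φX j = 2) = {5} by decide, Finset.sum_singleton]
          rfl
        · change ∑ j ∈ univ.filter (fun j => φX j = 3), wtt W m j = W 6
          rw [show (univ.filter fun j => φX j = 3) = {6} by decide, Finset.sum_singleton]
          rfl
        · exact absurd rfl hj) (word_triv5 htriv φX) hX c2 c1)
  have rY := class_words φY {0, 2, 4, 7} (by decide) (fun j b c a => A j a b c)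
    (class_all hn hCY (Wt := fun i => ∑ j ∈ univ.filter (fun j => φY j = i), wtt W m j) hw
      (fun i => hs4 _ (by revert i; decide)) (by
        intro j hj
        fin_cases j
        · change ∑ j ∈ univ.filter (fun j => φY j = 0), wtt W m j = W 1
          rw [show (univ.filter fun j => φY j = 0) = {1} by decide, Finset.sum_singleton]
          rfl
        · change ∑ j ∈ univ.filter (fun j => φY j = 1), wtt W m j = W 5
          rw [show (univ.filter fun j => φY j = 1) = {5} by decide, Finset.sum_singleton]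
          rfl
        · change ∑ j ∈ univ.filter (fun j => φY j = 2), wtt W m j = W 3
          rw [show (univ.filter fun j => φY j = 2) = {3} by decide, Finset.sum_singleton]
          rfl
        · change ∑ j ∈ univ.filter (fun j => φY j = 3), wtt W m j = W 6
          rw [show (univ.filter fun j => φY j = 3) = {6} by decide, Finset.sum_singleton]
          rfl
        · exact absurd rfl hj)
      (word_triv5 (A := fun j b c a => A j a b c) (fun v => (htriv v).rot) φY) hY c0 c2)
  have rZ := class_words φW {0, 1, 5, 7} (by decide) (fun j c a b => A j a b c)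
    (class_all hn hCZ (Wt := fun i => ∑ j ∈ univ.filter (fun j => φW j = i), wtt W m j) hw
      (fun i => hs4 _ (by revert i; decide)) (by
        intro j hj
        fin_cases j
        · change ∑ j ∈ univ.filter (fun j => φW j = 0), wtt W m j = W 2
          rw [show (univ.filter fun j => φW j = 0) = {2} by decide, Finset.sum_singleton]
          rfl
        · change ∑ j ∈ univ.filter (fun j => φW j = 1), wtt W m j = W 3
          rw [show (univ.filter fun j => φW j = 1) = {3} by decide, Finset.sum_singleton]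
          rfl
        · change ∑ j ∈ univ.filter (fun j => φW j = 2), wtt W m j = W 4
          rw [show (univ.filter fun j => φW j = 2) = {4} by decide, Finset.sum_singleton]
          rfl
        · change ∑ j ∈ univ.filter (fun j => φW j = 3), wtt W m j = W 6
          rw [show (univ.filter fun j => φW j = 3) = {6} by decide, Finset.sum_singleton]
          rfl
        · exact absurd rfl hj)
      (word_triv5 (A := fun j c a b => A j a b c) (fun v => (htriv v).rot') φW) hZ c1 c0)
  have rY' := rY.rot'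
  have rZ' := rZ.rot
  -- the other words
  set Sm : Finset (Fin 8) := univ.filter fun j => j ≠ 7 ∧ 32 ^ e1 * W j ≤ m with hSm
  set pX : (Fin N → Fin 8) → Prop := fun v => E * cnt {1, 2, 3, 7} v ≤ N with hpX
  set pY : (Fin N → Fin 8) → Prop := fun v => E * cnt {0, 2, 4, 7} v ≤ N with hpY
  set pZ : (Fin N → Fin 8) → Prop := fun v => E * cnt {0, 1, 5, 7} v ≤ N with hpZ
  set Ms : Finset (Fin N → Fin 8) := univ.filter fun v => (¬ pX v ∧ ¬ pY v ∧ ¬ pZ v) ∨
    (pX v ∧ pY v) ∨ (pX v ∧ pZ v) ∨ (pY v ∧ pZ v) with hMs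
  set cf : (Fin N → Fin 8) → K := fun v => 1 - (if pX v then 1 else 0) - (if pY v then 1 else 0) -
    (if pZ v then 1 else 0) with hcf
  have hsplit : ∀ f : (Fin N → Fin 8) → K, ∑ v, f v =
      ∑ v ∈ univ.filter pX, f v + (∑ v ∈ univ.filter pY, f v + (∑ v ∈ univ.filter pZ, f v +
        ∑ v ∈ Ms, cf v * f v)) :=
    fun f => signed_split pX pY pZ f
  have hmid : ∀ v : Fin N → Fin 8, ¬ pX v → ¬ pY v → ¬ pZ v → ¬ (N ≤ e1 * cnt Sm v) →
      ∃ ρ, Rk (fun (x : Fin N → α) (y : Fin N → β) (z : Fin N → γ) =>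
        ∏ t, A (v t) (x t) (y t) (z t)) ρ ∧
      ρ * 8 ^ N ≤ k0 * m ^ N := by
    intro v h1 h2 h3 h4
    exact mid_word hG Sm (by simp [hSm]) hWX N (B * N) C' e1 E hn.he1 hn.m1 hn.m2 v
      (not_le.1 h1) (not_le.1 h2) (not_le.1 h3) (not_le.1 h4)
  choose! ρ hρ1 hρ2 using hmid
  set f : (Fin N → Fin 8) → ℕ := fun v => ∏ t, wtt W m (v t) with hf
  set pM : (Fin N → Fin 8) → Prop := fun v => ¬ pX v ∧ ¬ pY v ∧ ¬ pZ v ∧
    ¬ (N ≤ e1 * cnt Sm v) with hpM
  set r : (Fin N → Fin 8) → ℕ := fun v => (if pM v then ρ v else 0) +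
    k0 * ((if N ≤ e1 * cnt Sm v then f v else 0) +
      ((if e2 * cnt {0, 1, 2, 3, 4, 7} v ≤ N then f v else 0) +
        ((if e2 * cnt {0, 1, 2, 3, 5, 7} v ≤ N then f v else 0) +
          (if e2 * cnt {0, 1, 2, 4, 5, 7} v ≤ N then f v else 0)))) with hr
  have hle : ∀ (v : Fin N → Fin 8) (q : ℕ), f v ≤ q →
      k0 * f v ≤ (if pM v then ρ v else 0) + k0 * q := fun v q hq =>
    (Nat.mul_le_mul_left _ hq).trans (Nat.le_add_left _ _)
  have two : ∀ (S S' U : Finset (Fin 8)) (v : Fin N → Fin 8), U ⊆ S ∪ S' → E * cnt S v ≤ N →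
      E * cnt S' v ≤ N → e2 * cnt U v ≤ N := by
    intro S S' U v hU h1 h2
    have h3 := cnt_union S S' U hU v
    have h4 : 2 * e2 * cnt U v ≤ E * (cnt S v + cnt S' v) := Nat.mul_le_mul hn.hE h3
    rw [mul_add] at h4
    have h5 : 2 * (e2 * cnt U v) ≤ 2 * N := by
      calc 2 * (e2 * cnt U v) = 2 * e2 * cnt U v := by ring
        _ ≤ _ := h4
        _ ≤ 2 * N := by omega
    omega
  have hMr : ∀ v ∈ Ms, Rk (fun (x : Fin N → α) (y : Fin N → β) (z : Fin N → γ) =>
        cf v * ∏ t, A (v t) (x t) (y t) (z t)) (r v) := by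
    intro v hv
    refine Rk.smul ?_ _
    rcases (Finset.mem_filter.1 hv).2 with h1 | h1 | h1 | h1
    · by_cases h2 : N ≤ e1 * cnt Sm v
      · refine (htriv v).mono (hle v _ ?_)
        rw [if_pos h2]
        omega
      · refine (hρ1 v h1.1 h1.2.1 h1.2.2 h2).mono ?_
        have : pM v := ⟨h1.1, h1.2.1, h1.2.2, h2⟩
        simp only [hr, if_pos this]
        omega
    · have := two _ _ {0, 1, 2, 3, 4, 7} v (by decide) h1.1 h1.2
      refine (htriv v).mono (hle v _ ?_)
      rw [if_pos this]
      omega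
    · have := two _ _ {0, 1, 2, 3, 5, 7} v (by decide) h1.1 h1.2
      refine (htriv v).mono (hle v _ ?_)
      rw [if_pos this]
      omega
    · have := two _ _ {0, 1, 2, 4, 5, 7} v (by decide) h1.1 h1.2
      refine (htriv v).mono (hle v _ ?_)
      rw [if_pos this]
      omega
  have hrest := Rk.sum Ms (fun v (x : Fin N → α) (y : Fin N → β) (z : Fin N → γ) =>
    cf v * ∏ t, A (v t) (x t) (y t) (z t)) r hMr
  have hρsum : ∑ v ∈ univ.filter pM, ρ v ≤ k0 * m ^ N := by
    have h8 : 0 < 8 ^ N := by positivity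
    refine Nat.le_of_mul_le_mul_right ?_ h8
    rw [Finset.sum_mul]
    have hRc : (univ.filter pM).card ≤ 8 ^ N := by
      calc (univ.filter pM).card ≤ Fintype.card (Fin N → Fin 8) := Finset.card_le_univ _
        _ = 8 ^ N := by simp
    calc ∑ v ∈ univ.filter pM, ρ v * 8 ^ N
        ≤ ∑ v ∈ univ.filter pM, k0 * m ^ N := by
          refine Finset.sum_le_sum fun v hv => ?_
          have h1 : pM v := (Finset.mem_filter.1 hv).2
          exact hρ2 v h1.1 h1.2.1 h1.2.2.1 h1.2.2.2
      _ = (univ.filter pM).card * (k0 * m ^ N) := by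
          rw [Finset.sum_const, smul_eq_mul]
      _ ≤ 8 ^ N * (k0 * m ^ N) := Nat.mul_le_mul_right _ hRc
      _ = _ := by ring
  have hout : ∀ O : Finset (Fin 8), ∑ j ∈ O, wtt W m j ≤ 32 * m := by
    intro O
    calc ∑ j ∈ O, wtt W m j ≤ ∑ j : Fin 8, wtt W m j :=
          Finset.sum_le_sum_of_subset (Finset.subset_univ _)
      _ ≤ ∑ _j : Fin 8, m := Finset.sum_le_sum fun j _ => hWm j
      _ = 8 * m := by
          rw [Finset.sum_const, Finset.card_univ, Fintype.card_fin, smul_eq_mul]
      _ ≤ _ := by omega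
  have y1 : ∑ v ∈ univ.filter (fun v : Fin N → Fin 8 => N ≤ e1 * cnt Sm v), f v ≤ m ^ N := by
    refine exc_small (K1 := 4) (by norm_num) (by norm_num) (wtt W m) _
      (fun j => (hWm j).trans (by omega)) ?_
    intro j hj
    obtain ⟨_, h1, h2⟩ := Finset.mem_filter.1 hj
    have : wtt W m j = W j := by simp [wtt, h1]
    rw [this]
    exact h2
  have y2 : ∑ v ∈ univ.filter (fun v : Fin N → Fin 8 => e2 * cnt {0, 1, 2, 3, 4, 7} v ≤ N),
      f v ≤ m ^ N := by
    refine exc_in (R := 32) hn.hh (by norm_num) (wtt W m) _ ?_ (hout _) hn.he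
    have : (univ.filter fun j : Fin 8 => j ∉ ({0, 1, 2, 3, 4, 7} : Finset (Fin 8))) = {5, 6} := by
      decide
    rw [this, Finset.sum_pair (by decide)]
    exact c2
  have y3 : ∑ v ∈ univ.filter (fun v : Fin N → Fin 8 => e2 * cnt {0, 1, 2, 3, 5, 7} v ≤ N),
      f v ≤ m ^ N := by
    refine exc_in (R := 32) hn.hh (by norm_num) (wtt W m) _ ?_ (hout _) hn.he
    have : (univ.filter fun j : Fin 8 => j ∉ ({0, 1, 2, 3, 5, 7} : Finset (Fin 8))) = {4, 6} := by
      decide
    rw [this, Finset.sum_pair (by decide)]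
    exact c1
  have y4 : ∑ v ∈ univ.filter (fun v : Fin N → Fin 8 => e2 * cnt {0, 1, 2, 4, 5, 7} v ≤ N),
      f v ≤ m ^ N := by
    refine exc_in (R := 32) hn.hh (by norm_num) (wtt W m) _ ?_ (hout _) hn.he
    have : (univ.filter fun j : Fin 8 => j ∉ ({0, 1, 2, 4, 5, 7} : Finset (Fin 8))) = {3, 6} := by
      decide
    rw [this, Finset.sum_pair (by decide)]
    exact c0
  have hrsum : ∑ v ∈ Ms, r v ≤ k0 * m ^ N + k0 * (4 * m ^ N) := by
    calc ∑ v ∈ Ms, r v ≤ ∑ v, r v := Finset.sum_le_sum_of_subset (Finset.filter_subset _ _)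
      _ = ∑ v ∈ univ.filter pM, ρ v +
          k0 * (∑ v ∈ univ.filter (fun v : Fin N → Fin 8 => N ≤ e1 * cnt Sm v), f v +
            (∑ v ∈ univ.filter (fun v : Fin N → Fin 8 => e2 * cnt {0, 1, 2, 3, 4, 7} v ≤ N), f v +
              (∑ v ∈ univ.filter
                  (fun v : Fin N → Fin 8 => e2 * cnt {0, 1, 2, 3, 5, 7} v ≤ N), f v +
                ∑ v ∈ univ.filter
                  (fun v : Fin N → Fin 8 => e2 * cnt {0, 1, 2, 4, 5, 7} v ≤ N), f v))) := by
          simp only [hr]
          rw [Finset.sum_add_distrib, ← Finset.mul_sum, Finset.sum_add_distrib,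
            Finset.sum_add_distrib, Finset.sum_add_distrib, ← Finset.sum_filter,
            ← Finset.sum_filter, ← Finset.sum_filter, ← Finset.sum_filter, ← Finset.sum_filter]
      _ ≤ k0 * m ^ N + k0 * (m ^ N + (m ^ N + (m ^ N + m ^ N))) := by gcongr
      _ = _ := by ring
  refine ((rX.add (rY'.add (rZ'.add hrest))).mono ?_).congr fun x y z => ?_
  · calc (2 * QQ M + 2 * C + 3 * k0) * m ^ N + ((2 * QQ M + 2 * C + 3 * k0) * m ^ N +
          ((2 * QQ M + 2 * C + 3 * k0) * m ^ N + ∑ v ∈ Ms, r v))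
        ≤ (2 * QQ M + 2 * C + 3 * k0) * m ^ N + ((2 * QQ M + 2 * C + 3 * k0) * m ^ N +
          ((2 * QQ M + 2 * C + 3 * k0) * m ^ N + (k0 * m ^ N + k0 * (4 * m ^ N)))) := by
          gcongr
      _ = _ := by ring
  · have e1 : ∏ t, T (x t) (y t) (z t) = ∑ v : Fin N → Fin 8, ∏ t, A (v t) (x t) (y t) (z t) := by
      rw [Finset.prod_congr rfl fun t _ => hT (x t) (y t) (z t), Finset.prod_univ_sum,
        Fintype.piFinset_univ]
    rw [e1, hsplit]

end Pool.Agent.TH671.SH
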