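import Mathlib
import Pool.Agent.TH671.SH.Master
import Pool.Agent.W329.AR.Arank

/-!
# The constants
-/

set_option autoImplicit false
set_option linter.unusedSectionVars false

open Finset

namespace Pool.Agent.TH671.SH

open Pool.Agent.W329.AR Pool.Agent.TH671.SG

theorem bern (a n : ℕ) : (a + n) * a ^ n ≤ a * (a + 1) ^ n := by
  induction n with
  | zero => simp
  | succ n ih =>
    calc (a + (n + 1)) * a ^ (n + 1) = (a * a + a * n + a) * a ^ n := by ring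
      _ ≤ (a + 1) * ((a + n) * a ^ n) := by
          have : (a * a + a * n + a) * a ^ n + n * a ^ n = (a + 1) * ((a + n) * a ^ n) := by ring
          omega
      _ ≤ (a + 1) * (a * (a + 1) ^ n) := Nat.mul_le_mul_left _ ih
      _ = _ := by ring

theorem bern' (a r : ℕ) (ha : 1 ≤ a) : r * a ^ (a * r) ≤ (a + 1) ^ (a * r) := by
  have h1 := bern a (a * r)
  refine Nat.le_of_mul_le_mul_left ?_ ha
  calc a * (r * a ^ (a * r)) = a * r * a ^ (a * r) := by ring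
    _ ≤ (a + a * r) * a ^ (a * r) := Nat.mul_le_mul_right _ (Nat.le_add_left _ _)
    _ ≤ _ := h1

theorem numbers (h : ℕ) (hh : 1 ≤ h) : ∃ D : ℕ, 1 ≤ D ∧ ∀ σ m z : ℕ, 1 ≤ σ →
    D * σ ≤ m → z ^ D * σ ≤ m ^ (D + 1) → ∃ e1 e2 E d M C B C' X : ℕ, ∀ N : ℕ,
      Num σ m z N h e1 e2 E d (M * N) C B C' X := by
  obtain ⟨a, ha⟩ : ∃ a, 2 * h = a + 1 := ⟨2 * h - 1, by omega⟩
  have ha1 : 1 ≤ a := by omega
  obtain ⟨e2, he2⟩ : ∃ e2 : ℕ, e2 = a * (2 * h * 32) := ⟨_, rfl⟩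
  have he2' : 1 ≤ e2 := by
    rw [he2]
    exact Nat.mul_pos ha1 (by positivity)
  obtain ⟨X0, hX0⟩ : ∃ X0 : ℕ, X0 = 400000 := ⟨_, rfl⟩
  have hX2 : 2 ≤ X0 := by rw [hX0]; norm_num
  have hXp : 0 < X0 := by omega
  obtain ⟨Y, hY⟩ : ∃ Y : ℕ, Y = X0 ^ (8 * e2) := ⟨_, rfl⟩
  have hY2 : 2 ≤ Y := by
    rw [hY]
    calc 2 ≤ X0 := hX2
      _ = X0 ^ 1 := (pow_one _).symm
      _ ≤ _ := Nat.pow_le_pow_right hXp (by omega)
  have hY0 : 0 < Y := by omega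
  obtain ⟨E, hE⟩ : ∃ E : ℕ, E = 480 * e2 := ⟨_, rfl⟩
  have hE1 : 1 ≤ E := by omega
  have hEY : Y ^ 6 ≤ 4 ^ E := by
    calc Y ^ 6 = X0 ^ (48 * e2) := by rw [hY, ← pow_mul]; congr 1; ring
      _ ≤ (4 ^ 10) ^ (48 * e2) := Nat.pow_le_pow_left (by rw [hX0]; norm_num) _
      _ = 4 ^ E := by rw [← pow_mul, hE]; congr 1; ring
  obtain ⟨e1, he1⟩ : ∃ e1 : ℕ, e1 = 2 * E := ⟨_, rfl⟩
  obtain ⟨t0, ht0⟩ : ∃ t0 : ℕ, t0 = 32 ^ e1 := ⟨_, rfl⟩
  have ht0' : 0 < t0 := by rw [ht0]; positivity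
  obtain ⟨R1, hR1⟩ : ∃ R1 : ℕ, R1 = 2 * t0 := ⟨_, rfl⟩
  have hR0 : 1 ≤ R1 := by omega
  obtain ⟨Y2, hY2'⟩ : ∃ Y2 : ℕ, Y2 = X0 ^ (6 * E) := ⟨_, rfl⟩
  have hY22 : 4 ≤ Y2 := by
    rw [hY2']
    calc 4 ≤ X0 := by rw [hX0]; norm_num
      _ = X0 ^ 1 := (pow_one _).symm
      _ ≤ _ := Nat.pow_le_pow_right hXp (by omega)
  have hY20 : 0 < Y2 := by omega
  set D := t0 * Y ^ R1 * Y2 ^ 5 * (2 * Y2 + 1) with hD
  have hYR : 0 < Y ^ R1 := by positivity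
  have hD1 : 1 ≤ D := Nat.mul_pos (Nat.mul_pos (Nat.mul_pos ht0' hYR) (by positivity)) (by omega)
  refine ⟨D, hD1, fun σ m z hσ hσm hz => ?_⟩
  -- the number `d`
  set d := m / (σ * t0) with hd
  have hσt : 0 < σ * t0 := Nat.mul_pos hσ ht0'
  have hdm : d * (σ * t0) ≤ m := Nat.div_mul_le_self _ _
  have hYd : Y ^ R1 ≤ d := by
    rw [hd, Nat.le_div_iff_mul_le hσt]
    calc Y ^ R1 * (σ * t0) = (t0 * Y ^ R1 * 1 * 1) * σ := by ring
      _ ≤ (t0 * Y ^ R1 * Y2 ^ 5 * (2 * Y2 + 1)) * σ := by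
          gcongr
          · exact Nat.one_le_pow _ _ hY20
          · omega
      _ ≤ m := hσm
  have hd1 : 1 ≤ d := le_trans hYR hYd
  have hmd : m ≤ R1 * (d * σ) := by
    have h1 := Nat.lt_div_mul_add (a := m) (b := σ * t0) hσt
    rw [← hd] at h1
    have h2 : σ * t0 ≤ d * (σ * t0) := Nat.le_mul_of_pos_left _ hd1
    calc m ≤ d * (σ * t0) + σ * t0 := h1.le
      _ ≤ d * (σ * t0) + d * (σ * t0) := Nat.add_le_add_left h2 _
      _ = _ := by rw [hR1]; ring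
  set B := Nat.log Y d with hB
  have hBl : Y ^ B ≤ d := Nat.pow_log_le_self _ (by omega)
  have hBu : d < Y ^ (B + 1) := Nat.lt_pow_succ_log_self (by omega) d
  have hRB : R1 ≤ B := by
    rw [hB]
    exact Nat.le_log_of_pow_le (by omega) hYd
  have hRY : R1 ≤ Y ^ B := by
    calc R1 ≤ B := hRB
      _ ≤ 2 ^ B := Nat.lt_two_pow_self.le
      _ ≤ Y ^ B := Nat.pow_le_pow_left hY2 _
  -- the number `q`
  set q := m / σ with hq
  have hq1 : D ≤ q := by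
    rw [hq, Nat.le_div_iff_mul_le hσ]
    exact hσm
  have hqm : q * σ ≤ m := Nat.div_mul_le_self _ _
  have hq0 : 1 ≤ q := le_trans hD1 hq1
  have hmq : m ≤ 2 * q * σ := by
    have h1 := Nat.lt_div_mul_add (a := m) (b := σ) hσ
    rw [← hq] at h1
    have h2 : σ ≤ q * σ := Nat.le_mul_of_pos_left _ hq0
    nlinarith
  have hqd : q ≤ R1 * d := by
    have h1 : q * σ ≤ R1 * d * σ := by
      calc q * σ ≤ m := hqm
        _ ≤ R1 * (d * σ) := hmd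
        _ = _ := by ring
    exact Nat.le_of_mul_le_mul_right h1 hσ
  set L := Nat.log Y2 q with hL
  have hLl : Y2 ^ L ≤ q := Nat.pow_log_le_self _ (by omega)
  have hLu : q < Y2 ^ (L + 1) := Nat.lt_pow_succ_log_self (by omega) q
  have hL5 : 5 ≤ L := by
    rw [hL]
    refine Nat.le_log_of_pow_le (by omega) (le_trans ?_ hq1)
    calc Y2 ^ 5 = 1 * 1 * Y2 ^ 5 * 1 := by ring
      _ ≤ t0 * Y ^ R1 * Y2 ^ 5 * (2 * Y2 + 1) := by
          gcongr
          · exact ht0'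
          · exact hYR
          · omega
  obtain ⟨B2, hB2⟩ : ∃ B2, L = B2 + 1 := ⟨L - 1, by omega⟩
  have hB24 : 4 ≤ B2 := by omega
  have hmpos : 0 < m := lt_of_lt_of_le (Nat.mul_pos hD1 hσ) hσm
  -- the bound for `z`
  have h8z : 8 * z ≤ 4 ^ B2 * m := by
    have hDb : 2 * Y2 + 1 ≤ D := by
      calc 2 * Y2 + 1 = 1 * 1 * 1 * (2 * Y2 + 1) := by ring
        _ ≤ t0 * Y ^ R1 * Y2 ^ 5 * (2 * Y2 + 1) := by
          gcongr
          · exact ht0'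
          · exact hYR
          · exact Nat.one_le_pow _ _ hY20
    have hzD : z ^ D ≤ 2 * Y2 ^ (L + 1) * m ^ D := by
      have h1 : z ^ D * σ ≤ (2 * Y2 ^ (L + 1) * m ^ D) * σ := by
        calc z ^ D * σ ≤ m ^ (D + 1) := hz
          _ = m ^ D * m := pow_succ _ _
          _ ≤ m ^ D * (2 * q * σ) := Nat.mul_le_mul_left _ hmq
          _ ≤ m ^ D * (2 * Y2 ^ (L + 1) * σ) := by gcongr
          _ = _ := by ring
      exact Nat.le_of_mul_le_mul_right h1 hσ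
    have hnum : 8 ^ D * (2 * Y2 ^ (L + 1)) ≤ (4 ^ B2) ^ D := by
      calc 8 ^ D * (2 * Y2 ^ (L + 1)) ≤ 8 ^ D * (2 * (2 ^ Y2) ^ (L + 1)) := by
            gcongr
            exact Nat.lt_two_pow_self.le
        _ = 2 ^ (3 * D + (1 + Y2 * (L + 1))) := by
            rw [← pow_mul, pow_add, pow_mul 2 3 D, pow_add]
            norm_num
        _ ≤ 2 ^ (2 * B2 * D) := by
            refine Nat.pow_le_pow_right (by norm_num) ?_
            rw [hB2]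
            have h1 : (2 * Y2 + 1) * (B2 + 1) ≤ D * (B2 + 1) := Nat.mul_le_mul_right _ hDb
            have h2 : D * 4 ≤ D * B2 := Nat.mul_le_mul_left _ hB24
            have h3 : Y2 * 4 ≤ Y2 * B2 := Nat.mul_le_mul_left _ hB24
            nlinarith
        _ = _ := by
            rw [show 2 * B2 * D = 2 * (B2 * D) by ring, pow_mul, pow_mul]
            norm_num
    have h3 : (8 * z) ^ D ≤ (4 ^ B2 * m) ^ D := by
      rw [mul_pow, mul_pow]
      calc 8 ^ D * z ^ D ≤ 8 ^ D * (2 * Y2 ^ (L + 1) * m ^ D) := Nat.mul_le_mul_left _ hzD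
        _ = 8 ^ D * (2 * Y2 ^ (L + 1)) * m ^ D := by ring
        _ ≤ _ := Nat.mul_le_mul_right _ hnum
    exact (Nat.pow_le_pow_iff_left (by omega)).1 h3
  have h8m : 8 * m ≤ 4 ^ B2 * m := by
    refine Nat.mul_le_mul_right _ ?_
    calc 8 ≤ 4 ^ 4 := by norm_num
      _ ≤ 4 ^ B2 := Nat.pow_le_pow_right (by norm_num) hB24
  have h8X : 8 * max m z ≤ 4 ^ B2 * m := by
    rcases max_cases m z with ⟨h1, _⟩ | ⟨h1, _⟩ <;> rw [h1] <;> assumption
  have hcore : ∀ n k e : ℕ, k ≤ n → e ≤ 6 * E → n ≤ e * (k + 1) →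
      8 ^ n * 10 ^ (5 * (B2 * n)) * (σ ^ k * max m z ^ (n - k)) ≤ q * m ^ n := by
    intro n k e hkn he hn
    have hmX : m ≤ max m z := le_max_left _ _
    have hmk : 0 < m ^ k := by positivity
    have hXb : (X0 : ℕ) ^ ((B2 + 1) * n) ≤ q ^ (k + 1) := by
      calc X0 ^ ((B2 + 1) * n) ≤ X0 ^ ((B2 + 1) * (6 * E * (k + 1))) := by
            refine Nat.pow_le_pow_right hXp (Nat.mul_le_mul_left _ ?_)
            exact hn.trans (Nat.mul_le_mul_right _ he)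
        _ = (Y2 ^ L) ^ (k + 1) := by
            rw [hY2', ← pow_mul, ← pow_mul, hB2]
            congr 1
            ring
        _ ≤ q ^ (k + 1) := Nat.pow_le_pow_left hLl _
    refine Nat.le_of_mul_le_mul_right ?_ hmk
    calc 8 ^ n * 10 ^ (5 * (B2 * n)) * (σ ^ k * max m z ^ (n - k)) * m ^ k
        ≤ 8 ^ n * 10 ^ (5 * (B2 * n)) * (σ ^ k * max m z ^ (n - k)) * max m z ^ k := by gcongr
      _ = 10 ^ (5 * (B2 * n)) * σ ^ k * (8 ^ n * (max m z ^ (n - k) * max m z ^ k)) := by ring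
      _ = 10 ^ (5 * (B2 * n)) * σ ^ k * (8 * max m z) ^ n := by
          rw [← pow_add, Nat.sub_add_cancel hkn, mul_pow]
      _ ≤ 10 ^ (5 * (B2 * n)) * σ ^ k * (4 ^ B2 * m) ^ n := by gcongr
      _ = (10 ^ (5 * (B2 * n)) * 4 ^ (B2 * n)) * σ ^ k * m ^ n := by
          rw [mul_pow, ← pow_mul]
          ring
      _ = X0 ^ (B2 * n) * σ ^ k * m ^ n := by
          congr 2
          rw [pow_mul, ← mul_pow, hX0]
          norm_num
      _ ≤ X0 ^ ((B2 + 1) * n) * σ ^ k * m ^ n := by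
          gcongr
          omega
      _ ≤ q ^ (k + 1) * σ ^ k * m ^ n := by gcongr
      _ = q * (q * σ) ^ k * m ^ n := by rw [mul_pow, pow_succ]; ring
      _ ≤ q * m ^ k * m ^ n := by gcongr
      _ = _ := by ring
  refine ⟨e1, e2, E, d, B, d, B2, q, max m z, fun N => ?_⟩
  refine ⟨hh, hd1, he1.ge, by omega, ?_, ?_, le_max_left _ _, le_max_right _ _, ?_, ?_, ?_, ?_,
    ?_, ?_⟩
  · calc σ * d * 32 ^ e1 = d * (σ * t0) := by rw [ht0]; ring
      _ ≤ m := hdm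
  · have h1 := bern' a (2 * h * 32) ha1
    rw [← he2] at h1
    have h2 : 2 * h - 1 = a := by omega
    rw [h2]
    rw [← ha] at h1
    exact h1
  · intro g hg
    have h4X : 4 * max m z ≤ (4 ^ E) ^ B * σ := by
      have h42 : 4 ^ B2 ≤ R1 * d := by
        calc 4 ^ B2 ≤ Y2 ^ B2 := Nat.pow_le_pow_left hY22 _
          _ ≤ Y2 ^ L := Nat.pow_le_pow_right hY20 (by omega)
          _ ≤ q := hLl
          _ ≤ _ := hqd
      calc 4 * max m z ≤ 4 ^ B2 * m := by omega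
        _ ≤ (R1 * d) * (R1 * (d * σ)) := Nat.mul_le_mul h42 hmd
        _ = (R1 * d) * (R1 * d) * σ := by ring
        _ ≤ (Y ^ B * Y ^ (B + 1)) * (Y ^ B * Y ^ (B + 1)) * σ := by
            have : R1 * d ≤ Y ^ B * Y ^ (B + 1) := Nat.mul_le_mul hRY hBu.le
            gcongr
        _ = Y ^ (4 * B + 2) * σ := by
            rw [← pow_add, ← pow_add]
            congr 2
            ring
        _ ≤ Y ^ (6 * B) * σ := by
            refine Nat.mul_le_mul_right _ (Nat.pow_le_pow_right hY0 (by omega))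
        _ = (Y ^ 6) ^ B * σ := by rw [pow_mul]
        _ ≤ _ := Nat.mul_le_mul_right _ (Nat.pow_le_pow_left hEY _)
    calc (4 * max m z) ^ g ≤ ((4 ^ E) ^ B * σ) ^ g := Nat.pow_le_pow_left h4X _
      _ = 4 ^ (B * (E * g)) * σ ^ g := by
          rw [mul_pow, ← pow_mul, ← pow_mul]
          congr 2
          ring
      _ ≤ 4 ^ (B * N) * σ ^ g := by
          refine Nat.mul_le_mul_right _ (Nat.pow_le_pow_right (by norm_num) ?_)
          exact Nat.mul_le_mul_left _ hg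
  · intro k hk
    calc 10 ^ (5 * (B * N)) * 4 ^ (B * N) = X0 ^ (B * N) := by
          rw [pow_mul, ← mul_pow, hX0]
          norm_num
      _ ≤ X0 ^ (B * (8 * e2 * (k + 1))) :=
          Nat.pow_le_pow_right hXp (Nat.mul_le_mul_left _ hk)
      _ = (Y ^ B) ^ (k + 1) := by
          rw [hY, ← pow_mul, ← pow_mul]
          congr 1
          ring
      _ ≤ d ^ (k + 1) := Nat.pow_le_pow_left hBl _
      _ = d * d ^ k := by rw [pow_succ]; ring
  · calc 8 ^ N * max m z ^ N = (8 * max m z) ^ N := by rw [mul_pow]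
      _ ≤ (4 ^ B2 * m) ^ N := Nat.pow_le_pow_left h8X _
      _ = _ := by rw [mul_pow, ← pow_mul]
  · intro k hkN hk
    exact hcore N k (6 * E) hkN le_rfl hk
  · intro n _
    calc z ^ n ≤ (4 ^ B2 * m) ^ n := Nat.pow_le_pow_left (by omega) _
      _ = _ := by rw [mul_pow, ← pow_mul]
  · intro n k _ hkn hk
    have h1 := hcore n k 3 hkn (by omega) hk
    refine le_trans ?_ h1
    rw [mul_assoc (8 ^ n)]
    exact Nat.le_mul_of_pos_left _ (by positivity)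

variable {K : Type*} [CommRing K]

/-- **The bound for the ranks of the Kronecker powers.** -/
theorem rk_bound (h : ℕ) (hh : 1 ≤ h) : ∃ D : ℕ, 1 ≤ D ∧ ∀ σ m z : ℕ, 1 ≤ σ →
    D * σ ≤ m → z ^ D * σ ≤ m ^ (D + 1) →
    ∃ c : ℕ, ∀ (α : Type) (T : α → α → α → K) (A : Fin 8 → α → α → α → K)
      (W : Fin 8 → ℕ) (w : ℕ), (∀ x y z, T x y z = ∑ j, A j x y z) → Good8 σ A W w →
      W 7 ≤ z → w ≤ 3 * m + z →
      W 0 + W 4 + W 5 + W 6 + σ ≤ m → W 1 + W 5 + W 3 + W 6 + σ ≤ m →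
      W 2 + W 3 + W 4 + W 6 + σ ≤ m →
      h * (W 3 + W 6) ≤ (h - 1) * m → h * (W 4 + W 6) ≤ (h - 1) * m →
      h * (W 5 + W 6) ≤ (h - 1) * m →
      ∀ n : ℕ, Rk (kpow T (n + 1)) (c * (n + 1) ^ 3 * m ^ (n + 1)) := by
  obtain ⟨D, hD, hn⟩ := numbers h hh
  refine ⟨D, hD, fun σ m z hσ hσm hz => ?_⟩
  obtain ⟨e1, e2, E, d, M, C, B, C', X, hNum⟩ := hn σ m z hσ hσm hz
  have hQ : ∀ B n : ℕ, QQ (B * (n + 1)) ≤ 16 * (20 * B + 1) ^ 3 * (n + 1) ^ 3 := by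
    intro B n
    unfold QQ
    calc 16 * (20 * (B * (n + 1)) + 1) ^ 3 ≤ 16 * ((20 * B + 1) * (n + 1)) ^ 3 := by
          gcongr
          nlinarith
      _ = _ := by ring
  obtain ⟨q1, hq1⟩ : ∃ q1, q1 = 16 * (20 * M + 1) ^ 3 := ⟨_, rfl⟩
  obtain ⟨q2, hq2⟩ : ∃ q2, q2 = 16 * (20 * B + 1) ^ 3 := ⟨_, rfl⟩
  refine ⟨3 * (2 * q1 + 2 * C + 3 * (2 * q2 + 3 * C')) + (2 * q2 + 3 * C') +
    4 * (2 * q2 + 3 * C'), fun α T A W w hT hG hW hw hX hY hZ c0 c1 c2 n => ?_⟩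
  have hw' : w ≤ 4 * X := by
    have h1 := (hNum (n + 1)).hmX
    have h2 := (hNum (n + 1)).hzX
    omega
  refine (master (hNum (n + 1)) hT hG hW hw' hX hY hZ c0 c1 c2).mono ?_
  refine Nat.mul_le_mul_right _ ?_
  have h1 : 1 ≤ (n + 1) ^ 3 := Nat.one_le_pow _ _ (by omega)
  have hb := hQ M n
  have hb' := hQ B n
  rw [← hq1] at hb
  rw [← hq2] at hb'
  have a1 : C ≤ C * (n + 1) ^ 3 := Nat.le_mul_of_pos_right _ h1
  have a2 : C' ≤ C' * (n + 1) ^ 3 := Nat.le_mul_of_pos_right _ h1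
  calc 3 * (2 * QQ (M * (n + 1)) + 2 * C + 3 * (2 * QQ (B * (n + 1)) + 3 * C')) +
        (2 * QQ (B * (n + 1)) + 3 * C') + 4 * (2 * QQ (B * (n + 1)) + 3 * C')
      ≤ 3 * (2 * (q1 * (n + 1) ^ 3) + 2 * (C * (n + 1) ^ 3) +
          3 * (2 * (q2 * (n + 1) ^ 3) + 3 * (C' * (n + 1) ^ 3))) +
        (2 * (q2 * (n + 1) ^ 3) + 3 * (C' * (n + 1) ^ 3)) +
          4 * (2 * (q2 * (n + 1) ^ 3) + 3 * (C' * (n + 1) ^ 3)) := by gcongr
    _ = _ := by ring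

end Pool.Agent.TH671.SH
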