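import Mathlib
import Pool.Agent.TH671.SH.Numbers

/-!
# Tensors most of whose indices are simple
-/

set_option autoImplicit false
set_option linter.unusedSectionVars false

open Finset

namespace Pool.Agent.TH671.SH

open Pool.Agent.W329.AR Pool.Agent.TH671.SG

section defs

variable {ι : Type} [Fintype ι] [DecidableEq ι]

/-- `H` is a set of triples (a 3-partite hypergraph), `S1`, `S2`, `S3` are sets of indices in the
three directions such that each other index lies in at most one triple of `H` (it is simple).  For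
each two directions at most `(1 - 1 / h) m` triples have simple indices in both these directions.
The triples without simple indices have at most `w` projections to the first two coordinates and at
most `w` projections to the last two coordinates. -/
structure Spr (H : Finset (ι × ι × ι)) (S1 S2 S3 : Finset ι) (h w : ℕ) : Prop where
  s1 : ∀ e ∈ H, ∀ e' ∈ H, e.1 ∉ S1 → e.1 = e'.1 → e = e'
  s2 : ∀ e ∈ H, ∀ e' ∈ H, e.2.1 ∉ S2 → e.2.1 = e'.2.1 → e = e'
  s3 : ∀ e ∈ H, ∀ e' ∈ H, e.2.2 ∉ S3 → e.2.2 = e'.2.2 → e = e'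
  d23 : h * (H.filter fun e => e.2.1 ∉ S2 ∧ e.2.2 ∉ S3).card ≤ (h - 1) * Fintype.card ι
  d13 : h * (H.filter fun e => e.1 ∉ S1 ∧ e.2.2 ∉ S3).card ≤ (h - 1) * Fintype.card ι
  d12 : h * (H.filter fun e => e.1 ∉ S1 ∧ e.2.1 ∉ S2).card ≤ (h - 1) * Fintype.card ι
  z12 : ((H.filter fun e => e.1 ∈ S1 ∧ e.2.1 ∈ S2 ∧ e.2.2 ∈ S3).image
    fun e => (e.1, e.2.1)).card ≤ w
  z23 : ((H.filter fun e => e.1 ∈ S1 ∧ e.2.1 ∈ S2 ∧ e.2.2 ∈ S3).image fun e => e.2).card ≤ w

variable {H : Finset (ι × ι × ι)} {S1 S2 S3 : Finset ι} {h w : ℕ}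

/-- enlarging the sets of small indices -/
theorem Spr.enlarge (hs : Spr H S1 S2 S3 h w) {S1' S2' S3' : Finset ι} {σ : ℕ} (h1 : S1 ⊆ S1')
    (h2 : S2 ⊆ S2') (h3 : S3 ⊆ S3') (c1 : S1'.card = σ) (c2 : S2'.card = σ) (c3 : S3'.card = σ) :
    Spr H S1' S2' S3' h (w + 3 * σ) := by
  have e1 : (H.filter fun e => e.1 ∈ S1' ∧ e.1 ∉ S1).card ≤ σ := by
    rw [← c1]
    refine Finset.card_le_card_of_injOn (fun e => e.1) ?_ ?_
    · intro e he
      exact (Finset.mem_filter.1 he).2.1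
    · intro e he e' he' hee
      obtain ⟨q1, q2, q3⟩ := Finset.mem_filter.1 (Finset.mem_coe.1 he)
      exact hs.s1 e q1 e' (Finset.mem_filter.1 (Finset.mem_coe.1 he')).1 q3 hee
  have e2 : (H.filter fun e => e.2.1 ∈ S2' ∧ e.2.1 ∉ S2).card ≤ σ := by
    rw [← c2]
    refine Finset.card_le_card_of_injOn (fun e => e.2.1) ?_ ?_
    · intro e he
      exact (Finset.mem_filter.1 he).2.1
    · intro e he e' he' hee
      obtain ⟨q1, q2, q3⟩ := Finset.mem_filter.1 (Finset.mem_coe.1 he)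
      exact hs.s2 e q1 e' (Finset.mem_filter.1 (Finset.mem_coe.1 he')).1 q3 hee
  have e3 : (H.filter fun e => e.2.2 ∈ S3' ∧ e.2.2 ∉ S3).card ≤ σ := by
    rw [← c3]
    refine Finset.card_le_card_of_injOn (fun e => e.2.2) ?_ ?_
    · intro e he
      exact (Finset.mem_filter.1 he).2.1
    · intro e he e' he' hee
      obtain ⟨q1, q2, q3⟩ := Finset.mem_filter.1 (Finset.mem_coe.1 he)
      exact hs.s3 e q1 e' (Finset.mem_filter.1 (Finset.mem_coe.1 he')).1 q3 hee
  have hsub : (H.filter fun e => e.1 ∈ S1' ∧ e.2.1 ∈ S2' ∧ e.2.2 ∈ S3') ⊆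
      (H.filter fun e => e.1 ∈ S1 ∧ e.2.1 ∈ S2 ∧ e.2.2 ∈ S3) ∪
        ((H.filter fun e => e.1 ∈ S1' ∧ e.1 ∉ S1) ∪
          ((H.filter fun e => e.2.1 ∈ S2' ∧ e.2.1 ∉ S2) ∪
            (H.filter fun e => e.2.2 ∈ S3' ∧ e.2.2 ∉ S3))) := by
    intro e he
    obtain ⟨q1, q2, q3, q4⟩ := Finset.mem_filter.1 he
    simp only [Finset.mem_union, Finset.mem_filter]
    tauto
  have himg : ∀ (f : ι × ι × ι → ι × ι),
      ((H.filter fun e => e.1 ∈ S1 ∧ e.2.1 ∈ S2 ∧ e.2.2 ∈ S3).image f).card ≤ w →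
      ((H.filter fun e => e.1 ∈ S1' ∧ e.2.1 ∈ S2' ∧ e.2.2 ∈ S3').image f).card ≤ w + 3 * σ := by
    intro f hf
    refine (Finset.card_le_card (Finset.image_subset_image hsub)).trans ?_
    rw [Finset.image_union, Finset.image_union, Finset.image_union]
    refine (Finset.card_union_le _ _).trans ?_
    refine (Nat.add_le_add hf ((Finset.card_union_le _ _).trans
      (Nat.add_le_add (Finset.card_image_le.trans e1) ((Finset.card_union_le _ _).trans
        (Nat.add_le_add (Finset.card_image_le.trans e2)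
          (Finset.card_image_le.trans e3)))))).trans ?_
    omega
  refine ⟨fun e he e' he' hn => hs.s1 e he e' he' fun h => hn (h1 h),
    fun e he e' he' hn => hs.s2 e he e' he' fun h => hn (h2 h),
    fun e he e' he' hn => hs.s3 e he e' he' fun h => hn (h3 h), ?_, ?_, ?_,
    himg _ hs.z12, himg _ hs.z23⟩
  · refine le_trans (Nat.mul_le_mul_left _ (Finset.card_le_card ?_)) hs.d23
    intro e he
    obtain ⟨q1, q2, q3⟩ := Finset.mem_filter.1 he
    exact Finset.mem_filter.2 ⟨q1, fun h => q2 (h2 h), fun h => q3 (h3 h)⟩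
  · refine le_trans (Nat.mul_le_mul_left _ (Finset.card_le_card ?_)) hs.d13
    intro e he
    obtain ⟨q1, q2, q3⟩ := Finset.mem_filter.1 he
    exact Finset.mem_filter.2 ⟨q1, fun h => q2 (h1 h), fun h => q3 (h3 h)⟩
  · refine le_trans (Nat.mul_le_mul_left _ (Finset.card_le_card ?_)) hs.d12
    intro e he
    obtain ⟨q1, q2, q3⟩ := Finset.mem_filter.1 he
    exact Finset.mem_filter.2 ⟨q1, fun h => q2 (h1 h), fun h => q3 (h2 h)⟩

/-- the eight patterns -/
def pat (S1 S2 S3 : Finset ι) (j : Fin 8) (x y z : ι) : Prop :=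
  match j with
  | 0 => x ∉ S1 ∧ y ∈ S2 ∧ z ∈ S3
  | 1 => x ∈ S1 ∧ y ∉ S2 ∧ z ∈ S3
  | 2 => x ∈ S1 ∧ y ∈ S2 ∧ z ∉ S3
  | 3 => x ∈ S1 ∧ y ∉ S2 ∧ z ∉ S3
  | 4 => x ∉ S1 ∧ y ∈ S2 ∧ z ∉ S3
  | 5 => x ∉ S1 ∧ y ∉ S2 ∧ z ∈ S3
  | 6 => x ∉ S1 ∧ y ∉ S2 ∧ z ∉ S3
  | 7 => x ∈ S1 ∧ y ∈ S2 ∧ z ∈ S3

end defs

section ring

variable {ι : Type} [Fintype ι] [DecidableEq ι] {K : Type*} [CommRing K]

open Classical in
/-- the part of `T` given by a predicate -/
noncomputable def prt (T : ι → ι → ι → K) (p : ι → ι → ι → Prop) : ι → ι → ι → K :=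
  fun x y z => if p x y z then T x y z else 0

/-- stars with centres in the first direction -/
theorem fs2 (T : ι → ι → ι → K) (S : Finset ι) (Q : Finset (ι × ι))
    (hQS : ∀ q ∈ Q, q.1 ∈ S) (hQ : ∀ x y z, T x y z ≠ 0 → (x, y) ∈ Q) :
    FS S.card 2 T Q.card := by
  have h := FT_s (E := Q) (ς := S) (T := T) (fun q => ⟨q.1.1, hQS q.1 q.2⟩)
    (fun i x => if x = i.1 then (1 : K) else 0) (fun q y => if y = q.1.2 then (1 : K) else 0)
    (fun q z => T q.1.1 q.1.2 z) (by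
      intro x y z
      by_cases h : (x, y) ∈ Q
      · rw [Fintype.sum_eq_single (⟨(x, y), h⟩ : Q)]
        · simp
        · rintro ⟨⟨x', y'⟩, hq⟩ hne
          by_cases hx : x = x'
          · by_cases hy : y = y'
            · exact absurd (by subst hx hy; rfl) hne
            · simp [hy]
          · simp [hx]
      · have h0 : T x y z = 0 := by
          by_contra hne
          exact h (hQ x y z hne)
        rw [h0]
        symm
        refine Finset.sum_eq_zero ?_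
        rintro ⟨⟨x', y'⟩, hq⟩ _
        by_cases hx : x = x'
        · by_cases hy : y = y'
          · subst hx hy
            exact absurd hq h
          · simp [hy]
        · simp [hx])
  refine ⟨S, inferInstance, by simp, ?_⟩
  simpa using h

/-- stars with centres in the second direction -/
theorem fs0 (T : ι → ι → ι → K) (S : Finset ι) (Q : Finset (ι × ι))
    (hQS : ∀ q ∈ Q, q.2 ∈ S) (hQ : ∀ x y z, T x y z ≠ 0 → (x, y) ∈ Q) :
    FS S.card 0 T Q.card := by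
  have h := FT_p (E := Q) (ς := S) (T := T) (fun q x => if x = q.1.1 then (1 : K) else 0)
    (fun q => ⟨q.1.2, hQS q.1 q.2⟩) (fun i y => if y = i.1 then (1 : K) else 0)
    (fun q z => T q.1.1 q.1.2 z) (by
      intro x y z
      by_cases h : (x, y) ∈ Q
      · rw [Fintype.sum_eq_single (⟨(x, y), h⟩ : Q)]
        · simp
        · rintro ⟨⟨x', y'⟩, hq⟩ hne
          by_cases hx : x = x'
          · by_cases hy : y = y'
            · exact absurd (by subst hx hy; rfl) hne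
            · simp [hy]
          · simp [hx]
      · have h0 : T x y z = 0 := by
          by_contra hne
          exact h (hQ x y z hne)
        rw [h0]
        symm
        refine Finset.sum_eq_zero ?_
        rintro ⟨⟨x', y'⟩, hq⟩ _
        by_cases hx : x = x'
        · by_cases hy : y = y'
          · subst hx hy
            exact absurd hq h
          · simp [hy]
        · simp [hx])
  refine ⟨S, inferInstance, by simp, ?_⟩
  simpa using h

/-- stars with centres in the third direction -/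
theorem fs1 (T : ι → ι → ι → K) (S : Finset ι) (Q : Finset (ι × ι))
    (hQS : ∀ q ∈ Q, q.2 ∈ S) (hQ : ∀ x y z, T x y z ≠ 0 → (y, z) ∈ Q) :
    FS S.card 1 T Q.card := by
  have h := FT_q (E := Q) (ς := S) (T := T) (fun q x => T x q.1.1 q.1.2)
    (fun q => ⟨q.1.2, hQS q.1 q.2⟩) (fun q y => if y = q.1.1 then (1 : K) else 0)
    (fun i z => if z = i.1 then (1 : K) else 0) (by
      intro x y z
      by_cases h : (y, z) ∈ Q
      · rw [Fintype.sum_eq_single (⟨(y, z), h⟩ : Q)]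
        · simp
        · rintro ⟨⟨y', z'⟩, hq⟩ hne
          by_cases hy : y = y'
          · by_cases hz : z = z'
            · exact absurd (by subst hy hz; rfl) hne
            · simp [hz]
          · simp [hy]
      · have h0 : T x y z = 0 := by
          by_contra hne
          exact h (hQ x y z hne)
        rw [h0]
        symm
        refine Finset.sum_eq_zero ?_
        rintro ⟨⟨y', z'⟩, hq⟩ _
        by_cases hy : y = y'
        · by_cases hz : z = z'
          · subst hy hz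
            exact absurd hq h
          · simp [hz]
        · simp [hy])
  refine ⟨S, inferInstance, by simp, ?_⟩
  simpa using h

/-- no stars -/
theorem fs_tr (T : ι → ι → ι → K) (Q : Finset (ι × ι × ι))
    (hQ : ∀ x y z, T x y z ≠ 0 → (x, y, z) ∈ Q) (κ : Fin 3) : FS Q.card κ T Q.card := by
  have key : ∀ x y z, T x y z = ∑ q : Q, (if x = q.1.1 then T q.1.1 q.1.2.1 q.1.2.2 else 0) *
      (if y = q.1.2.1 then (1 : K) else 0) * (if z = q.1.2.2 then (1 : K) else 0) := by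
    intro x y z
    by_cases h : (x, y, z) ∈ Q
    · rw [Fintype.sum_eq_single (⟨(x, y, z), h⟩ : Q)]
      · simp
      · rintro ⟨⟨x', y', z'⟩, hq⟩ hne
        by_cases hx : x = x'
        · by_cases hy : y = y'
          · by_cases hz : z = z'
            · exact absurd (by subst hx hy hz; rfl) hne
            · simp [hz]
          · simp [hy]
        · simp [hx]
    · have h0 : T x y z = 0 := by
        by_contra hne
        exact h (hQ x y z hne)
      rw [h0]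
      symm
      refine Finset.sum_eq_zero ?_
      rintro ⟨⟨x', y', z'⟩, hq⟩ _
      by_cases hx : x = x'
      · by_cases hy : y = y'
        · by_cases hz : z = z'
          · subst hx hy hz
            exact absurd hq h
          · simp [hz]
        · simp [hy]
      · simp [hx]
  refine ⟨Q, inferInstance, by simp, ?_⟩
  have hc : Fintype.card Q = Q.card := by simp
  rw [← hc]
  fin_cases κ
  · exact FT_p (E := Q) (ς := Q) (fun q x => if x = q.1.1 then T q.1.1 q.1.2.1 q.1.2.2 else 0)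
      (fun q => q) (fun q y => if y = q.1.2.1 then (1 : K) else 0)
      (fun q z => if z = q.1.2.2 then (1 : K) else 0) key
  · exact FT_q (E := Q) (ς := Q) (fun q x => if x = q.1.1 then T q.1.1 q.1.2.1 q.1.2.2 else 0)
      (fun q => q) (fun q y => if y = q.1.2.1 then (1 : K) else 0)
      (fun q z => if z = q.1.2.2 then (1 : K) else 0) key
  · exact FT_s (E := Q) (ς := Q) (fun q => q)
      (fun q x => if x = q.1.1 then T q.1.1 q.1.2.1 q.1.2.2 else 0)
      (fun q y => if y = q.1.2.1 then (1 : K) else 0)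
      (fun q z => if z = q.1.2.2 then (1 : K) else 0) key

variable {H : Finset (ι × ι × ι)} {S1 S2 S3 : Finset ι} {h w σ : ℕ}

/-- the sizes of the parts -/
def wt (H : Finset (ι × ι × ι)) (S1 S2 S3 : Finset ι) (w : ℕ) (j : Fin 8) : ℕ :=
  match j with
  | 0 => (H.filter fun e => e.1 ∉ S1 ∧ e.2.1 ∈ S2 ∧ e.2.2 ∈ S3).card
  | 1 => (H.filter fun e => e.1 ∈ S1 ∧ e.2.1 ∉ S2 ∧ e.2.2 ∈ S3).card
  | 2 => (H.filter fun e => e.1 ∈ S1 ∧ e.2.1 ∈ S2 ∧ e.2.2 ∉ S3).card
  | 3 => (H.filter fun e => e.1 ∈ S1 ∧ e.2.1 ∉ S2 ∧ e.2.2 ∉ S3).card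
  | 4 => (H.filter fun e => e.1 ∉ S1 ∧ e.2.1 ∈ S2 ∧ e.2.2 ∉ S3).card
  | 5 => (H.filter fun e => e.1 ∉ S1 ∧ e.2.1 ∉ S2 ∧ e.2.2 ∈ S3).card
  | 6 => (H.filter fun e => e.1 ∉ S1 ∧ e.2.1 ∉ S2 ∧ e.2.2 ∉ S3).card
  | 7 => w

theorem part_sum (T : ι → ι → ι → K) (S1 S2 S3 : Finset ι) (x y z : ι) :
    T x y z = ∑ j, prt T (pat S1 S2 S3 j) x y z := by
  rw [Fin.sum_univ_eight]
  simp only [prt, pat]
  by_cases hx : x ∈ S1 <;> by_cases hy : y ∈ S2 <;> by_cases hz : z ∈ S3 <;> simp [hx, hy, hz]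

theorem part_R0 (T : ι → ι → ι → K) (S1 S2 S3 : Finset ι) (x y z : ι) :
    ∑ j ∈ ({1, 2, 3, 7} : Finset (Fin 8)), prt T (pat S1 S2 S3 j) x y z =
      prt T (fun x _ _ => x ∈ S1) x y z := by
  rw [Finset.sum_insert (by decide), Finset.sum_insert (by decide), Finset.sum_insert (by decide),
    Finset.sum_singleton]
  simp only [prt, pat]
  by_cases hx : x ∈ S1 <;> by_cases hy : y ∈ S2 <;> by_cases hz : z ∈ S3 <;> simp [hx, hy, hz]

theorem part_R1 (T : ι → ι → ι → K) (S1 S2 S3 : Finset ι) (x y z : ι) :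
    ∑ j ∈ ({0, 2, 4, 7} : Finset (Fin 8)), prt T (pat S1 S2 S3 j) x y z =
      prt T (fun _ y _ => y ∈ S2) x y z := by
  rw [Finset.sum_insert (by decide), Finset.sum_insert (by decide), Finset.sum_insert (by decide),
    Finset.sum_singleton]
  simp only [prt, pat]
  by_cases hx : x ∈ S1 <;> by_cases hy : y ∈ S2 <;> by_cases hz : z ∈ S3 <;> simp [hx, hy, hz]

theorem part_R2 (T : ι → ι → ι → K) (S1 S2 S3 : Finset ι) (x y z : ι) :
    ∑ j ∈ ({0, 1, 5, 7} : Finset (Fin 8)), prt T (pat S1 S2 S3 j) x y z =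
      prt T (fun _ _ z => z ∈ S3) x y z := by
  rw [Finset.sum_insert (by decide), Finset.sum_insert (by decide), Finset.sum_insert (by decide),
    Finset.sum_singleton]
  simp only [prt, pat]
  by_cases hx : x ∈ S1 <;> by_cases hy : y ∈ S2 <;> by_cases hz : z ∈ S3 <;> simp [hx, hy, hz]

theorem Spr.good (hs : Spr H S1 S2 S3 h w) (T : ι → ι → ι → K)
    (hT : ∀ x y z, (x, y, z) ∉ H → T x y z = 0) (c1 : S1.card = σ) (c2 : S2.card = σ)
    (c3 : S3.card = σ) {w' : ℕ}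
    (hw0 : wt H S1 S2 S3 w 1 + wt H S1 S2 S3 w 2 + wt H S1 S2 S3 w 3 + w ≤ w')
    (hw1 : wt H S1 S2 S3 w 0 + wt H S1 S2 S3 w 2 + wt H S1 S2 S3 w 4 + w ≤ w')
    (hw2 : wt H S1 S2 S3 w 0 + wt H S1 S2 S3 w 1 + wt H S1 S2 S3 w 5 + w ≤ w') :
    Good8 σ (fun j => prt T (pat S1 S2 S3 j)) (wt H S1 S2 S3 w) w' := by
  classical
  have hT' : ∀ x y z, T x y z ≠ 0 → (x, y, z) ∈ H := fun x y z h => by
    by_contra h'
    exact h (hT x y z h')
  -- general facts on the parts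
  have f2 : ∀ (p : ι → ι → ι → Prop) (q : ι × ι × ι → Prop) [DecidablePred q],
      (∀ x y z, p x y z → q (x, y, z)) → (∀ e, q e → e.1 ∈ S1) →
      FS σ 2 (prt T p) ((H.filter q).image fun e => (e.1, e.2.1)).card := by
    intro p q _ hpq hq
    rw [← c1]
    refine fs2 _ S1 _ ?_ ?_
    · intro a ha
      obtain ⟨e, he, rfl⟩ := Finset.mem_image.1 ha
      exact hq e (Finset.mem_filter.1 he).2
    · intro x y z hne
      by_cases hp : p x y z
      · simp only [prt, if_pos hp] at hne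
        exact Finset.mem_image.2 ⟨(x, y, z), Finset.mem_filter.2 ⟨hT' x y z hne, hpq _ _ _ hp⟩, rfl⟩
      · simp only [prt, if_neg hp] at hne
        exact absurd rfl hne
  have f0 : ∀ (p : ι → ι → ι → Prop) (q : ι × ι × ι → Prop) [DecidablePred q],
      (∀ x y z, p x y z → q (x, y, z)) → (∀ e, q e → e.2.1 ∈ S2) →
      FS σ 0 (prt T p) ((H.filter q).image fun e => (e.1, e.2.1)).card := by
    intro p q _ hpq hq
    rw [← c2]
    refine fs0 _ S2 _ ?_ ?_
    · intro a ha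
      obtain ⟨e, he, rfl⟩ := Finset.mem_image.1 ha
      exact hq e (Finset.mem_filter.1 he).2
    · intro x y z hne
      by_cases hp : p x y z
      · simp only [prt, if_pos hp] at hne
        exact Finset.mem_image.2 ⟨(x, y, z), Finset.mem_filter.2 ⟨hT' x y z hne, hpq _ _ _ hp⟩, rfl⟩
      · simp only [prt, if_neg hp] at hne
        exact absurd rfl hne
  have f1 : ∀ (p : ι → ι → ι → Prop) (q : ι × ι × ι → Prop) [DecidablePred q],
      (∀ x y z, p x y z → q (x, y, z)) → (∀ e, q e → e.2.2 ∈ S3) →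
      FS σ 1 (prt T p) ((H.filter q).image fun e => e.2).card := by
    intro p q _ hpq hq
    rw [← c3]
    refine fs1 _ S3 _ ?_ ?_
    · intro a ha
      obtain ⟨e, he, rfl⟩ := Finset.mem_image.1 ha
      exact hq e (Finset.mem_filter.1 he).2
    · intro x y z hne
      by_cases hp : p x y z
      · simp only [prt, if_pos hp] at hne
        exact Finset.mem_image.2 ⟨(x, y, z), Finset.mem_filter.2 ⟨hT' x y z hne, hpq _ _ _ hp⟩, rfl⟩
      · simp only [prt, if_neg hp] at hne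
        exact absurd rfl hne
  have ft : ∀ (p : ι → ι → ι → Prop) (q : ι × ι × ι → Prop) [DecidablePred q] (κ : Fin 3),
      (∀ x y z, p x y z → q (x, y, z)) → FS (H.filter q).card κ (prt T p) (H.filter q).card := by
    intro p q _ κ hpq
    refine fs_tr _ _ ?_ κ
    intro x y z hne
    by_cases hp : p x y z
    · simp only [prt, if_pos hp] at hne
      exact Finset.mem_filter.2 ⟨hT' x y z hne, hpq _ _ _ hp⟩
    · simp only [prt, if_neg hp] at hne
      exact absurd rfl hne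
  have himg : ∀ (q : ι × ι × ι → Prop) [DecidablePred q] (f : ι × ι × ι → ι × ι),
      ((H.filter q).image f).card ≤ (H.filter q).card := fun q _ f => Finset.card_image_le
  -- unions
  have hun : ∀ (f : ι × ι × ι → ι × ι) (q q1 q2 q3 q4 : ι × ι × ι → Prop) [DecidablePred q]
      [DecidablePred q1] [DecidablePred q2] [DecidablePred q3] [DecidablePred q4],
      (∀ e, q e → q1 e ∨ q2 e ∨ q3 e ∨ q4 e) → ((H.filter q4).image f).card ≤ w →
      ((H.filter q).image f).card ≤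
        (H.filter q1).card + (H.filter q2).card + (H.filter q3).card + w := by
    intro f q q1 q2 q3 q4 _ _ _ _ _ hq h4
    have hsub : (H.filter q) ⊆ (H.filter q1) ∪ ((H.filter q2) ∪ ((H.filter q3) ∪
        (H.filter q4))) := by
      intro e he
      obtain ⟨a1, a2⟩ := Finset.mem_filter.1 he
      simp only [Finset.mem_union, Finset.mem_filter]
      rcases hq e a2 with h | h | h | h
      · exact Or.inl ⟨a1, h⟩
      · exact Or.inr (Or.inl ⟨a1, h⟩)
      · exact Or.inr (Or.inr (Or.inl ⟨a1, h⟩))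
      · exact Or.inr (Or.inr (Or.inr ⟨a1, h⟩))
    refine (Finset.card_le_card (Finset.image_subset_image hsub)).trans ?_
    rw [Finset.image_union, Finset.image_union, Finset.image_union]
    have b1 := Finset.card_union_le ((H.filter q1).image f) ((H.filter q2).image f ∪
      ((H.filter q3).image f ∪ (H.filter q4).image f))
    have b2 := Finset.card_union_le ((H.filter q2).image f)
      ((H.filter q3).image f ∪ (H.filter q4).image f)
    have b3 := Finset.card_union_le ((H.filter q3).image f) ((H.filter q4).image f)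
    have g1 := himg q1 f
    have g2 := himg q2 f
    have g3 := himg q3 f
    omega
  refine ⟨?_, ?_, ?_, ?_, ?_, ?_, ?_, ?_, ?_, ?_, ?_, ?_, ?_, ?_⟩
  · exact (f0 (pat S1 S2 S3 0) (fun e => e.1 ∉ S1 ∧ e.2.1 ∈ S2 ∧ e.2.2 ∈ S3) (fun _ _ _ h => h)
      (fun _ h => h.2.1)).mono le_rfl (himg _ _)
  · exact (f1 (pat S1 S2 S3 0) (fun e => e.1 ∉ S1 ∧ e.2.1 ∈ S2 ∧ e.2.2 ∈ S3) (fun _ _ _ h => h)
      (fun _ h => h.2.2)).mono le_rfl (himg _ _)
  · exact (f1 (pat S1 S2 S3 1) (fun e => e.1 ∈ S1 ∧ e.2.1 ∉ S2 ∧ e.2.2 ∈ S3) (fun _ _ _ h => h)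
      (fun _ h => h.2.2)).mono le_rfl (himg _ _)
  · exact (f2 (pat S1 S2 S3 1) (fun e => e.1 ∈ S1 ∧ e.2.1 ∉ S2 ∧ e.2.2 ∈ S3) (fun _ _ _ h => h)
      (fun _ h => h.1)).mono le_rfl (himg _ _)
  · exact (f2 (pat S1 S2 S3 2) (fun e => e.1 ∈ S1 ∧ e.2.1 ∈ S2 ∧ e.2.2 ∉ S3) (fun _ _ _ h => h)
      (fun _ h => h.1)).mono le_rfl (himg _ _)
  · exact (f0 (pat S1 S2 S3 2) (fun e => e.1 ∈ S1 ∧ e.2.1 ∈ S2 ∧ e.2.2 ∉ S3) (fun _ _ _ h => h)
      (fun _ h => h.2.1)).mono le_rfl (himg _ _)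
  · exact (f2 (pat S1 S2 S3 3) (fun e => e.1 ∈ S1 ∧ e.2.1 ∉ S2 ∧ e.2.2 ∉ S3) (fun _ _ _ h => h)
      (fun _ h => h.1)).mono le_rfl (himg _ _)
  · exact (f0 (pat S1 S2 S3 4) (fun e => e.1 ∉ S1 ∧ e.2.1 ∈ S2 ∧ e.2.2 ∉ S3) (fun _ _ _ h => h)
      (fun _ h => h.2.1)).mono le_rfl (himg _ _)
  · exact (f1 (pat S1 S2 S3 5) (fun e => e.1 ∉ S1 ∧ e.2.1 ∉ S2 ∧ e.2.2 ∈ S3) (fun _ _ _ h => h)
      (fun _ h => h.2.2)).mono le_rfl (himg _ _)
  · intro κ
    fin_cases κ
    · exact (f0 (pat S1 S2 S3 7) (fun e => e.1 ∈ S1 ∧ e.2.1 ∈ S2 ∧ e.2.2 ∈ S3)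
        (fun _ _ _ h => h) (fun _ h => h.2.1)).mono le_rfl hs.z12
    · exact (f1 (pat S1 S2 S3 7) (fun e => e.1 ∈ S1 ∧ e.2.1 ∈ S2 ∧ e.2.2 ∈ S3)
        (fun _ _ _ h => h) (fun _ h => h.2.2)).mono le_rfl hs.z23
    · exact (f2 (pat S1 S2 S3 7) (fun e => e.1 ∈ S1 ∧ e.2.1 ∈ S2 ∧ e.2.2 ∈ S3)
        (fun _ _ _ h => h) (fun _ h => h.1)).mono le_rfl hs.z12
  · intro j hj κ
    fin_cases j
    · exact ft (pat S1 S2 S3 0) _ κ (fun _ _ _ h => h)
    · exact ft (pat S1 S2 S3 1) _ κ (fun _ _ _ h => h)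
    · exact ft (pat S1 S2 S3 2) _ κ (fun _ _ _ h => h)
    · exact ft (pat S1 S2 S3 3) _ κ (fun _ _ _ h => h)
    · exact ft (pat S1 S2 S3 4) _ κ (fun _ _ _ h => h)
    · exact ft (pat S1 S2 S3 5) _ κ (fun _ _ _ h => h)
    · exact ft (pat S1 S2 S3 6) _ κ (fun _ _ _ h => h)
    · exact absurd rfl hj
  · refine ((f2 (fun x _ _ => x ∈ S1) (fun e => e.1 ∈ S1) (fun _ _ _ h => h)
      (fun _ h => h)).mono le_rfl ?_).congr fun x y z => part_R0 T S1 S2 S3 x y z
    refine le_trans (hun _ _ (fun e => e.1 ∈ S1 ∧ e.2.1 ∉ S2 ∧ e.2.2 ∈ S3)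
      (fun e => e.1 ∈ S1 ∧ e.2.1 ∈ S2 ∧ e.2.2 ∉ S3)
      (fun e => e.1 ∈ S1 ∧ e.2.1 ∉ S2 ∧ e.2.2 ∉ S3)
      (fun e => e.1 ∈ S1 ∧ e.2.1 ∈ S2 ∧ e.2.2 ∈ S3) (fun e he => by tauto) hs.z12) hw0
  · refine ((f0 (fun _ y _ => y ∈ S2) (fun e => e.2.1 ∈ S2) (fun _ _ _ h => h)
      (fun _ h => h)).mono le_rfl ?_).congr fun x y z => part_R1 T S1 S2 S3 x y z
    refine le_trans (hun _ _ (fun e => e.1 ∉ S1 ∧ e.2.1 ∈ S2 ∧ e.2.2 ∈ S3)
      (fun e => e.1 ∈ S1 ∧ e.2.1 ∈ S2 ∧ e.2.2 ∉ S3)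
      (fun e => e.1 ∉ S1 ∧ e.2.1 ∈ S2 ∧ e.2.2 ∉ S3)
      (fun e => e.1 ∈ S1 ∧ e.2.1 ∈ S2 ∧ e.2.2 ∈ S3) (fun e he => by tauto) hs.z12) hw1
  · refine ((f1 (fun _ _ z => z ∈ S3) (fun e => e.2.2 ∈ S3) (fun _ _ _ h => h)
      (fun _ h => h)).mono le_rfl ?_).congr fun x y z => part_R2 T S1 S2 S3 x y z
    refine le_trans (hun _ _ (fun e => e.1 ∉ S1 ∧ e.2.1 ∈ S2 ∧ e.2.2 ∈ S3)
      (fun e => e.1 ∈ S1 ∧ e.2.1 ∉ S2 ∧ e.2.2 ∈ S3)
      (fun e => e.1 ∉ S1 ∧ e.2.1 ∉ S2 ∧ e.2.2 ∈ S3)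
      (fun e => e.1 ∈ S1 ∧ e.2.1 ∈ S2 ∧ e.2.2 ∈ S3) (fun e he => by tauto) hs.z23) hw2

end ring

end Pool.Agent.TH671.SH
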