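import Mathlib
import Pool.Agent.W329.AR.Restr

/-!
# Degenerations and the asymptotic rank
-/

set_option autoImplicit false
set_option linter.unusedSectionVars false

open Finset Filter Topology Polynomial

namespace Pool.Agent.TH671.SH

open Pool.Agent.W329.AR

theorem tendsto_root' (k : ℕ) (C : ℝ) (hC : 0 < C) (m : ℝ) (hm : 0 ≤ m) :
    Tendsto (fun n : ℕ => (C * ((n : ℝ) + 1) ^ k * m ^ (n + 1)) ^ ((1 : ℝ) / ((n : ℝ) + 1)))
      atTop (𝓝 m) := by
  have h1 : Tendsto (fun n : ℕ => (n : ℝ) + 1) atTop atTop :=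
    tendsto_natCast_atTop_atTop.atTop_add tendsto_const_nhds
  have h2 : Tendsto (fun n : ℕ => ((n : ℝ) + 1) ^ ((k : ℝ) / ((n : ℝ) + 1))) atTop (𝓝 1) := by
    have := (tendsto_rpow_div_mul_add k 1 0 (by norm_num)).comp h1
    refine this.congr fun n => ?_
    simp [Function.comp]
  have h3 : Tendsto (fun n : ℕ => C ^ ((1 : ℝ) / ((n : ℝ) + 1))) atTop (𝓝 1) := by
    have h4 : Tendsto (fun n : ℕ => (1 : ℝ) / ((n : ℝ) + 1)) atTop (𝓝 0) :=
      tendsto_one_div_add_atTop_nhds_zero_nat
    have h5 := (Real.continuousAt_const_rpow hC.ne' (b := 0)).tendsto.comp h4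
    simpa [Function.comp_def] using h5
  have h6 := (h3.mul h2).mul_const m
  rw [one_mul, one_mul] at h6
  refine h6.congr fun n => ?_
  have hn : (0 : ℝ) < (n : ℝ) + 1 := by positivity
  rw [Real.mul_rpow (by positivity) (by positivity), Real.mul_rpow (by positivity) (by positivity)]
  congr 1
  · congr 1
    rw [← Real.rpow_natCast, ← Real.rpow_mul hn.le]
    congr 1
    ring
  · rw [← Real.rpow_natCast, ← Real.rpow_mul hm]
    have : ((n + 1 : ℕ) : ℝ) * (1 / ((n : ℝ) + 1)) = 1 := by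
      push_cast
      field_simp
    rw [this, Real.rpow_one]

/-- Asymptotic rank from bounds up to polynomial factors. -/
theorem arank_eq' {K : Type*} [Field K] {A B C : Type*} [Fintype A] [DecidableEq A] [Fintype B]
    [Fintype C] [DecidableEq B] [DecidableEq C] {F : A → B → C → K} (h : Conc F) (k c : ℕ)
    (hF : ∀ n : ℕ, Rk (kpow F (n + 1)) (c * (n + 1) ^ k * Fintype.card A ^ (n + 1))) :
    arank F = Fintype.card A := by
  unfold arank
  apply le_antisymm
  · have ht := tendsto_root' k ((c : ℝ) + 1) (by positivity) (Fintype.card A : ℝ) (by positivity)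
    refine ge_of_tendsto' ht fun n => ?_
    refine (ciInf_le ⟨0, ?_⟩ n).trans ?_
    · rintro _ ⟨n, rfl⟩
      positivity
    · refine Real.rpow_le_rpow (by positivity) ?_ (by positivity)
      have h1 : sInf {r : ℕ | Rk (kpow F (n + 1)) r} ≤ c * (n + 1) ^ k * Fintype.card A ^ (n + 1) :=
        Nat.sInf_le (hF n)
      calc ((sInf {r : ℕ | Rk (kpow F (n + 1)) r} : ℕ) : ℝ)
          ≤ ((c * (n + 1) ^ k * Fintype.card A ^ (n + 1) : ℕ) : ℝ) := by exact_mod_cast h1
        _ = (c : ℝ) * ((n : ℝ) + 1) ^ k * (Fintype.card A : ℝ) ^ (n + 1) := by push_cast; ring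
        _ ≤ _ := by
            gcongr
            linarith
  · refine le_ciInf fun n => ?_
    have h1 : Fintype.card A ^ (n + 1) ≤ sInf {r : ℕ | Rk (kpow F (n + 1)) r} :=
      le_csInf ⟨_, hF n⟩ fun r hr => pow_card_le h hr
    have hn : (0 : ℝ) < (n : ℝ) + 1 := by positivity
    calc (Fintype.card A : ℝ) = ((Fintype.card A : ℝ) ^ (n + 1)) ^ ((1 : ℝ) / ((n : ℝ) + 1)) := by
          rw [← Real.rpow_natCast, ← Real.rpow_mul (by positivity)]
          have : ((n + 1 : ℕ) : ℝ) * (1 / ((n : ℝ) + 1)) = 1 := by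
            push_cast
            field_simp
          rw [this, Real.rpow_one]
      _ ≤ _ := by
          refine Real.rpow_le_rpow (by positivity) ?_ (by positivity)
          exact_mod_cast h1

section poly

variable {K : Type*} [CommRing K]

theorem coeff_mul3 (u v w : K[X]) (h : ℕ) : (u * v * w).coeff h =
    ∑ j : Fin (h + 1), ∑ k : Fin (h + 1), (if (j : ℕ) + k ≤ h then
      u.coeff j * v.coeff k * w.coeff (h - j - k) else 0) := by
  rw [mul_assoc, Polynomial.coeff_mul, Finset.Nat.sum_antidiagonal_eq_sum_range_succ_mk,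
    ← Fin.sum_univ_eq_sum_range (fun j => u.coeff j * (v * w).coeff (h - j))]
  refine Finset.sum_congr rfl fun j _ => ?_
  have hj : (j : ℕ) ≤ h := Nat.lt_succ_iff.1 j.2
  rw [Polynomial.coeff_mul, Finset.Nat.sum_antidiagonal_eq_sum_range_succ_mk, Finset.mul_sum,
    Fin.sum_univ_eq_sum_range (fun k => if (j : ℕ) + k ≤ h then
      u.coeff j * v.coeff k * w.coeff (h - j - k) else 0)]
  rw [← Finset.sum_subset (s₁ := range (h - j + 1))
    (f := fun k => if (j : ℕ) + k ≤ h then
      u.coeff j * v.coeff k * w.coeff (h - j - k) else 0)]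
  · refine Finset.sum_congr rfl fun k hk => ?_
    have : (j : ℕ) + k ≤ h := by
      have := Finset.mem_range.1 hk
      omega
    rw [if_pos this]
    ring
  · intro k hk
    have := Finset.mem_range.1 hk
    exact Finset.mem_range.2 (by omega)
  · intro k _ hk
    have : ¬ ((j : ℕ) + k ≤ h) := by
      intro hle
      exact hk (Finset.mem_range.2 (by omega))
    rw [if_neg this]

/-- ranks of degenerations -/
theorem rk_of_poly {α β γ : Type*} {T : α → β → γ → K} {F : α → β → γ → K[X]} {r h : ℕ}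
    (hF : Rk F r) (hT : ∀ a b c, ∃ R : K[X], F a b c = X ^ h * (C (T a b c) + X * R)) :
    Rk T (r * (h + 1) ^ 2) := by
  obtain ⟨u, v, w, hF⟩ := hF
  have := Rk.of_fintype (κ := Fin r × Fin (h + 1) × Fin (h + 1)) (T := T)
    (fun e a => (u e.1 a).coeff e.2.1) (fun e b => (v e.1 b).coeff e.2.2)
    (fun e c => if (e.2.1 : ℕ) + e.2.2 ≤ h then (w e.1 c).coeff (h - e.2.1 - e.2.2) else 0) (by
      intro a b c
      obtain ⟨R, hR⟩ := hT a b c
      have h1 : T a b c = (F a b c).coeff h := by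
        rw [hR, Polynomial.coeff_X_pow_mul', if_pos le_rfl, Nat.sub_self]
        simp
      rw [h1, hF]
      rw [Polynomial.finsetSum_coeff, Fintype.sum_prod_type]
      refine Finset.sum_congr rfl fun i _ => ?_
      rw [coeff_mul3, Fintype.sum_prod_type]
      refine Finset.sum_congr rfl fun j _ => Finset.sum_congr rfl fun k _ => ?_
      dsimp only
      split_ifs <;> simp)
  refine this.mono (le_of_eq ?_)
  simp only [Fintype.card_prod, Fintype.card_fin]
  ring

/-- `T` is a degeneration of the tensor `F` over the polynomial ring: `F` can be transformed by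
matrices over the polynomial ring into `X ^ q (T + X R)`. -/
def Deg {ι : Type} [Fintype ι] (T : ι → ι → ι → K) (F : ι → ι → ι → K[X]) : Prop :=
  ∃ (q : ℕ) (A B C' : ι → ι → K[X]) (R : ι → ι → ι → K[X]), ∀ a b c,
    ∑ i, ∑ j, ∑ l, A a i * B b j * C' c l * F i j l = X ^ q * (C (T a b c) + X * R a b c)

theorem prod_lift {N q : ℕ} (t : Fin N → K) (R : Fin N → K[X]) :
    ∃ R' : K[X], ∏ i, (X ^ q * (C (t i) + X * R i)) = X ^ (q * N) * (C (∏ i, t i) + X * R') := by
  have key : ∀ (s : Finset (Fin N)), ∃ R' : K[X], ∏ i ∈ s, (C (t i) + X * R i) =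
      C (∏ i ∈ s, t i) + X * R' := by
    classical
    intro s
    induction s using Finset.induction_on with
    | empty => exact ⟨0, by simp⟩
    | insert i s hi ih =>
      obtain ⟨R', hR'⟩ := ih
      refine ⟨C (t i) * R' + R i * (C (∏ i ∈ s, t i) + X * R'), ?_⟩
      rw [Finset.prod_insert hi, Finset.prod_insert hi, hR', C_mul]
      ring
  obtain ⟨R', hR'⟩ := key univ
  refine ⟨R', ?_⟩
  rw [Finset.prod_mul_distrib, hR', Finset.prod_const, Finset.card_univ, Fintype.card_fin,
    ← pow_mul]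

theorem Deg.pow_rk {ι : Type} [Fintype ι] [DecidableEq ι] {T : ι → ι → ι → K}
    {F : ι → ι → ι → K[X]} (h : Deg T F) :
    ∃ q : ℕ, ∀ N r : ℕ, Rk (kpow F N) r → Rk (kpow T N) (r * (q * N + 1) ^ 2) := by
  obtain ⟨q, A, B, C', R, h⟩ := h
  refine ⟨q, fun N r hr => ?_⟩
  have hR : Rst (fun a b c => X ^ q * (C (T a b c) + X * R a b c)) F :=
    ⟨A, B, C', fun a b c => (h a b c).symm⟩
  refine rk_of_poly ((hR.pow N).toRk hr) fun a b c => ?_
  exact prod_lift (fun t => T (a t) (b t) (c t)) (fun t => R (a t) (b t) (c t))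

end poly

/-- The asymptotic rank of degenerations. -/
theorem arank_deg {K : Type*} [Field K] {ι : Type} [Fintype ι] [DecidableEq ι]
    {T : ι → ι → ι → K} {F : ι → ι → ι → K[X]} (h : Conc T) (hd : Deg T F) (c : ℕ)
    (hF : ∀ n : ℕ, Rk (kpow F (n + 1)) (c * (n + 1) ^ 3 * Fintype.card ι ^ (n + 1))) :
    arank T = Fintype.card ι := by
  obtain ⟨q, hq⟩ := hd.pow_rk
  refine arank_eq' h 5 (c * (q + 1) ^ 2) fun n => ?_
  refine (hq _ _ (hF n)).mono ?_
  have h1 : q * (n + 1) + 1 ≤ (q + 1) * (n + 1) := by nlinarith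
  calc c * (n + 1) ^ 3 * Fintype.card ι ^ (n + 1) * (q * (n + 1) + 1) ^ 2
      ≤ c * (n + 1) ^ 3 * Fintype.card ι ^ (n + 1) * ((q + 1) * (n + 1)) ^ 2 := by gcongr
    _ = _ := by ring

end Pool.Agent.TH671.SH
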