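import Mathlib
import Pool.Agent.TH671.SH.Coord
import Pool.Agent.TH671.SH.Degen

/-!
# The asymptotic rank of tensors most of whose indices are simple
-/

set_option autoImplicit false
set_option linter.unusedSectionVars false

open Finset Polynomial

namespace Pool.Agent.TH671.SH

open Pool.Agent.W329.AR Pool.Agent.TH671.SG

theorem num_z {D0 D σ m w : ℕ} (h6 : 6 ≤ D) (h2 : 2 * D0 ≤ D) (h4 : 4 ^ D0 ≤ D) (hσ : 1 ≤ σ)
    (hσm : D * σ ≤ m) (hw : w ^ D * σ ≤ m ^ (D + 1)) : (w + 3 * σ) ^ D0 * σ ≤ m ^ (D0 + 1) := by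
  have hσm' : σ ≤ m := le_trans (Nat.le_mul_of_pos_left _ (by omega)) hσm
  have hm : 0 < m := by omega
  by_cases hw3 : w ≤ 3 * σ
  · calc (w + 3 * σ) ^ D0 * σ ≤ (6 * σ) ^ D0 * (6 * σ) := by
          gcongr
          · omega
          · omega
      _ = (6 * σ) ^ (D0 + 1) := (pow_succ _ _).symm
      _ ≤ m ^ (D0 + 1) := Nat.pow_le_pow_left (le_trans (Nat.mul_le_mul_right _ h6) hσm) _
  · have h1 : w ^ (2 * D0) * σ ≤ m ^ (2 * D0 + 1) := by
      by_cases hwm : w ≤ m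
      · calc w ^ (2 * D0) * σ ≤ m ^ (2 * D0) * m := by gcongr
          _ = _ := (pow_succ _ _).symm
      · have hmp : 0 < m ^ (D - 2 * D0) := by positivity
        refine Nat.le_of_mul_le_mul_right ?_ hmp
        calc w ^ (2 * D0) * σ * m ^ (D - 2 * D0) ≤ w ^ (2 * D0) * σ * w ^ (D - 2 * D0) := by
              gcongr
              omega
          _ = w ^ (2 * D0) * w ^ (D - 2 * D0) * σ := by ring
          _ = w ^ D * σ := by rw [← pow_add, Nat.add_sub_cancel' h2]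
          _ ≤ m ^ (D + 1) := hw
          _ = m ^ (2 * D0 + 1) * m ^ (D - 2 * D0) := by
              rw [← pow_add]
              congr 1
              omega
    have h3 : (2 ^ D0 * w ^ D0 * σ) ^ 2 ≤ (m ^ (D0 + 1)) ^ 2 := by
      calc (2 ^ D0 * w ^ D0 * σ) ^ 2 = (4 ^ D0 * σ) * (w ^ (2 * D0) * σ) := by
            rw [show (4 : ℕ) = 2 ^ 2 by norm_num, ← pow_mul, mul_pow, mul_pow, ← pow_mul,
              ← pow_mul]
            ring
        _ ≤ m * m ^ (2 * D0 + 1) := by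
            refine Nat.mul_le_mul (le_trans (Nat.mul_le_mul_right _ h4) hσm) h1
        _ = _ := by rw [← pow_mul]; ring
    calc (w + 3 * σ) ^ D0 * σ ≤ (2 * w) ^ D0 * σ := by
          gcongr
          omega
      _ = 2 ^ D0 * w ^ D0 * σ := by rw [mul_pow]
      _ ≤ m ^ (D0 + 1) := (Nat.pow_le_pow_iff_left (by norm_num)).1 h3

section ring

variable {K : Type*} [CommRing K]

/-- **Ranks of the Kronecker powers of tensors most of whose indices are simple.** -/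
theorem spr_rank (h : ℕ) (hh : 1 ≤ h) : ∃ D : ℕ, 1 ≤ D ∧ ∀ σ m w : ℕ, 1 ≤ σ → D * σ ≤ m →
    w ^ D * σ ≤ m ^ (D + 1) → ∃ c : ℕ, ∀ (ι : Type) [Fintype ι] [DecidableEq ι],
      Fintype.card ι = m → ∀ (H : Finset (ι × ι × ι)) (S1 S2 S3 : Finset ι), S1.card ≤ σ →
      S2.card ≤ σ → S3.card ≤ σ → Spr H S1 S2 S3 h w → ∀ T : ι → ι → ι → K,
      (∀ x y z, (x, y, z) ∉ H → T x y z = 0) →
      ∀ n : ℕ, Rk (kpow T (n + 1)) (c * (n + 1) ^ 3 * m ^ (n + 1)) := by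
  obtain ⟨D0, hD0, hmain⟩ := rk_bound (K := K) h hh
  have hD1 : 1 ≤ 4 ^ D0 := Nat.one_le_pow _ _ (by norm_num)
  have hD2 : 2 * D0 ≤ 6 * 4 ^ D0 := by
    have : D0 < 4 ^ D0 := Nat.lt_pow_self (by norm_num)
    omega
  have hD3 : D0 ≤ 6 * 4 ^ D0 := by omega
  refine ⟨6 * 4 ^ D0, by omega, fun σ m w hσ hσm hw => ?_⟩
  have hz := num_z (D0 := D0) (by omega) hD2 (by omega) hσ hσm hw
  have hσD : D0 * σ ≤ m := le_trans (Nat.mul_le_mul_right _ hD3) hσm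
  have hσm' : σ ≤ m := le_trans (Nat.le_mul_of_pos_left _ (by omega)) hσm
  obtain ⟨c, hc⟩ := hmain σ m (w + 3 * σ) hσ hσD hz
  refine ⟨c, fun ι _ _ hι H S1 S2 S3 c1 c2 c3 hs T hT n => ?_⟩
  obtain ⟨S1', h1, e1⟩ := Finset.exists_superset_card_eq c1 (by rw [hι]; exact hσm')
  obtain ⟨S2', h2, e2⟩ := Finset.exists_superset_card_eq c2 (by rw [hι]; exact hσm')
  obtain ⟨S3', h3, e3⟩ := Finset.exists_superset_card_eq c3 (by rw [hι]; exact hσm')
  have hs' := hs.enlarge h1 h2 h3 e1 e2 e3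
  set W := wt H S1' S2' S3' (w + 3 * σ) with hW
  -- numbers of triples with a big index
  have hun : ∀ (q q1 q2 q3 q4 : ι × ι × ι → Prop) [DecidablePred q] [DecidablePred q1]
      [DecidablePred q2] [DecidablePred q3] [DecidablePred q4],
      (∀ e, q1 e → q e ∧ ¬ q2 e ∧ ¬ q3 e ∧ ¬ q4 e) → (∀ e, q2 e → q e ∧ ¬ q3 e ∧ ¬ q4 e) →
      (∀ e, q3 e → q e ∧ ¬ q4 e) → (∀ e, q4 e → q e) →
      (H.filter q1).card + (H.filter q2).card + (H.filter q3).card + (H.filter q4).card ≤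
        (H.filter q).card := by
    intro q q1 q2 q3 q4 _ _ _ _ _ a1 a2 a3 a4
    have d34 : Disjoint (H.filter q3) (H.filter q4) :=
      Finset.disjoint_filter.2 fun e _ b1 b2 => (a3 e b1).2 b2
    have d2 : Disjoint (H.filter q2) ((H.filter q3) ∪ (H.filter q4)) := by
      rw [Finset.disjoint_union_right]
      exact ⟨Finset.disjoint_filter.2 fun e _ b1 b2 => (a2 e b1).2.1 b2,
        Finset.disjoint_filter.2 fun e _ b1 b2 => (a2 e b1).2.2 b2⟩
    have d1 : Disjoint (H.filter q1) ((H.filter q2) ∪ ((H.filter q3) ∪ (H.filter q4))) := by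
      rw [Finset.disjoint_union_right, Finset.disjoint_union_right]
      exact ⟨Finset.disjoint_filter.2 fun e _ b1 b2 => (a1 e b1).2.1 b2,
        Finset.disjoint_filter.2 fun e _ b1 b2 => (a1 e b1).2.2.1 b2,
        Finset.disjoint_filter.2 fun e _ b1 b2 => (a1 e b1).2.2.2 b2⟩
    have hsub : (H.filter q1) ∪ ((H.filter q2) ∪ ((H.filter q3) ∪ (H.filter q4))) ⊆
        H.filter q := by
      intro e he
      simp only [Finset.mem_union, Finset.mem_filter] at he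
      refine Finset.mem_filter.2 ?_
      rcases he with h | h | h | h
      · exact ⟨h.1, (a1 e h.2).1⟩
      · exact ⟨h.1, (a2 e h.2).1⟩
      · exact ⟨h.1, (a3 e h.2).1⟩
      · exact ⟨h.1, a4 e h.2⟩
    have := Finset.card_le_card hsub
    rw [Finset.card_union_of_disjoint d1, Finset.card_union_of_disjoint d2,
      Finset.card_union_of_disjoint d34] at this
    omega
  have b1 : (H.filter fun e => e.1 ∉ S1').card + σ ≤ m := by
    have h5 : (H.filter fun e => e.1 ∉ S1').card ≤ (univ \ S1').card := by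
      refine Finset.card_le_card_of_injOn (fun e => e.1) ?_ ?_
      · intro e he
        exact Finset.mem_coe.2 (Finset.mem_sdiff.2 ⟨Finset.mem_univ _,
          (Finset.mem_filter.1 (Finset.mem_coe.1 he)).2⟩)
      · intro e he e' he' hee
        obtain ⟨q1, q2⟩ := Finset.mem_filter.1 (Finset.mem_coe.1 he)
        exact hs'.s1 e q1 e' (Finset.mem_filter.1 (Finset.mem_coe.1 he')).1 q2 hee
    rw [Finset.card_sdiff_of_subset (Finset.subset_univ _), e1, Finset.card_univ, hι] at h5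
    omega
  have b2 : (H.filter fun e => e.2.1 ∉ S2').card + σ ≤ m := by
    have h5 : (H.filter fun e => e.2.1 ∉ S2').card ≤ (univ \ S2').card := by
      refine Finset.card_le_card_of_injOn (fun e => e.2.1) ?_ ?_
      · intro e he
        exact Finset.mem_coe.2 (Finset.mem_sdiff.2 ⟨Finset.mem_univ _,
          (Finset.mem_filter.1 (Finset.mem_coe.1 he)).2⟩)
      · intro e he e' he' hee
        obtain ⟨q1, q2⟩ := Finset.mem_filter.1 (Finset.mem_coe.1 he)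
        exact hs'.s2 e q1 e' (Finset.mem_filter.1 (Finset.mem_coe.1 he')).1 q2 hee
    rw [Finset.card_sdiff_of_subset (Finset.subset_univ _), e2, Finset.card_univ, hι] at h5
    omega
  have b3 : (H.filter fun e => e.2.2 ∉ S3').card + σ ≤ m := by
    have h5 : (H.filter fun e => e.2.2 ∉ S3').card ≤ (univ \ S3').card := by
      refine Finset.card_le_card_of_injOn (fun e => e.2.2) ?_ ?_
      · intro e he
        exact Finset.mem_coe.2 (Finset.mem_sdiff.2 ⟨Finset.mem_univ _,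
          (Finset.mem_filter.1 (Finset.mem_coe.1 he)).2⟩)
      · intro e he e' he' hee
        obtain ⟨q1, q2⟩ := Finset.mem_filter.1 (Finset.mem_coe.1 he)
        exact hs'.s3 e q1 e' (Finset.mem_filter.1 (Finset.mem_coe.1 he')).1 q2 hee
    rw [Finset.card_sdiff_of_subset (Finset.subset_univ _), e3, Finset.card_univ, hι] at h5
    omega
  have g1 := hun (fun e => e.1 ∉ S1') (fun e => e.1 ∉ S1' ∧ e.2.1 ∈ S2' ∧ e.2.2 ∈ S3')
    (fun e => e.1 ∉ S1' ∧ e.2.1 ∈ S2' ∧ e.2.2 ∉ S3')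
    (fun e => e.1 ∉ S1' ∧ e.2.1 ∉ S2' ∧ e.2.2 ∈ S3')
    (fun e => e.1 ∉ S1' ∧ e.2.1 ∉ S2' ∧ e.2.2 ∉ S3') (fun e => by tauto) (fun e => by tauto)
    (fun e => by tauto) (fun e => by tauto)
  have g2 := hun (fun e => e.2.1 ∉ S2') (fun e => e.1 ∈ S1' ∧ e.2.1 ∉ S2' ∧ e.2.2 ∈ S3')
    (fun e => e.1 ∉ S1' ∧ e.2.1 ∉ S2' ∧ e.2.2 ∈ S3')
    (fun e => e.1 ∈ S1' ∧ e.2.1 ∉ S2' ∧ e.2.2 ∉ S3')
    (fun e => e.1 ∉ S1' ∧ e.2.1 ∉ S2' ∧ e.2.2 ∉ S3') (fun e => by tauto) (fun e => by tauto)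
    (fun e => by tauto) (fun e => by tauto)
  have g3 := hun (fun e => e.2.2 ∉ S3') (fun e => e.1 ∈ S1' ∧ e.2.1 ∈ S2' ∧ e.2.2 ∉ S3')
    (fun e => e.1 ∈ S1' ∧ e.2.1 ∉ S2' ∧ e.2.2 ∉ S3')
    (fun e => e.1 ∉ S1' ∧ e.2.1 ∈ S2' ∧ e.2.2 ∉ S3')
    (fun e => e.1 ∉ S1' ∧ e.2.1 ∉ S2' ∧ e.2.2 ∉ S3') (fun e => by tauto) (fun e => by tauto)
    (fun e => by tauto) (fun e => by tauto)
  have hX : W 0 + W 4 + W 5 + W 6 + σ ≤ m := le_trans (Nat.add_le_add_right g1 _) b1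
  have hY : W 1 + W 5 + W 3 + W 6 + σ ≤ m := le_trans (Nat.add_le_add_right g2 _) b2
  have hZ : W 2 + W 3 + W 4 + W 6 + σ ≤ m := le_trans (Nat.add_le_add_right g3 _) b3
  have hpair : ∀ (q q1 q2 : ι × ι × ι → Prop) [DecidablePred q] [DecidablePred q1]
      [DecidablePred q2], (∀ e, q1 e → q e ∧ ¬ q2 e) → (∀ e, q2 e → q e) →
      h * (H.filter q).card ≤ (h - 1) * Fintype.card ι →
      h * ((H.filter q1).card + (H.filter q2).card) ≤ (h - 1) * m := by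
    intro q q1 q2 _ _ _ a1 a2 a3
    have hd : Disjoint (H.filter q1) (H.filter q2) :=
      Finset.disjoint_filter.2 fun e _ b1 b2 => (a1 e b1).2 b2
    have hsub : (H.filter q1) ∪ (H.filter q2) ⊆ H.filter q := by
      intro e he
      simp only [Finset.mem_union, Finset.mem_filter] at he
      refine Finset.mem_filter.2 ?_
      rcases he with h | h
      · exact ⟨h.1, (a1 e h.2).1⟩
      · exact ⟨h.1, a2 e h.2⟩
    have := Finset.card_le_card hsub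
    rw [Finset.card_union_of_disjoint hd] at this
    rw [← hι]
    exact le_trans (Nat.mul_le_mul_left _ this) a3
  have p0 : h * (W 3 + W 6) ≤ (h - 1) * m :=
    hpair (fun e => e.2.1 ∉ S2' ∧ e.2.2 ∉ S3')
      (fun e => e.1 ∈ S1' ∧ e.2.1 ∉ S2' ∧ e.2.2 ∉ S3')
      (fun e => e.1 ∉ S1' ∧ e.2.1 ∉ S2' ∧ e.2.2 ∉ S3') (fun e => by tauto) (fun e => by tauto)
      hs'.d23
  have p1 : h * (W 4 + W 6) ≤ (h - 1) * m :=
    hpair (fun e => e.1 ∉ S1' ∧ e.2.2 ∉ S3')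
      (fun e => e.1 ∉ S1' ∧ e.2.1 ∈ S2' ∧ e.2.2 ∉ S3')
      (fun e => e.1 ∉ S1' ∧ e.2.1 ∉ S2' ∧ e.2.2 ∉ S3') (fun e => by tauto) (fun e => by tauto)
      hs'.d13
  have p2 : h * (W 5 + W 6) ≤ (h - 1) * m :=
    hpair (fun e => e.1 ∉ S1' ∧ e.2.1 ∉ S2')
      (fun e => e.1 ∉ S1' ∧ e.2.1 ∉ S2' ∧ e.2.2 ∈ S3')
      (fun e => e.1 ∉ S1' ∧ e.2.1 ∉ S2' ∧ e.2.2 ∉ S3') (fun e => by tauto) (fun e => by tauto)
      hs'.d12
  have hG : Good8 σ (fun j => prt T (pat S1' S2' S3' j)) W (3 * m + (w + 3 * σ)) := by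
    refine hs'.good T hT e1 e2 e3 ?_ ?_ ?_
    · change W 1 + W 2 + W 3 + (w + 3 * σ) ≤ _
      omega
    · change W 0 + W 2 + W 4 + (w + 3 * σ) ≤ _
      omega
    · change W 0 + W 1 + W 5 + (w + 3 * σ) ≤ _
      omega
  exact hc ι T _ W _ (part_sum T S1' S2' S3') hG le_rfl le_rfl hX hY hZ p0 p1 p2 n

end ring

/-- **Main theorem.** -/
theorem arank_spr {K : Type*} [Field K] (h : ℕ) (hh : 1 ≤ h) : ∃ D : ℕ, 1 ≤ D ∧
    ∀ σ m w : ℕ, 1 ≤ σ → D * σ ≤ m → w ^ D * σ ≤ m ^ (D + 1) →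
      ∀ (ι : Type) [Fintype ι] [DecidableEq ι], Fintype.card ι = m →
      ∀ (H : Finset (ι × ι × ι)) (S1 S2 S3 : Finset ι), S1.card ≤ σ → S2.card ≤ σ →
      S3.card ≤ σ → Spr H S1 S2 S3 h w → ∀ F : ι → ι → ι → K[X],
      (∀ x y z, (x, y, z) ∉ H → F x y z = 0) → ∀ T : ι → ι → ι → K, Conc T → Deg T F →
      arank T = m := by
  obtain ⟨D, hD, hmain⟩ := spr_rank (K := K[X]) h hh
  refine ⟨D, hD, fun σ m w hσ hσm hw ι _ _ hι H S1 S2 S3 c1 c2 c3 hs F hF T hT hd => ?_⟩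
  obtain ⟨c, hc⟩ := hmain σ m w hσ hσm hw
  have := arank_deg hT hd c fun n => by
    rw [hι]
    exact hc ι hι H S1 S2 S3 c1 c2 c3 hs F hF n
  rw [this, hι]

/-- The same for tensors supported on `H`. -/
theorem arank_spr' {K : Type*} [Field K] (h : ℕ) (hh : 1 ≤ h) : ∃ D : ℕ, 1 ≤ D ∧
    ∀ σ m w : ℕ, 1 ≤ σ → D * σ ≤ m → w ^ D * σ ≤ m ^ (D + 1) →
      ∀ (ι : Type) [Fintype ι] [DecidableEq ι], Fintype.card ι = m →
      ∀ (H : Finset (ι × ι × ι)) (S1 S2 S3 : Finset ι), S1.card ≤ σ → S2.card ≤ σ →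
      S3.card ≤ σ → Spr H S1 S2 S3 h w → ∀ T : ι → ι → ι → K,
      (∀ x y z, (x, y, z) ∉ H → T x y z = 0) → Conc T → arank T = m := by
  obtain ⟨D, hD, hmain⟩ := spr_rank (K := K) h hh
  refine ⟨D, hD, fun σ m w hσ hσm hw ι _ _ hι H S1 S2 S3 c1 c2 c3 hs T hH hT => ?_⟩
  obtain ⟨c, hc⟩ := hmain σ m w hσ hσm hw
  have := arank_eq hT c fun n => by
    rw [hι]
    exact hc ι hι H S1 S2 S3 c1 c2 c3 hs T hH n
  rw [this, hι]

end Pool.Agent.TH671.SH
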