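import Mathlib
import Pool.Agent.TH671.SH.Final
import Pool.Agent.TH671.AS.Equiv

/-!
# Padded tensors

The padded tensor `pad Z f g h` of a tensor `Z` is obtained from `Z` by adding, for each `e : E`,
new variables `y e`, `z e`, `x' e`, `z' e`, `x'' e`, `y'' e` and the terms
`x_{f e} (y e) (z e) + (x' e) y_{g e} (z' e) + (x'' e) (y'' e) z_{h e}`.
-/

set_option autoImplicit false
set_option linter.unusedSectionVars false

open Finset

namespace Pool.Agent.TH671.SH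

open Pool.Agent.W329.AR Pool.Agent.TH671.AS

section defs

variable {K : Type*} {ι E : Type} [DecidableEq ι] [DecidableEq E]

/-- The padded tensor. -/
def pad [Zero K] [One K] (Z : ι → ι → ι → K) (f g h : E → ι) :
    ι ⊕ (E ⊕ E) → ι ⊕ (E ⊕ E) → ι ⊕ (E ⊕ E) → K
  | .inl x, .inl y, .inl z => Z x y z
  | .inl x, .inr (.inl e), .inr (.inl e') => if e = e' ∧ f e = x then 1 else 0
  | .inr (.inl e), .inl y, .inr (.inr e') => if e = e' ∧ g e = y then 1 else 0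
  | .inr (.inr e), .inr (.inr e'), .inl z => if e = e' ∧ h e = z then 1 else 0
  | _, _, _ => 0

/-- The support of the padded tensor. -/
def padS (S : ι → ι → ι → Prop) (f g h : E → ι) :
    ι ⊕ (E ⊕ E) → ι ⊕ (E ⊕ E) → ι ⊕ (E ⊕ E) → Prop
  | .inl x, .inl y, .inl z => S x y z
  | .inl x, .inr (.inl e), .inr (.inl e') => e = e' ∧ f e = x
  | .inr (.inl e), .inl y, .inr (.inr e') => e = e' ∧ g e = y
  | .inr (.inr e), .inr (.inr e'), .inl z => e = e' ∧ h e = z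
  | _, _, _ => False

theorem pad_supp [Field K] (Z : ι → ι → ι → K) (f g h : E → ι) (a b c : ι ⊕ (E ⊕ E))
    (hne : pad Z f g h a b c ≠ 0) : padS (fun x y z => Z x y z ≠ 0) f g h a b c := by
  rcases a with x | e | e <;> rcases b with y | e' | e' <;> rcases c with z | e'' | e'' <;>
    simp only [pad, padS, ne_eq, not_true_eq_false, ite_eq_right_iff, one_ne_zero, imp_false,
      not_not] at hne ⊢
  all_goals exact hne

theorem padS_three (S : ι → ι → ι → Prop) (f g h : E → ι) (a b c : ι ⊕ (E ⊕ E))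
    (hS : padS S f g h a b c) :
    (∃ x y z, S x y z ∧ a = .inl x ∧ b = .inl y ∧ c = .inl z) ∨
    (∃ e, a = .inl (f e) ∧ b = .inr (.inl e) ∧ c = .inr (.inl e)) ∨
    (∃ e, a = .inr (.inl e) ∧ b = .inl (g e) ∧ c = .inr (.inr e)) ∨
    (∃ e, a = .inr (.inr e) ∧ b = .inr (.inr e) ∧ c = .inl (h e)) := by
  rcases a with x | e | e <;> rcases b with y | e' | e' <;> rcases c with z | e'' | e'' <;>
    simp only [padS] at hS
  · exact Or.inl ⟨x, y, z, hS, rfl, rfl, rfl⟩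
  · obtain ⟨rfl, rfl⟩ := hS
    exact Or.inr (Or.inl ⟨e', rfl, rfl, rfl⟩)
  · obtain ⟨rfl, rfl⟩ := hS
    exact Or.inr (Or.inr (Or.inl ⟨e, rfl, rfl, rfl⟩))
  · obtain ⟨rfl, rfl⟩ := hS
    exact Or.inr (Or.inr (Or.inr ⟨e, rfl, rfl, rfl⟩))

end defs

section main

variable {K : Type*} [Field K]

theorem inl_mem {ι E : Type} [Fintype ι] [DecidableEq ι] [DecidableEq E] (x : ι) :
    (Sum.inl x : ι ⊕ (E ⊕ E)) ∈ (univ : Finset ι).image Sum.inl :=
  Finset.mem_image_of_mem _ (Finset.mem_univ _)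

theorem inr_notin {ι E : Type} [Fintype ι] [DecidableEq ι] [DecidableEq E] (x : E ⊕ E) :
    (Sum.inr x : ι ⊕ (E ⊕ E)) ∉ (univ : Finset ι).image Sum.inl := by
  intro hx
  obtain ⟨y, _, hy⟩ := Finset.mem_image.1 hx
  exact absurd hy (by simp)

open Classical in
/-- the support of a tensor as a finite set -/
noncomputable def supp {ι : Type} [Fintype ι] (T : ι → ι → ι → K) : Finset (ι × ι × ι) :=
  univ.filter fun e => T e.1 e.2.1 e.2.2 ≠ 0

open Classical in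
/-- `w` bounds the numbers of the pairs `(x, y)` and of the pairs `(y, z)` which occur in the
support of `Z` -/
def Pairs {ι : Type} [Fintype ι] (Z : ι → ι → ι → K) (w : ℕ) : Prop :=
  (univ.filter fun q : ι × ι => ∃ z, Z q.1 q.2 z ≠ 0).card ≤ w ∧
  (univ.filter fun q : ι × ι => ∃ x, Z x q.1 q.2 ≠ 0).card ≤ w

theorem pad_spr {ι E : Type} [Fintype ι] [DecidableEq ι] [Fintype E] [DecidableEq E]
    (Z : ι → ι → ι → K) (f g h : E → ι) {w : ℕ} (hw : Pairs Z w) :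
    Spr (supp (pad Z f g h)) ((univ : Finset ι).image Sum.inl) ((univ : Finset ι).image Sum.inl)
      ((univ : Finset ι).image Sum.inl) 2 w := by
  classical
  have hsup : ∀ e ∈ supp (pad Z f g h), padS (fun x y z => Z x y z ≠ 0) f g h e.1 e.2.1 e.2.2 :=
    fun e he => pad_supp Z f g h _ _ _ (Finset.mem_filter.1 he).2
  have hcard : Fintype.card (ι ⊕ (E ⊕ E)) = Fintype.card ι + 2 * Fintype.card E := by
    simp only [Fintype.card_sum]
    ring
  have hE : ∀ (F : Finset ((ι ⊕ (E ⊕ E)) × (ι ⊕ (E ⊕ E)) × (ι ⊕ (E ⊕ E))))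
      (G : E → (ι ⊕ (E ⊕ E)) × (ι ⊕ (E ⊕ E)) × (ι ⊕ (E ⊕ E))), (∀ t ∈ F, ∃ e, t = G e) →
      2 * F.card ≤ (2 - 1) * Fintype.card (ι ⊕ (E ⊕ E)) := by
    intro F G hFG
    have : F ⊆ univ.image G := by
      intro t ht
      obtain ⟨e, rfl⟩ := hFG t ht
      exact Finset.mem_image_of_mem _ (Finset.mem_univ _)
    have h1 := (Finset.card_le_card this).trans Finset.card_image_le
    rw [Finset.card_univ] at h1
    rw [hcard]
    omega
  refine ⟨?_, ?_, ?_, ?_, ?_, ?_, ?_, ?_⟩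
  · rintro ⟨a, b, c⟩ he ⟨a', b', c'⟩ he' hn (rfl : a = a')
    rcases padS_three _ _ _ _ _ _ _ (hsup _ he) with ⟨x, y, z, _, h1, h2, h3⟩ | ⟨e, h1, h2, h3⟩ |
      ⟨e, h1, h2, h3⟩ | ⟨e, h1, h2, h3⟩
    · exact absurd (by dsimp only at h1 ⊢; rw [h1]; exact inl_mem x) hn
    · exact absurd (by dsimp only at h1 ⊢; rw [h1]; exact inl_mem _) hn
    all_goals
      rcases padS_three _ _ _ _ _ _ _ (hsup _ he') with ⟨x, y, z, _, k1, k2, k3⟩ |
        ⟨e', k1, k2, k3⟩ | ⟨e', k1, k2, k3⟩ | ⟨e', k1, k2, k3⟩ <;>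
      dsimp only at h1 h2 h3 k1 k2 k3 <;> rw [h1] at k1 <;> simp at k1
    · rw [h1, h2, h3, k2, k3, k1]
    · rw [h1, h2, h3, k2, k3, k1]
  · rintro ⟨a, b, c⟩ he ⟨a', b', c'⟩ he' hn (rfl : b = b')
    rcases padS_three _ _ _ _ _ _ _ (hsup _ he) with ⟨x, y, z, _, h1, h2, h3⟩ | ⟨e, h1, h2, h3⟩ |
      ⟨e, h1, h2, h3⟩ | ⟨e, h1, h2, h3⟩
    · exact absurd (by dsimp only at h2 ⊢; rw [h2]; exact inl_mem y) hn
    rotate_left
    · exact absurd (by dsimp only at h2 ⊢; rw [h2]; exact inl_mem _) hn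
    all_goals
      rcases padS_three _ _ _ _ _ _ _ (hsup _ he') with ⟨x, y, z, _, k1, k2, k3⟩ |
        ⟨e', k1, k2, k3⟩ | ⟨e', k1, k2, k3⟩ | ⟨e', k1, k2, k3⟩ <;>
      dsimp only at h1 h2 h3 k1 k2 k3 <;> rw [h2] at k2 <;> simp at k2
    · rw [h1, h2, h3, k1, k3, k2]
    · rw [h1, h2, h3, k1, k3, k2]
  · rintro ⟨a, b, c⟩ he ⟨a', b', c'⟩ he' hn (rfl : c = c')
    rcases padS_three _ _ _ _ _ _ _ (hsup _ he) with ⟨x, y, z, _, h1, h2, h3⟩ | ⟨e, h1, h2, h3⟩ |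
      ⟨e, h1, h2, h3⟩ | ⟨e, h1, h2, h3⟩
    · exact absurd (by dsimp only at h3 ⊢; rw [h3]; exact inl_mem z) hn
    rotate_right
    · exact absurd (by dsimp only at h3 ⊢; rw [h3]; exact inl_mem _) hn
    all_goals
      rcases padS_three _ _ _ _ _ _ _ (hsup _ he') with ⟨x, y, z, _, k1, k2, k3⟩ |
        ⟨e', k1, k2, k3⟩ | ⟨e', k1, k2, k3⟩ | ⟨e', k1, k2, k3⟩ <;>
      dsimp only at h1 h2 h3 k1 k2 k3 <;> rw [h3] at k3 <;> simp at k3
    · rw [h1, h2, h3, k1, k2, k3]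
    · rw [h1, h2, h3, k1, k2, k3]
  · refine hE _ (fun e => (.inl (f e), .inr (.inl e), .inr (.inl e))) ?_
    rintro ⟨a, b, c⟩ he
    obtain ⟨q1, q2, q3⟩ := Finset.mem_filter.1 he
    rcases padS_three _ _ _ _ _ _ _ (hsup _ q1) with ⟨x, y, z, _, h1, h2, h3⟩ | ⟨e, h1, h2, h3⟩ |
      ⟨e, h1, h2, h3⟩ | ⟨e, h1, h2, h3⟩
    · exact absurd (by dsimp only at h2 ⊢; rw [h2]; exact inl_mem y) q2
    · exact ⟨e, by dsimp only at h1 h2 h3; rw [h1, h2, h3]⟩
    · exact absurd (by dsimp only at h2 ⊢; rw [h2]; exact inl_mem _) q2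
    · exact absurd (by dsimp only at h3 ⊢; rw [h3]; exact inl_mem _) q3
  · refine hE _ (fun e => (.inr (.inl e), .inl (g e), .inr (.inr e))) ?_
    rintro ⟨a, b, c⟩ he
    obtain ⟨q1, q2, q3⟩ := Finset.mem_filter.1 he
    rcases padS_three _ _ _ _ _ _ _ (hsup _ q1) with ⟨x, y, z, _, h1, h2, h3⟩ | ⟨e, h1, h2, h3⟩ |
      ⟨e, h1, h2, h3⟩ | ⟨e, h1, h2, h3⟩
    · exact absurd (by dsimp only at h1 ⊢; rw [h1]; exact inl_mem x) q2
    · exact absurd (by dsimp only at h1 ⊢; rw [h1]; exact inl_mem _) q2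
    · exact ⟨e, by dsimp only at h1 h2 h3; rw [h1, h2, h3]⟩
    · exact absurd (by dsimp only at h3 ⊢; rw [h3]; exact inl_mem _) q3
  · refine hE _ (fun e => (.inr (.inr e), .inr (.inr e), .inl (h e))) ?_
    rintro ⟨a, b, c⟩ he
    obtain ⟨q1, q2, q3⟩ := Finset.mem_filter.1 he
    rcases padS_three _ _ _ _ _ _ _ (hsup _ q1) with ⟨x, y, z, _, h1, h2, h3⟩ | ⟨e, h1, h2, h3⟩ |
      ⟨e, h1, h2, h3⟩ | ⟨e, h1, h2, h3⟩
    · exact absurd (by dsimp only at h1 ⊢; rw [h1]; exact inl_mem x) q2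
    · exact absurd (by dsimp only at h1 ⊢; rw [h1]; exact inl_mem _) q2
    · exact absurd (by dsimp only at h2 ⊢; rw [h2]; exact inl_mem _) q3
    · exact ⟨e, by dsimp only at h1 h2 h3; rw [h1, h2, h3]⟩
  · refine le_trans (Finset.card_le_card ?_) (Finset.card_image_le.trans hw.1 : ((univ.filter
      fun q : ι × ι => ∃ z, Z q.1 q.2 z ≠ 0).image (fun q => ((Sum.inl q.1 : ι ⊕ (E ⊕ E)),
        (Sum.inl q.2 : ι ⊕ (E ⊕ E))))).card ≤ w)
    intro q hq
    obtain ⟨⟨a, b, c⟩, he, rfl⟩ := Finset.mem_image.1 hq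
    obtain ⟨q1, q2, q3, q4⟩ := Finset.mem_filter.1 he
    rcases padS_three _ _ _ _ _ _ _ (hsup _ q1) with ⟨x, y, z, hS, h1, h2, h3⟩ |
      ⟨e, h1, h2, h3⟩ | ⟨e, h1, h2, h3⟩ | ⟨e, h1, h2, h3⟩
    · dsimp only at h1 h2 h3
      exact Finset.mem_image.2 ⟨(x, y), Finset.mem_filter.2 ⟨Finset.mem_univ _, z, hS⟩,
        by dsimp only; rw [h1, h2]⟩
    · exact absurd (by dsimp only at h2 q3; rw [h2] at q3; exact q3) (inr_notin _)
    · exact absurd (by dsimp only at h1 q2; rw [h1] at q2; exact q2) (inr_notin _)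
    · exact absurd (by dsimp only at h1 q2; rw [h1] at q2; exact q2) (inr_notin _)
  · refine le_trans (Finset.card_le_card ?_) (Finset.card_image_le.trans hw.2 : ((univ.filter
      fun q : ι × ι => ∃ x, Z x q.1 q.2 ≠ 0).image (fun q => ((Sum.inl q.1 : ι ⊕ (E ⊕ E)),
        (Sum.inl q.2 : ι ⊕ (E ⊕ E))))).card ≤ w)
    intro q hq
    obtain ⟨⟨a, b, c⟩, he, rfl⟩ := Finset.mem_image.1 hq
    obtain ⟨q1, q2, q3, q4⟩ := Finset.mem_filter.1 he
    rcases padS_three _ _ _ _ _ _ _ (hsup _ q1) with ⟨x, y, z, hS, h1, h2, h3⟩ |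
      ⟨e, h1, h2, h3⟩ | ⟨e, h1, h2, h3⟩ | ⟨e, h1, h2, h3⟩
    · dsimp only at h1 h2 h3
      exact Finset.mem_image.2 ⟨(y, z), Finset.mem_filter.2 ⟨Finset.mem_univ _, x, hS⟩,
        by dsimp only; rw [h2, h3]⟩
    · exact absurd (by dsimp only at h2 q3; rw [h2] at q3; exact q3) (inr_notin _)
    · exact absurd (by dsimp only at h1 q2; rw [h1] at q2; exact q2) (inr_notin _)
    · exact absurd (by dsimp only at h1 q2; rw [h1] at q2; exact q2) (inr_notin _)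

/-- **The asymptotic rank of padded tensors.** -/
theorem arank_pad : ∃ D : ℕ, 1 ≤ D ∧ ∀ n c w : ℕ, 1 ≤ n → D * n ≤ c → w ^ D * n ≤ c ^ (D + 1) →
    ∀ (ι E : Type) [Fintype ι] [DecidableEq ι] [Fintype E] [DecidableEq E],
      Fintype.card ι = n → Fintype.card E = c → ∀ (Z : ι → ι → ι → K) (f g h : E → ι),
      Pairs Z w → Conc (pad Z f g h) → arank (pad Z f g h) = (n : ℝ) + 2 * c := by
  classical
  obtain ⟨D, hD, hmain⟩ := arank_spr' (K := K) 2 (by norm_num)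
  refine ⟨D, hD, fun n c w hn hc hw ι E _ _ _ _ hι hE Z f g h hZ hP => ?_⟩
  have hcard : Fintype.card (ι ⊕ (E ⊕ E)) = n + 2 * c := by
    simp only [Fintype.card_sum, hι, hE]
    ring
  have hS : ((univ : Finset ι).image (Sum.inl : ι → ι ⊕ (E ⊕ E))).card ≤ n := by
    refine Finset.card_image_le.trans ?_
    rw [Finset.card_univ, hι]
  have h1 := hmain n (n + 2 * c) w hn (by omega)
    (hw.trans (Nat.pow_le_pow_left (by omega) _)) (ι ⊕ (E ⊕ E)) hcard (supp (pad Z f g h)) _ _ _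
    hS hS hS (pad_spr Z f g h hZ) (pad Z f g h) (fun x y z hx => by
      by_contra hne
      exact hx (Finset.mem_filter.2 ⟨Finset.mem_univ _, hne⟩)) hP
  rw [h1]
  push_cast
  ring

end main

end Pool.Agent.TH671.SH
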