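import Mathlib
import Pool.Agent.TH671.SH.Pad

/-!
# Padded tensors: conciseness and the classes of tight, oblique and free tensors
-/

set_option autoImplicit false
set_option linter.unusedSectionVars false

open Finset

namespace Pool.Agent.TH671.SH

open Pool.Agent.W329.AR Pool.Agent.TH671.AS

section conc

variable {K : Type*} [Field K]

theorem li_pad {ι E κ : Type*} [Fintype ι] [Fintype E] [DecidableEq ι] [DecidableEq E]
    (M : ι ⊕ E → κ → K) (pos : E → κ)
    (hpos : ∀ t a, M a (pos t) = if a = Sum.inr t then 1 else 0)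
    (hrest : (∃ (κ' : Type) (F : ι → κ' → K) (p : κ' → κ), LinearIndependent K F ∧
      ∀ x q, M (Sum.inl x) (p q) = F x q) ∨
      ∀ x, ∃ q, ∀ x', M (Sum.inl x') q = if x' = x then 1 else 0) : LinearIndependent K M := by
  rw [Fintype.linearIndependent_iff]
  intro g hg
  have hev : ∀ q, ∑ a, g a * M a q = 0 := by
    intro q
    have := congrFun hg q
    simpa [Finset.sum_apply] using this
  have hr : ∀ t, g (Sum.inr t) = 0 := by
    intro t
    have := hev (pos t)
    simp only [hpos, mul_ite, mul_one, mul_zero, Finset.sum_ite_eq', Finset.mem_univ,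
      if_true] at this
    exact this
  have hl : ∀ q, ∑ x, g (Sum.inl x) * M (Sum.inl x) q = 0 := by
    intro q
    have := hev q
    rw [Fintype.sum_sum_type] at this
    simpa [hr] using this
  have hx : ∀ x, g (Sum.inl x) = 0 := by
    rcases hrest with ⟨κ', F, p, hF, hFp⟩ | h
    · rw [Fintype.linearIndependent_iff] at hF
      refine hF (fun x => g (Sum.inl x)) ?_
      funext q
      have := hl (p q)
      simpa [Finset.sum_apply, hFp] using this
    · intro x
      obtain ⟨q, hq⟩ := h x
      have := hl q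
      simp only [hq, mul_ite, mul_one, mul_zero, Finset.sum_ite_eq', Finset.mem_univ,
        if_true] at this
      exact this
  rintro (x | t)
  · exact hx x
  · exact hr t

/-- Padded tensors are concise if `Z` is concise or if `f`, `g`, `h` are surjective. -/
theorem conc_pad {ι E : Type} [Fintype ι] [DecidableEq ι] [Fintype E] [DecidableEq E]
    (Z : ι → ι → ι → K) (f g h : E → ι)
    (hc : Conc Z ∨ (Function.Surjective f ∧ Function.Surjective g ∧ Function.Surjective h)) :
    Conc (pad Z f g h) := by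
  refine ⟨?_, ?_, ?_⟩
  · refine li_pad _ (fun t => match t with
      | .inl e => (.inl (g e), .inr (.inr e))
      | .inr e => (.inr (.inr e), .inl (h e))) ?_ ?_
    · rintro (e | e) (x | e' | e')
      · simp [pad]
      · by_cases he : e' = e <;> simp [pad, he]
      · simp [pad]
      · simp [pad]
      · simp [pad]
      · by_cases he : e' = e <;> simp [pad, he]
    · rcases hc with hZ | ⟨hf, _, _⟩
      · exact Or.inl ⟨ι × ι, _, fun q => (.inl q.1, .inl q.2), hZ.x, fun x q => rfl⟩
      · refine Or.inr fun x => ?_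
        obtain ⟨e, rfl⟩ := hf x
        refine ⟨(.inr (.inl e), .inr (.inl e)), fun x' => ?_⟩
        simp [pad, eq_comm]
  · refine li_pad _ (fun t => match t with
      | .inl e => (.inl (f e), .inr (.inl e))
      | .inr e => (.inr (.inr e), .inl (h e))) ?_ ?_
    · rintro (e | e) (x | e' | e')
      · simp [pad]
      · by_cases he : e' = e <;> simp [pad, he]
      · simp [pad]
      · simp [pad]
      · simp [pad]
      · by_cases he : e' = e
        · simp [pad, he]
        · have he' : ¬ e = e' := fun h => he h.symm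
          simp [pad, he, he']
    · rcases hc with hZ | ⟨_, hg, _⟩
      · exact Or.inl ⟨ι × ι, _, fun q => (.inl q.1, .inl q.2), hZ.y, fun x q => rfl⟩
      · refine Or.inr fun x => ?_
        obtain ⟨e, rfl⟩ := hg x
        refine ⟨(.inr (.inl e), .inr (.inr e)), fun x' => ?_⟩
        simp [pad, eq_comm]
  · refine li_pad _ (fun t => match t with
      | .inl e => (.inl (f e), .inr (.inl e))
      | .inr e => (.inr (.inl e), .inl (g e))) ?_ ?_
    · rintro (e | e) (x | e' | e')
      · simp [pad]
      · by_cases he : e' = e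
        · simp [pad, he]
        · have he' : ¬ e = e' := fun h => he h.symm
          simp [pad, he, he']
      · simp [pad]
      · simp [pad]
      · simp [pad]
      · by_cases he : e' = e
        · simp [pad, he]
        · have he' : ¬ e = e' := fun h => he h.symm
          simp [pad, he, he']
    · rcases hc with hZ | ⟨_, _, hh⟩
      · exact Or.inl ⟨ι × ι, _, fun q => (.inl q.1, .inl q.2), hZ.z, fun x q => rfl⟩
      · refine Or.inr fun x => ?_
        obtain ⟨e, rfl⟩ := hh x
        refine ⟨(.inr (.inr e), .inr (.inr e)), fun x' => ?_⟩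
        simp [pad, eq_comm]

end conc

/-! ### classes -/

/-- closure of a class of supports under padding -/
def PadCl (𝒞 : SC) : Prop :=
  ∀ (ι E : Type) [Fintype ι] [Fintype E] (S : ι → ι → ι → Prop) (f g h : E → ι),
    𝒞.P ι S → 𝒞.P (ι ⊕ (E ⊕ E)) (padS S f g h)

theorem inj3 {ι E : Type} {a : ι → ℤ} (ha : Function.Injective a) {L : ℤ} (hL : ∀ i, |a i| < L)
    {k : E → ℤ} (hk : Function.Injective k) (hk0 : ∀ e, 0 ≤ k e) {p q : E → ℤ}
    (hp : ∀ e, |p e| < L) (hq : ∀ e, |q e| < L) : Function.Injective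
      (Sum.elim a (Sum.elim (fun e => 4 * L * (k e + 1) + p e)
        (fun e => -(4 * L * (k e + 1)) + q e))) := by
  have hs : ∀ {r : E → ℤ}, (∀ e, |r e| < L) → ∀ e e', 4 * L * (k e + 1) + r e =
      4 * L * (k e' + 1) + r e' → e = e' := by
    intro r hr e e' hee
    have h1 := abs_lt.1 (hr e)
    have h2 := abs_lt.1 (hr e')
    have hL0 : 0 < L := by linarith
    apply hk
    by_contra hne
    rcases lt_or_gt_of_ne hne with h | h
    · have h3 : k e + 1 ≤ k e' := h
      nlinarith
    · have h3 : k e' + 1 ≤ k e := h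
      nlinarith
  rintro (i | e | e) (i' | e' | e') hh
  · exact congrArg _ (ha hh)
  · simp only [Sum.elim_inl, Sum.elim_inr] at hh
    have h1 := abs_lt.1 (hL i)
    have h2 := abs_lt.1 (hp e')
    have h3 := hk0 e'
    nlinarith
  · simp only [Sum.elim_inl, Sum.elim_inr] at hh
    have h1 := abs_lt.1 (hL i)
    have h2 := abs_lt.1 (hq e')
    have h3 := hk0 e'
    nlinarith
  · simp only [Sum.elim_inl, Sum.elim_inr] at hh
    have h1 := abs_lt.1 (hL i')
    have h2 := abs_lt.1 (hp e)
    have h3 := hk0 e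
    nlinarith
  · simp only [Sum.elim_inl, Sum.elim_inr] at hh
    rw [hs hp e e' hh]
  · simp only [Sum.elim_inl, Sum.elim_inr] at hh
    have h1 := abs_lt.1 (hp e)
    have h2 := abs_lt.1 (hq e')
    have h3 := hk0 e
    have h4 := hk0 e'
    nlinarith
  · simp only [Sum.elim_inl, Sum.elim_inr] at hh
    have h1 := abs_lt.1 (hL i')
    have h2 := abs_lt.1 (hq e)
    have h3 := hk0 e
    nlinarith
  · simp only [Sum.elim_inl, Sum.elim_inr] at hh
    have h1 := abs_lt.1 (hp e')
    have h2 := abs_lt.1 (hq e)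
    have h3 := hk0 e
    have h4 := hk0 e'
    nlinarith
  · simp only [Sum.elim_inr] at hh
    have hq' : ∀ e, |(fun e => - q e) e| < L := fun e => by simpa using hq e
    rw [hs hq' e e' (by linarith)]

theorem exists_bound1 {ι : Type} [Fintype ι] (α : ι → ℤ) : ∃ L : ℤ, ∀ L', L ≤ L' → ∀ i, |α i| < L' := by
  refine ⟨(∑ i, |α i|) + 1, fun L' hL i => ?_⟩
  have h1 : |α i| ≤ ∑ i, |α i| :=
    Finset.single_le_sum (f := fun i => |α i|) (fun _ _ => abs_nonneg _) (Finset.mem_univ i)
  linarith

theorem tight_pad : PadCl tightC := by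
  rintro ι E _ _ S f g h ⟨α, β, γ, h1, h2, h3, h4⟩
  obtain ⟨L1, hL1⟩ := exists_bound1 α
  obtain ⟨L2, hL2⟩ := exists_bound1 β
  obtain ⟨L3, hL3⟩ := exists_bound1 γ
  set L := max 1 (max L1 (max L2 L3)) with hL
  have hL0 : 1 ≤ L := le_max_left _ _
  have b1 := hL1 L ((le_max_left _ _).trans (le_max_right _ _))
  have b2 := hL2 L ((le_max_left _ _).trans ((le_max_right _ _).trans (le_max_right _ _)))
  have b3 := hL3 L ((le_max_right _ _).trans ((le_max_right _ _).trans (le_max_right _ _)))
  set k : E → ℤ := fun e => ((Fintype.equivFin E e : ℕ) : ℤ) with hk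
  have hki : Function.Injective k := by
    intro e e' hee
    have : (Fintype.equivFin E e : ℕ) = (Fintype.equivFin E e' : ℕ) :=
      Nat.cast_injective (R := ℤ) hee
    exact (Fintype.equivFin E).injective (Fin.ext this)
  have hk0 : ∀ e, 0 ≤ k e := fun e => Int.natCast_nonneg _
  have z0 : ∀ e : E, |(0 : E → ℤ) e| < L := fun e => by simp; linarith
  -- first direction: `x'` positive, `x''` negative
  refine ⟨Sum.elim α (Sum.elim (fun e => 4 * L * (k e + 1) + 0) (fun e => -(4 * L * (k e + 1)) + 0)),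
    Sum.elim β (Sum.elim (fun e => -(4 * L * (k e + 1)) + 0)
      (fun e => 4 * L * (k e + 1) + (- γ (h e)))),
    Sum.elim γ (Sum.elim (fun e => 4 * L * (k e + 1) + (- α (f e)))
      (fun e => -(4 * L * (k e + 1)) + (- β (g e)))), ?_, ?_, ?_, ?_⟩
  · exact inj3 h1 b1 hki hk0 z0 z0
  · have hsw : Function.Injective (Sum.elim β (Sum.elim
        (fun e => 4 * L * (k e + 1) + (- γ (h e))) (fun e => -(4 * L * (k e + 1)) + 0))) :=
      inj3 h2 b2 hki hk0 (fun e => by simpa using b3 (h e)) z0
    have : (Sum.elim β (Sum.elim (fun e => -(4 * L * (k e + 1)) + 0)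
        (fun e => 4 * L * (k e + 1) + (- γ (h e))))) = (Sum.elim β (Sum.elim
        (fun e => 4 * L * (k e + 1) + (- γ (h e))) (fun e => -(4 * L * (k e + 1)) + 0))) ∘
          (Sum.map id (Equiv.sumComm E E)) := by
      funext t
      rcases t with i | e | e <;> rfl
    rw [this]
    exact hsw.comp (Sum.map_injective.2 ⟨Function.injective_id, (Equiv.sumComm E E).injective⟩)
  · exact inj3 h3 b3 hki hk0 (fun e => by simpa using b1 (f e)) (fun e => by simpa using b2 (g e))
  · intro a b c hS
    classical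
    rcases padS_three S f g h a b c hS with ⟨x, y, z, hxyz, rfl, rfl, rfl⟩ | ⟨e, rfl, rfl, rfl⟩ |
      ⟨e, rfl, rfl, rfl⟩ | ⟨e, rfl, rfl, rfl⟩
    · exact h4 x y z hxyz
    · simp only [Sum.elim_inl, Sum.elim_inr]
      ring
    · simp only [Sum.elim_inl, Sum.elim_inr]
      ring
    · simp only [Sum.elim_inl, Sum.elim_inr]
      ring

theorem free_pad : PadCl freeC := by
  classical
  rintro ι E _ _ S f g h hS a b c a' b' c' hs hs'
  rcases padS_three S f g h a b c hs with ⟨x, y, z, hxyz, rfl, rfl, rfl⟩ | ⟨e, rfl, rfl, rfl⟩ |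
      ⟨e, rfl, rfl, rfl⟩ | ⟨e, rfl, rfl, rfl⟩ <;>
    rcases padS_three S f g h a' b' c' hs' with ⟨x', y', z', hxyz', rfl, rfl, rfl⟩ |
      ⟨e', rfl, rfl, rfl⟩ | ⟨e', rfl, rfl, rfl⟩ | ⟨e', rfl, rfl, rfl⟩
  · have := hS _ _ _ _ _ _ hxyz hxyz'
    simpa using this
  all_goals simp
  all_goals first
    | exact ⟨fun h _ => h, fun h => by rw [h]⟩
    | exact ⟨fun h => by rw [h], fun h _ => h⟩
    | exact fun h => by rw [h]

theorem oblique_pad : PadCl obliqueC := by
  classical
  rintro ι E _ _ S f g h ⟨p, q, r, h1, h2, h3, h4⟩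
  obtain ⟨L1, hL1⟩ := exists_bound' p
  obtain ⟨L2, hL2⟩ := exists_bound' q
  obtain ⟨L3, hL3⟩ := exists_bound' r
  have b1 := hL1 L1 le_rfl
  have b2 := hL2 L2 le_rfl
  have b3 := hL3 L3 le_rfl
  set c := Fintype.card E with hc
  set k : E → ℕ := fun e => (Fintype.equivFin E e : ℕ) with hk
  have hki : Function.Injective k := fun e e' hee =>
    (Fintype.equivFin E).injective (Fin.ext hee)
  have hkc : ∀ e, k e < c := fun e => (Fintype.equivFin E e).2
  -- below: `c - 1 - k e`, above: `c + L + k e`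
  have hinj : ∀ (p : ι → ℕ) (L : ℕ), Function.Injective p → (∀ i, p i < L) →
      Function.Injective (Sum.elim (fun i => p i + c) (Sum.elim (fun e => c - 1 - k e)
        (fun e => c + L + k e)) : ι ⊕ (E ⊕ E) → ℕ) := by
    intro p L hp hL
    rintro (i | e | e) (i' | e' | e') hh <;> simp only [Sum.elim_inl, Sum.elim_inr] at hh
    · exact congrArg _ (hp (by omega))
    · have := hkc e'; omega
    · have := hL i; omega
    · have := hkc e; omega
    · have h5 := hkc e
      have h6 := hkc e'
      have : k e = k e' := by omega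
      rw [hki this]
    · have := hkc e; omega
    · have := hL i'; omega
    · have := hkc e'; omega
    · have : k e = k e' := by omega
      rw [hki this]
  have hinj' : ∀ (p : ι → ℕ) (L : ℕ), Function.Injective p → (∀ i, p i < L) →
      Function.Injective (Sum.elim (fun i => p i + c) (Sum.elim (fun e => c + L + k e)
        (fun e => c - 1 - k e)) : ι ⊕ (E ⊕ E) → ℕ) := by
    intro p L hp hL
    have : (Sum.elim (fun i => p i + c) (Sum.elim (fun e => c + L + k e)
        (fun e => c - 1 - k e)) : ι ⊕ (E ⊕ E) → ℕ) = (Sum.elim (fun i => p i + c)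
        (Sum.elim (fun e => c - 1 - k e) (fun e => c + L + k e))) ∘
          (Sum.map id (Equiv.sumComm E E)) := by
      funext t
      rcases t with i | e | e <;> rfl
    rw [this]
    exact (hinj p L hp hL).comp
      (Sum.map_injective.2 ⟨Function.injective_id, (Equiv.sumComm E E).injective⟩)
  refine ⟨_, _, _, hinj p L1 h1 b1, hinj' q L2 h2 b2, hinj r L3 h3 b3, ?_⟩
  intro a b d a' b' d' hs hs' l1 l2 l3
  rcases padS_three S f g h a b d hs with ⟨x, y, z, hxyz, rfl, rfl, rfl⟩ | ⟨e, rfl, rfl, rfl⟩ |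
      ⟨e, rfl, rfl, rfl⟩ | ⟨e, rfl, rfl, rfl⟩ <;>
    rcases padS_three S f g h a' b' d' hs' with ⟨x', y', z', hxyz', rfl, rfl, rfl⟩ |
      ⟨e', rfl, rfl, rfl⟩ | ⟨e', rfl, rfl, rfl⟩ | ⟨e', rfl, rfl, rfl⟩ <;>
    simp only [Sum.elim_inl, Sum.elim_inr] at l1 l2 l3
  · obtain ⟨e1, e2, e3⟩ := h4 _ _ _ _ _ _ hxyz hxyz' (by omega) (by omega) (by omega)
    rw [e1, e2, e3]
    exact ⟨rfl, rfl, rfl⟩
  · exfalso; have := hkc e'; omega
  · exfalso; have := hkc e'; omega
  · exfalso; have := hkc e'; omega
  · exfalso; have := b2 y'; omega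
  · have h5 := hkc e
    have h6 := hkc e'
    have : k e = k e' := by omega
    rw [hki this]
    exact ⟨rfl, rfl, rfl⟩
  · exfalso; have := hkc e'; have := b1 (f e); omega
  · exfalso; have := b2 (g (e)); have := hkc e'; omega
  · exfalso; have := b3 z'; omega
  · exfalso; have := hkc e'; omega
  · have h5 := hkc e
    have h6 := hkc e'
    have : k e = k e' := by omega
    rw [hki this]
    exact ⟨rfl, rfl, rfl⟩
  · exfalso; have := b3 (h e'); omega
  · exfalso; have := b1 x'; omega
  · exfalso; have := b1 (f e'); omega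
  · exfalso; have := hkc e'; omega
  · have h5 := hkc e
    have h6 := hkc e'
    have : k e = k e' := by omega
    rw [hki this]
    exact ⟨rfl, rfl, rfl⟩

/-- tensors whose support (in the given bases) belongs to the class -/
theorem inC_supp {𝒞 : SC} {ι : Type} [Fintype ι] [DecidableEq ι] {T : ι → ι → ι → ℂ}
    (h : 𝒞.P ι (fun x y z => T x y z ≠ 0)) : InC 𝒞 T := by
  refine ⟨1, 1, 1, by simp, by simp, by simp, ?_⟩
  refine 𝒞.mono _ _ _ ?_ h
  intro i j l hne
  convert hne using 1
  simp [Matrix.one_apply]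

theorem inC_pad {𝒞 : SC} (hP : PadCl 𝒞) {ι E : Type} [Fintype ι] [DecidableEq ι] [Fintype E]
    [DecidableEq E] {Z : ι → ι → ι → ℂ} (h : 𝒞.P ι (fun x y z => Z x y z ≠ 0)) (f g k : E → ι) :
    𝒞.P (ι ⊕ (E ⊕ E)) (fun x y z => pad Z f g k x y z ≠ 0) :=
  𝒞.mono _ _ _ (fun a b c hne => pad_supp Z f g k a b c hne) (hP _ _ _ f g k h)

end Pool.Agent.TH671.SH
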