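import Mathlib
import Pool.Agent.TH671.SH.PadCl

/-!
# Padded tensors and the asymptotic rank conjecture

If the asymptotic rank of all tensors obtained from the concise tensors of a class by padding with
`n ^ (1 + o(1))` simple indices is minimal then all concise tensors of the class have minimal
asymptotic rank.
-/

set_option autoImplicit false
set_option linter.unusedSectionVars false

open Finset Filter Topology

namespace Pool.Agent.TH671.SH

open Pool.Agent.W329.AR Pool.Agent.TH671.AS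

section mono

variable {K : Type*} [CommRing K]

theorem rst_arank {ι κ : Type} [Fintype ι] [DecidableEq ι] [Fintype κ] [DecidableEq κ]
    {T : ι → ι → ι → K} {T' : κ → κ → κ → K} (h : Rst T T') : arank T ≤ arank T' := by
  unfold arank
  refine ciInf_mono ⟨0, ?_⟩ fun n => ?_
  · rintro _ ⟨n, rfl⟩
    positivity
  · refine Real.rpow_le_rpow (by positivity) ?_ (by positivity)
    have hne : {r : ℕ | Rk (kpow T' (n + 1)) r}.Nonempty := ⟨_, Rk.triv _⟩
    have h1 : sInf {r : ℕ | Rk (kpow T (n + 1)) r} ≤ sInf {r : ℕ | Rk (kpow T' (n + 1)) r} :=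
      Nat.sInf_le ((h.pow (n + 1)).toRk (Nat.sInf_mem hne))
    exact_mod_cast h1

theorem arank_nonneg {ι : Type} (T : ι → ι → ι → K) : 0 ≤ arank T := by
  unfold arank
  exact Real.iInf_nonneg fun n => by positivity

theorem arank_le_root {ι : Type} (T : ι → ι → ι → K) (N : ℕ) (hN : 1 ≤ N) :
    arank T ≤ ((sInf {r : ℕ | Rk (kpow T N) r} : ℕ) : ℝ) ^ ((1 : ℝ) / (N : ℝ)) := by
  obtain ⟨n, rfl⟩ : ∃ n, N = n + 1 := ⟨N - 1, by omega⟩
  unfold arank
  have := ciInf_le (f := fun n : ℕ => ((sInf {r : ℕ | Rk (kpow T (n + 1)) r} : ℕ) : ℝ) ^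
    ((1 : ℝ) / ((n : ℝ) + 1))) ⟨0, by rintro _ ⟨n, rfl⟩; positivity⟩ n
  push_cast
  exact this

theorem arank_pow_le {ι : Type} [Fintype ι] [DecidableEq ι] (T : ι → ι → ι → K) (k : ℕ)
    (hk : 1 ≤ k) : arank T ^ k ≤ arank (kpow T k) := by
  refine le_ciInf fun n => ?_
  have hN : 1 ≤ (n + 1) * k := Nat.mul_pos (Nat.succ_pos n) hk
  have h1 := arank_le_root T ((n + 1) * k) hN
  have h2 : sInf {r : ℕ | Rk (kpow T ((n + 1) * k)) r} ≤
      sInf {r : ℕ | Rk (kpow (kpow T k) (n + 1)) r} := by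
    have hne : {r : ℕ | Rk (kpow (kpow T k) (n + 1)) r}.Nonempty := ⟨_, Rk.triv _⟩
    refine Nat.sInf_le ?_
    have h3 := Nat.sInf_mem hne
    refine (Rk.comp h3 (fun (a : Fin ((n + 1) * k) → ι) t s => a (finProdFinEquiv (t, s)))
      (fun (a : Fin ((n + 1) * k) → ι) t s => a (finProdFinEquiv (t, s)))
      (fun (a : Fin ((n + 1) * k) → ι) t s => a (finProdFinEquiv (t, s)))).congr fun a b c => ?_
    simp only [kpow]
    rw [← Equiv.prod_comp finProdFinEquiv, Fintype.prod_prod_type]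
  have h3 : ((sInf {r : ℕ | Rk (kpow T ((n + 1) * k)) r} : ℕ) : ℝ) ≤
      ((sInf {r : ℕ | Rk (kpow (kpow T k) (n + 1)) r} : ℕ) : ℝ) := by exact_mod_cast h2
  calc arank T ^ k ≤ (((sInf {r : ℕ | Rk (kpow T ((n + 1) * k)) r} : ℕ) : ℝ) ^
        ((1 : ℝ) / (((n + 1) * k : ℕ) : ℝ))) ^ k := pow_le_pow_left₀ (arank_nonneg T) h1 k
    _ = ((sInf {r : ℕ | Rk (kpow T ((n + 1) * k)) r} : ℕ) : ℝ) ^ ((1 : ℝ) / ((n : ℝ) + 1)) := by
        rw [← Real.rpow_natCast, ← Real.rpow_mul (by positivity)]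
        congr 1
        have hk0 : (k : ℝ) ≠ 0 := by positivity
        push_cast
        field_simp
    _ ≤ _ := Real.rpow_le_rpow (by positivity) h3 (by positivity)

end mono

section base

/-- change of bases -/
theorem li_base {ι κ : Type} [Fintype ι] [DecidableEq ι] [Fintype κ] [DecidableEq κ]
    {F : ι → κ → ℂ} (hF : LinearIndependent ℂ F) (A : Matrix ι ι ℂ) (hA : A.det ≠ 0)
    (M : Matrix κ κ ℂ) (hM : M.det ≠ 0) :
    LinearIndependent ℂ (fun i q => ∑ a, ∑ p, A i a * M q p * F a p) := by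
  have h1 : (fun i q => ∑ a, ∑ p, A i a * M q p * F a p) =
      (A * (Matrix.of F) * M.transpose : Matrix ι κ ℂ).row := by
    funext i q
    simp only [Matrix.row, Matrix.mul_apply, Matrix.of_apply, Matrix.transpose_apply,
      Finset.sum_mul]
    rw [Finset.sum_comm]
    refine Finset.sum_congr rfl fun a _ => Finset.sum_congr rfl fun p _ => by ring
  rw [h1, ← Matrix.vecMul_injective_iff]
  have hF' : Function.Injective (Matrix.of F).vecMul := by
    rw [Matrix.vecMul_injective_iff]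
    exact hF
  have hA' : Function.Injective A.vecMul :=
    Matrix.vecMul_injective_of_isUnit ((Matrix.isUnit_iff_isUnit_det A).2 (Ne.isUnit hA))
  have hM' : Function.Injective M.transpose.vecMul :=
    Matrix.vecMul_injective_of_isUnit ((Matrix.isUnit_iff_isUnit_det _).2
      (by rw [Matrix.det_transpose]; exact Ne.isUnit hM))
  intro x y hxy
  simp only [← Matrix.vecMul_vecMul] at hxy
  exact hA' (hF' (hM' hxy))

theorem conc_base {ι : Type} [Fintype ι] [DecidableEq ι] {T : ι → ι → ι → ℂ} (hT : Conc T)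
    (A B C : Matrix ι ι ℂ) (hA : A.det ≠ 0) (hB : B.det ≠ 0) (hC : C.det ≠ 0) :
    Conc (fun i j l => ∑ a, ∑ b, ∑ c, A i a * B j b * C l c * T a b c) := by
  have hk : ∀ {M N : Matrix ι ι ℂ}, M.det ≠ 0 → N.det ≠ 0 →
      (Matrix.kroneckerMap (· * ·) M N).det ≠ 0 := by
    intro M N hM hN
    rw [Matrix.det_kronecker]
    exact mul_ne_zero (pow_ne_zero _ hM) (pow_ne_zero _ hN)
  refine ⟨?_, ?_, ?_⟩
  · have h1 := li_base hT.x A hA _ (hk hB hC)
    have e : (fun (i : ι) (q : ι × ι) => ∑ a, ∑ p : ι × ι,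
        A i a * Matrix.kroneckerMap (· * ·) B C q p * T a p.1 p.2) =
        fun i q => ∑ a, ∑ b, ∑ c, A i a * B q.1 b * C q.2 c * T a b c := by
      funext i q
      refine Finset.sum_congr rfl fun a _ => ?_
      rw [Fintype.sum_prod_type]
      refine Finset.sum_congr rfl fun b _ => Finset.sum_congr rfl fun c _ => ?_
      simp only [Matrix.kroneckerMap_apply]
      ring
    rw [e] at h1
    exact h1
  · have h1 := li_base hT.y B hB _ (hk hA hC)
    have e : (fun (i : ι) (q : ι × ι) => ∑ a, ∑ p : ι × ι,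
        B i a * Matrix.kroneckerMap (· * ·) A C q p * T p.1 a p.2) =
        fun i q => ∑ a, ∑ b, ∑ c, A q.1 a * B i b * C q.2 c * T a b c := by
      funext i q
      rw [Finset.sum_comm' (t' := univ) (s' := fun _ => univ) (by simp), Fintype.sum_prod_type]
      refine Finset.sum_congr rfl fun a _ => ?_
      rw [Finset.sum_comm]
      refine Finset.sum_congr rfl fun b _ => Finset.sum_congr rfl fun c _ => ?_
      simp only [Matrix.kroneckerMap_apply]
      ring
    rw [e] at h1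
    exact h1
  · have h1 := li_base hT.z C hC _ (hk hA hB)
    have e : (fun (i : ι) (q : ι × ι) => ∑ a, ∑ p : ι × ι,
        C i a * Matrix.kroneckerMap (· * ·) A B q p * T p.1 p.2 a) =
        fun i q => ∑ a, ∑ b, ∑ c, A q.1 a * B q.2 b * C i c * T a b c := by
      funext i q
      rw [Finset.sum_comm' (t' := univ) (s' := fun _ => univ) (by simp), Fintype.sum_prod_type]
      refine Finset.sum_congr rfl fun a _ => Finset.sum_congr rfl fun b _ =>
        Finset.sum_congr rfl fun c _ => ?_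
      simp only [Matrix.kroneckerMap_apply]
      ring
    rw [e] at h1
    exact h1

/-- the tensor in the bases in which its support belongs to the class -/
theorem inC_base {𝒞 : SC} {ι : Type} [Fintype ι] [DecidableEq ι] {T : ι → ι → ι → ℂ}
    (h : InC 𝒞 T) (hT : Conc T) : ∃ T' : ι → ι → ι → ℂ, 𝒞.P ι (fun x y z => T' x y z ≠ 0) ∧
      Conc T' ∧ Rst T T' := by
  obtain ⟨A, B, C, hA, hB, hC, h⟩ := h
  refine ⟨_, h, conc_base hT A B C hA hB hC, ?_⟩
  refine ⟨fun a i => A⁻¹ a i, fun b j => B⁻¹ b j, fun c l => C⁻¹ c l, fun a b c => ?_⟩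
  have hm : ∀ (M : Matrix ι ι ℂ), M.det ≠ 0 → ∀ a a', ∑ i, M⁻¹ a i * M i a' =
      if a = a' then 1 else 0 := by
    intro M hM a a'
    have h1 := Matrix.nonsing_inv_mul M (Ne.isUnit hM)
    have h2 := congrFun (congrFun h1 a) a'
    rw [Matrix.mul_apply, Matrix.one_apply] at h2
    exact h2
  have key : ∑ i, ∑ j, ∑ l, A⁻¹ a i * B⁻¹ b j * C⁻¹ c l *
      (∑ a', ∑ b', ∑ c', A i a' * B j b' * C l c' * T a' b' c') =
      ∑ a', ∑ b', ∑ c', (∑ i, A⁻¹ a i * A i a') * (∑ j, B⁻¹ b j * B j b') *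
        (∑ l, C⁻¹ c l * C l c') * T a' b' c' := by
    have e1 : ∑ i, ∑ j, ∑ l, A⁻¹ a i * B⁻¹ b j * C⁻¹ c l *
        (∑ a', ∑ b', ∑ c', A i a' * B j b' * C l c' * T a' b' c') =
        ∑ p : ι × ι × ι, ∑ q : ι × ι × ι, (A⁻¹ a p.1 * A p.1 q.1) * (B⁻¹ b p.2.1 * B p.2.1 q.2.1) *
          (C⁻¹ c p.2.2 * C p.2.2 q.2.2) * T q.1 q.2.1 q.2.2 := by
      simp_rw [Fintype.sum_prod_type, Finset.mul_sum]
      refine Finset.sum_congr rfl fun _ _ => Finset.sum_congr rfl fun _ _ =>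
        Finset.sum_congr rfl fun _ _ => Finset.sum_congr rfl fun _ _ =>
        Finset.sum_congr rfl fun _ _ => Finset.sum_congr rfl fun _ _ => by ring
    have e2 : ∑ a', ∑ b', ∑ c', (∑ i, A⁻¹ a i * A i a') * (∑ j, B⁻¹ b j * B j b') *
        (∑ l, C⁻¹ c l * C l c') * T a' b' c' =
        ∑ q : ι × ι × ι, ∑ p : ι × ι × ι, (A⁻¹ a p.1 * A p.1 q.1) * (B⁻¹ b p.2.1 * B p.2.1 q.2.1) *
          (C⁻¹ c p.2.2 * C p.2.2 q.2.2) * T q.1 q.2.1 q.2.2 := by
      simp_rw [Fintype.sum_prod_type, tri, Finset.sum_mul]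
    rw [e1, e2, Finset.sum_comm]
  refine Eq.trans ?_ key.symm
  simp_rw [hm A hA, hm B hB, hm C hC]
  simp

end base

section thr

theorem conc_le {ι : Type} [Fintype ι] [DecidableEq ι] {T : ι → ι → ι → ℂ} (hT : Conc T) :
    (Fintype.card ι : ℝ) ≤ arank T := by
  refine le_ciInf fun n => ?_
  have h1 : Fintype.card ι ^ (n + 1) ≤ sInf {r : ℕ | Rk (kpow T (n + 1)) r} :=
    le_csInf ⟨_, Rk.triv _⟩ fun r hr => pow_card_le hT hr
  have hn : (0 : ℝ) < (n : ℝ) + 1 := by positivity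
  calc (Fintype.card ι : ℝ) = ((Fintype.card ι : ℝ) ^ (n + 1)) ^ ((1 : ℝ) / ((n : ℝ) + 1)) := by
        rw [← Real.rpow_natCast, ← Real.rpow_mul (by positivity)]
        have : ((n + 1 : ℕ) : ℝ) * (1 / ((n : ℝ) + 1)) = 1 := by
          push_cast
          field_simp
        rw [this, Real.rpow_one]
    _ ≤ _ := by
        refine Real.rpow_le_rpow (by positivity) ?_ (by positivity)
        exact_mod_cast h1

/-- all concise tensors of the class have minimal asymptotic rank -/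
def ConjC (𝒞 : SC) : Prop :=
  ∀ (m : ℕ) (T : Fin m → Fin m → Fin m → ℂ), 1 ≤ m → Conc T → InC 𝒞 T → arank T = m

theorem ConjC.of_type {𝒞 : SC} (h : ConjC 𝒞) {ι : Type} [Fintype ι] [DecidableEq ι]
    (T : ι → ι → ι → ℂ) (hι : 1 ≤ Fintype.card ι) (hT : Conc T) (hQ : InC 𝒞 T) :
    arank T = Fintype.card ι := by
  let e : Fin (Fintype.card ι) ≃ ι := (Fintype.equivFin ι).symm
  have := h (Fintype.card ι) (fun a b c => T (e a) (e b) (e c)) hι (Conc.equiv hT e)
    (hQ.equiv e)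
  rwa [arank_equiv] at this

theorem SC.pow' (𝒞 : SC) {ι : Type} [Fintype ι] {S : ι → ι → ι → Prop} (h : 𝒞.P ι S) (k : ℕ) :
    𝒞.P (Fin k → ι) (fun a b c => ∀ t, S (a t) (b t) (c t)) := by
  induction k with
  | zero => exact 𝒞.uniq _ _
  | succ n ih =>
    have h1 := 𝒞.equiv _ _ (Fin.consEquiv (fun _ : Fin (n + 1) => ι)).symm _ (𝒞.prod _ _ _ _ h ih)
    refine 𝒞.mono _ _ _ ?_ h1
    intro a b c hS
    exact ⟨hS 0, fun t => hS t.succ⟩

theorem le_of_pow_le {a b c : ℝ} (hb : 0 < b) (h : ∀ k : ℕ, 1 ≤ k →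
    a ^ k ≤ c * b ^ k) : a ≤ b := by
  by_contra hab
  push Not at hab
  have h1 : 1 < a / b := (one_lt_div hb).2 hab
  have h2 := (tendsto_pow_atTop_atTop_of_one_lt h1).eventually (eventually_gt_atTop c)
  obtain ⟨k, hk, hk'⟩ := (h2.and (eventually_ge_atTop 1)).exists
  have h3 := h k hk'
  rw [div_pow, lt_div_iff₀ (by positivity)] at hk
  linarith

/-- **The threshold.** -/
theorem thr (𝒞 : SC) (hP : PadCl 𝒞) (r : ℕ → ℕ)
    (hr : ∀ ε : ℝ, 0 < ε → ∃ C : ℝ, ∀ n : ℕ, 1 ≤ n → (r n : ℝ) ≤ C * (n : ℝ) ^ ε) :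
    ConjC 𝒞 ↔ ∀ (n : ℕ) (Z : Fin n → Fin n → Fin n → ℂ), 1 ≤ n → Conc Z →
      𝒞.P (Fin n) (fun x y z => Z x y z ≠ 0) →
      arank (pad Z (Prod.fst : Fin n × Fin (r n) → Fin n) Prod.fst Prod.fst) =
        (n : ℝ) + 2 * (n * r n) := by
  constructor
  · intro h n Z hn hZ hS
    have hcard : Fintype.card (Fin n ⊕ ((Fin n × Fin (r n)) ⊕ (Fin n × Fin (r n)))) =
        n + 2 * (n * r n) := by
      simp only [Fintype.card_sum, Fintype.card_fin, Fintype.card_prod]
      ring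
    have h1 := h.of_type (pad Z (Prod.fst : Fin n × Fin (r n) → Fin n) Prod.fst Prod.fst)
      (by rw [hcard]; omega) (conc_pad _ _ _ _ (Or.inl hZ)) (inC_supp (inC_pad hP hS _ _ _))
    rw [h1, hcard]
    push_cast
    ring
  · intro h m T hm hT hC
    have hm0 : (1 : ℝ) ≤ m := by exact_mod_cast hm
    have hmain : ∀ ε : ℝ, 0 < ε → arank T ≤ (m : ℝ) ^ (1 + ε) := by
      intro ε hε
      obtain ⟨C, hC'⟩ := hr ε hε
      obtain ⟨T', hS, hT', hR⟩ := inC_base hC hT
      refine le_of_pow_le (c := 1 + 2 * |C|) (by positivity) fun k hk => ?_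
      have hcard : Fintype.card (Fin k → Fin m) = m ^ k := by simp
      let e : Fin (m ^ k) ≃ (Fin k → Fin m) := (Fintype.equivFinOfCardEq hcard).symm
      set Z : Fin (m ^ k) → Fin (m ^ k) → Fin (m ^ k) → ℂ :=
        fun a b c => kpow T' k (e a) (e b) (e c) with hZ
      have hZc : Conc Z := Conc.equiv (hT'.kpow k) e
      have hZS : 𝒞.P (Fin (m ^ k)) (fun x y z => Z x y z ≠ 0) := by
        refine 𝒞.mono _ _ _ ?_ (𝒞.equiv _ _ e _ (SC.pow' 𝒞 hS k))
        intro a b c hne t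
        exact Finset.prod_ne_zero_iff.1 hne t (Finset.mem_univ t)
      have hn : 1 ≤ m ^ k := Nat.one_le_pow _ _ hm
      have h1 := h (m ^ k) Z hn hZc hZS
      have h2 : arank Z ≤ arank (pad Z (Prod.fst : Fin (m ^ k) × Fin (r (m ^ k)) → Fin (m ^ k))
          Prod.fst Prod.fst) := rst_arank (Rst.comp (T' := pad Z (Prod.fst :
            Fin (m ^ k) × Fin (r (m ^ k)) → Fin (m ^ k)) Prod.fst Prod.fst)
              Sum.inl Sum.inl Sum.inl)
      have h3 : arank (kpow T k) ≤ arank (kpow T' k) := rst_arank (hR.pow k)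
      have h4 : arank Z = arank (kpow T' k) := arank_equiv e _
      have h5 := hC' (m ^ k) hn
      have hnR : (1 : ℝ) ≤ ((m ^ k : ℕ) : ℝ) := by exact_mod_cast hn
      have h6 : (1 : ℝ) ≤ ((m ^ k : ℕ) : ℝ) ^ ε := Real.one_le_rpow hnR hε.le
      have h7 : ((r (m ^ k) : ℕ) : ℝ) ≤ |C| * ((m ^ k : ℕ) : ℝ) ^ ε :=
        h5.trans (by gcongr; exact le_abs_self C)
      calc arank T ^ k ≤ arank (kpow T k) := arank_pow_le T k hk
        _ ≤ arank (kpow T' k) := h3
        _ = arank Z := h4.symm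
        _ ≤ _ := h2
        _ = ((m ^ k : ℕ) : ℝ) + 2 * (((m ^ k : ℕ) : ℝ) * r (m ^ k)) := h1
        _ ≤ ((m ^ k : ℕ) : ℝ) * ((m ^ k : ℕ) : ℝ) ^ ε +
            2 * (((m ^ k : ℕ) : ℝ) * (|C| * ((m ^ k : ℕ) : ℝ) ^ ε)) := by
            gcongr
            nlinarith
        _ = (1 + 2 * |C|) * (((m ^ k : ℕ) : ℝ) * ((m ^ k : ℕ) : ℝ) ^ ε) := by ring
        _ = (1 + 2 * |C|) * ((m : ℝ) ^ (1 + ε)) ^ k := by
            congr 1
            push_cast
            rw [Real.rpow_add (by linarith), Real.rpow_one, mul_pow, ← Real.rpow_natCast,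
              ← Real.rpow_natCast, ← Real.rpow_mul (by linarith), ← Real.rpow_mul (by linarith),
              mul_comm (k : ℝ) ε]
    refine le_antisymm ?_ ?_
    · have ht : Tendsto (fun ε : ℝ => (m : ℝ) ^ (1 + ε)) (𝓝[>] 0) (𝓝 (m : ℝ)) := by
        have h1 : ContinuousAt (fun ε : ℝ => (m : ℝ) ^ (1 + ε)) 0 :=
          (Real.continuousAt_const_rpow (by positivity)).comp (by fun_prop)
        have h2 := h1.tendsto
        simp only [add_zero, Real.rpow_one] at h2
        exact h2.mono_left nhdsWithin_le_nhds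
      refine ge_of_tendsto ht ?_
      filter_upwards [self_mem_nhdsWithin] with ε hε
      exact hmain ε hε
    · have := conc_le hT
      simpa using this

theorem pairs_of_ncard {K : Type*} [Field K] {ι : Type} [Fintype ι] {Z : ι → ι → ι → K} {w : ℕ}
    (h : {e : ι × ι × ι | Z e.1 e.2.1 e.2.2 ≠ 0}.ncard ≤ w) : Pairs Z w := by
  classical
  have hS : {e : ι × ι × ι | Z e.1 e.2.1 e.2.2 ≠ 0}.ncard = (supp Z).card := by
    rw [← Set.ncard_coe_finset]
    congr 1
    ext e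
    simp [supp]
  rw [hS] at h
  constructor
  · refine le_trans (Finset.card_le_card ?_)
      ((Finset.card_image_le (s := supp Z) (f := fun e => (e.1, e.2.1))).trans h)
    intro q hq
    obtain ⟨z, hz⟩ := (Finset.mem_filter.1 hq).2
    exact Finset.mem_image.2 ⟨(q.1, q.2, z), Finset.mem_filter.2 ⟨Finset.mem_univ _, hz⟩, rfl⟩
  · refine le_trans (Finset.card_le_card ?_)
      ((Finset.card_image_le (s := supp Z) (f := fun e => (e.2.1, e.2.2))).trans h)
    intro q hq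
    obtain ⟨x, hx⟩ := (Finset.mem_filter.1 hq).2
    exact Finset.mem_image.2 ⟨(x, q.1, q.2), Finset.mem_filter.2 ⟨Finset.mem_univ _, hx⟩, rfl⟩

/-- **Padding in classes of tensors.** -/
theorem pad_class (𝒞 : SC) (hP : PadCl 𝒞) : ∃ D : ℕ, 1 ≤ D ∧ ∀ n c w : ℕ, 1 ≤ n → D * n ≤ c →
    w ^ D * n ≤ c ^ (D + 1) → ∀ Z : Fin n → Fin n → Fin n → ℂ,
      𝒞.P (Fin n) (fun x y z => Z x y z ≠ 0) →
      {e : Fin n × Fin n × Fin n | Z e.1 e.2.1 e.2.2 ≠ 0}.ncard ≤ w → ∀ f g h : Fin c → Fin n,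
      (Conc Z ∨ (Function.Surjective f ∧ Function.Surjective g ∧ Function.Surjective h)) →
        𝒞.P (Fin n ⊕ (Fin c ⊕ Fin c)) (fun x y z => pad Z f g h x y z ≠ 0) ∧
          Conc (pad Z f g h) ∧ arank (pad Z f g h) = (n : ℝ) + 2 * c := by
  obtain ⟨D, hD, hmain⟩ := arank_pad (K := ℂ)
  refine ⟨D, hD, fun n c w hn hc hw Z hS hZ f g h hco => ?_⟩
  have hPc := conc_pad Z f g h hco
  exact ⟨inC_pad hP hS f g h, hPc, hmain n c w hn hc hw (Fin n) (Fin c) (Fintype.card_fin n)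
    (Fintype.card_fin c) Z f g h (pairs_of_ncard hZ) hPc⟩

end thr

end Pool.Agent.TH671.SH
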