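import Mathlib
import Pool.Agent.TH671.SH.PadCl

/-!
# Direct sums with sums of three dot products

`wten K c` is the direct sum of the three tensors `⟨1, c, 1⟩`, `⟨1, 1, c⟩`, `⟨c, 1, 1⟩`, of size
`2 c + 1`.  For every concise tensor `V` of size `v` the direct sum of `V` and `wten K c` has minimal
asymptotic rank as soon as `D v ≤ c` and `v ^ (2 D + 1) ≤ c ^ (D + 1)`, with an absolute constant
`D`.
-/

set_option autoImplicit false
set_option linter.unusedSectionVars false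

open Finset Filter

namespace Pool.Agent.TH671.SH

open Pool.Agent.W329.AR Pool.Agent.TH671.AS

/-- The tensor `x₀ ∑ y_e z_e + y₀ ∑ x'_e z'_e + z₀ ∑ x''_e y''_e` (sums over the `e : Fin c`). -/
def wten (K : Type*) [Zero K] [One K] (c : ℕ) :
    Fin 1 ⊕ (Fin c ⊕ Fin c) → Fin 1 ⊕ (Fin c ⊕ Fin c) → Fin 1 ⊕ (Fin c ⊕ Fin c) → K
  | .inl _, .inr (.inl e), .inr (.inl e') => if e = e' then 1 else 0
  | .inr (.inl e), .inl _, .inr (.inr e') => if e = e' then 1 else 0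
  | .inr (.inr e), .inr (.inr e'), .inl _ => if e = e' then 1 else 0
  | _, _, _ => 0

theorem wten_eq (K : Type*) [Zero K] [One K] (c : ℕ) :
    wten K c = pad (fun _ _ _ => 0) (fun _ => (0 : Fin 1)) (fun _ => 0) (fun _ => 0) := by
  funext a b d
  rcases a with a | a | a <;> rcases b with b | b | b <;> rcases d with d | d | d <;>
    simp [wten, pad, Subsingleton.elim _ (0 : Fin 1)]

theorem conc_wten (K : Type*) [Field K] (c : ℕ) (hc : 1 ≤ c) : Conc (wten K c) := by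
  rw [wten_eq]
  have : Function.Surjective (fun _ : Fin c => (0 : Fin 1)) := by
    intro x
    exact ⟨⟨0, hc⟩, Subsingleton.elim _ _⟩
  exact conc_pad _ _ _ _ (Or.inr ⟨this, this, this⟩)

theorem dsum_wten_eq {K : Type*} [Field K] {v : ℕ} (V : Fin v → Fin v → Fin v → K) (c : ℕ) :
    (fun a b d => pad (dsum V (fun _ _ _ : Fin 1 => (0 : K))) (fun _ : Fin c => Sum.inr 0)
      (fun _ => Sum.inr 0) (fun _ => Sum.inr 0)
      ((Equiv.sumAssoc (Fin v) (Fin 1) (Fin c ⊕ Fin c)).symm a)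
      ((Equiv.sumAssoc (Fin v) (Fin 1) (Fin c ⊕ Fin c)).symm b)
      ((Equiv.sumAssoc (Fin v) (Fin 1) (Fin c ⊕ Fin c)).symm d)) = dsum V (wten K c) := by
  funext a b d
  rcases a with a | a | a | a <;> rcases b with b | b | b | b <;> rcases d with d | d | d | d <;>
    simp [wten, pad, dsum, Subsingleton.elim _ (0 : Fin 1)]

theorem num_add {D0 v c : ℕ} (hv : 1 ≤ v) (h1 : (3 * D0 + 8) * v ≤ c)
    (h2 : v ^ (2 * (3 * D0 + 8) + 1) ≤ c ^ (3 * D0 + 8 + 1)) :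
    (v ^ 2) ^ D0 * (v + 1) ≤ c ^ (D0 + 1) := by
  set D := 3 * D0 + 8 with hD
  have h8 : 8 ≤ c := by
    have : D * 1 ≤ D * v := Nat.mul_le_mul_left _ hv
    omega
  have h3 : (2 * v ^ (2 * D0 + 1)) ^ (2 * D + 1) ≤ (c ^ (D0 + 1)) ^ (2 * D + 1) := by
    calc (2 * v ^ (2 * D0 + 1)) ^ (2 * D + 1)
        = 2 ^ (2 * D + 1) * (v ^ (2 * D + 1)) ^ (2 * D0 + 1) := by
          rw [mul_pow, ← pow_mul, ← pow_mul, mul_comm (2 * D0 + 1)]
      _ ≤ 8 ^ (D - D0) * (c ^ (D + 1)) ^ (2 * D0 + 1) := by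
          refine Nat.mul_le_mul ?_ (Nat.pow_le_pow_left h2 _)
          rw [show (8 : ℕ) = 2 ^ 3 by norm_num, ← pow_mul]
          exact Nat.pow_le_pow_right (by norm_num) (by omega)
      _ ≤ c ^ (D - D0) * (c ^ (D + 1)) ^ (2 * D0 + 1) := by gcongr
      _ = (c ^ (D0 + 1)) ^ (2 * D + 1) := by
          rw [← pow_mul, ← pow_mul, ← pow_add]
          congr 1
          obtain ⟨d, hd⟩ : ∃ d, D = D0 + d := ⟨D - D0, by omega⟩
          rw [hd, Nat.add_sub_cancel_left]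
          ring
  have h4 : 2 * v ^ (2 * D0 + 1) ≤ c ^ (D0 + 1) := (Nat.pow_le_pow_iff_left (by omega)).1 h3
  calc (v ^ 2) ^ D0 * (v + 1) ≤ (v ^ 2) ^ D0 * (2 * v) := by
        gcongr
        omega
    _ = 2 * v ^ (2 * D0 + 1) := by rw [← pow_mul]; ring
    _ ≤ _ := h4

/-- **Direct sums with the tensors `wten K c`.** -/
theorem arank_dsum_wten {K : Type*} [Field K] : ∃ D : ℕ, 1 ≤ D ∧ ∀ v c : ℕ, 1 ≤ v → D * v ≤ c →
    v ^ (2 * D + 1) ≤ c ^ (D + 1) → ∀ V : Fin v → Fin v → Fin v → K, Conc V →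
      Conc (dsum V (wten K c)) ∧ arank (dsum V (wten K c)) = (v : ℝ) + (2 * c + 1) := by
  obtain ⟨D0, hD0, hmain⟩ := arank_pad (K := K)
  refine ⟨3 * D0 + 8, by omega, fun v c hv hc1 hc2 V hV => ?_⟩
  have hc : 1 ≤ c := by
    have : (3 * D0 + 8) * 1 ≤ (3 * D0 + 8) * v := Nat.mul_le_mul_left _ hv
    omega
  have hCo := Conc.dsum hV (conc_wten K c hc)
  refine ⟨hCo, ?_⟩
  have he := dsum_wten_eq V c
  set Z := dsum V (fun _ _ _ : Fin 1 => (0 : K)) with hZ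
  set P := pad Z (fun _ : Fin c => Sum.inr 0) (fun _ => Sum.inr 0) (fun _ => Sum.inr 0) with hP
  have hPc : Conc P := by
    have h1 := Conc.equiv hCo (Equiv.sumAssoc (Fin v) (Fin 1) (Fin c ⊕ Fin c))
    rw [← he] at h1
    simpa using h1
  have hp : Pairs Z (v ^ 2) := by
    classical
    constructor
    · refine le_trans (Finset.card_le_card ?_) (Finset.card_image_le.trans ?_ :
        ((univ : Finset (Fin v × Fin v)).image fun q => ((Sum.inl q.1 : Fin v ⊕ Fin 1),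
          (Sum.inl q.2 : Fin v ⊕ Fin 1))).card ≤ v ^ 2)
      · rintro ⟨x, y⟩ hq
        obtain ⟨z, hz⟩ := (Finset.mem_filter.1 hq).2
        rcases x with x | x <;> rcases y with y | y <;> rcases z with z | z <;>
          simp [hZ, dsum] at hz
        exact Finset.mem_image.2 ⟨(x, y), Finset.mem_univ _, rfl⟩
      · simp [sq]
    · refine le_trans (Finset.card_le_card ?_) (Finset.card_image_le.trans ?_ :
        ((univ : Finset (Fin v × Fin v)).image fun q => ((Sum.inl q.1 : Fin v ⊕ Fin 1),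
          (Sum.inl q.2 : Fin v ⊕ Fin 1))).card ≤ v ^ 2)
      · rintro ⟨y, z⟩ hq
        obtain ⟨x, hx⟩ := (Finset.mem_filter.1 hq).2
        rcases x with x | x <;> rcases y with y | y <;> rcases z with z | z <;>
          simp [hZ, dsum] at hx
        exact Finset.mem_image.2 ⟨(y, z), Finset.mem_univ _, rfl⟩
      · simp [sq]
  have hvv : v + 1 ≤ 2 * v := by omega
  have h1 := hmain (v + 1) c (v ^ 2) (by omega)
    (by
      calc D0 * (v + 1) ≤ D0 * (2 * v) := Nat.mul_le_mul_left _ hvv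
        _ ≤ (3 * D0 + 8) * v := by nlinarith
        _ ≤ c := hc1) (num_add hv hc1 hc2) (Fin v ⊕ Fin 1) (Fin c) (by simp) (by simp) Z _ _ _ hp hPc
  have h2 := arank_equiv (Equiv.sumAssoc (Fin v) (Fin 1) (Fin c ⊕ Fin c)).symm P
  rw [he] at h2
  rw [h2, h1]
  push_cast
  ring

/-- The tensors `wten K c` themselves. -/
theorem arank_wten {K : Type*} [Field K] : ∃ D : ℕ, 1 ≤ D ∧ ∀ c : ℕ, D ≤ c →
    arank (wten K c) = 2 * (c : ℝ) + 1 := by
  obtain ⟨D0, hD0, hmain⟩ := arank_pad (K := K)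
  refine ⟨D0, hD0, fun c hc => ?_⟩
  have hco := conc_wten K c (hD0.trans hc)
  rw [wten_eq] at hco ⊢
  have h1 := hmain 1 c 0 le_rfl (by simpa using hc) (by
    rw [zero_pow (by omega), zero_mul]; exact Nat.zero_le _) (Fin 1) (Fin c) (by simp)
    (by simp) _ _ _ _ (by simp [Pairs]) hco
  rw [h1]
  push_cast
  ring

theorem wten_inC (𝒞 : SC) (hP : PadCl 𝒞) (c : ℕ) : InC 𝒞 (wten ℂ c) := by
  rw [wten_eq]
  exact inC_supp (inC_pad hP (𝒞.uniq _ _) _ _ _)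

/-- **The equivalences.** -/
theorem tfae' (𝒬 : TC) (hw : ∀ c, 𝒬.Q (wten ℂ c)) : List.TFAE [
    ∀ (m : ℕ) (T : Fin m → Fin m → Fin m → ℂ), 1 ≤ m → Conc T → 𝒬.Q T → arank T = m,
    ∀ (v w : ℕ) (V : Fin v → Fin v → Fin v → ℂ) (W : Fin w → Fin w → Fin w → ℂ), 1 ≤ v → 1 ≤ w →
      Conc V → Conc W → 𝒬.Q V → 𝒬.Q W → arank (dsum V W) = arank V + arank W,
    ∀ (v : ℕ) (V : Fin v → Fin v → Fin v → ℂ), 1 ≤ v → Conc V → 𝒬.Q V →
      ∃ᶠ c in atTop, arank (dsum V (wten ℂ c)) = arank V + arank (wten ℂ c),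
    ∀ (v w : ℕ) (V : Fin v → Fin v → Fin v → ℂ) (W : Fin w → Fin w → Fin w → ℂ), 1 ≤ v → 1 ≤ w →
      Conc V → Conc W → 𝒬.Q V → 𝒬.Q W → arank (kmul V W) = arank V * arank W,
    ∀ (v w : ℕ) (V : Fin v → Fin v → Fin v → ℂ) (W : Fin w → Fin w → Fin w → ℂ), 1 ≤ v → 1 ≤ w →
      Conc V → Conc W → 𝒬.Q V → 𝒬.Q W → arank (dsum V W) = (v : ℝ) + w → arank V = v,
    ∀ (v w : ℕ) (V : Fin v → Fin v → Fin v → ℂ) (W : Fin w → Fin w → Fin w → ℂ), 1 ≤ v → 1 ≤ w →
      Conc V → Conc W → 𝒬.Q V → 𝒬.Q W → arank (kmul V W) = (v : ℝ) * w → arank V = v] := by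
  have h := tfae 𝒬
  tfae_have 1 ↔ 2 := h.out 0 1
  tfae_have 1 ↔ 4 := h.out 0 2
  tfae_have 1 ↔ 5 := h.out 0 3
  tfae_have 1 ↔ 6 := h.out 0 4
  tfae_have 1 → 3 := by
    intro h v V hv hV qV
    refine Eventually.frequently ?_
    filter_upwards [eventually_ge_atTop 1] with c hc
    have h1 := Conj.of_type (𝒬 := 𝒬) h (dsum V (wten ℂ c)) (by simp; omega)
      (Conc.dsum hV (conc_wten ℂ c hc)) (𝒬.sum qV (hw c))
    have h2 := Conj.of_type (𝒬 := 𝒬) h (wten ℂ c) (by simp) (conc_wten ℂ c hc) (hw c)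
    rw [h1, h v V hv hV qV, h2]
    simp
  tfae_have 3 → 1 := by
    intro h v V hv hV qV
    obtain ⟨D, hD, h1⟩ := arank_dsum_wten (K := ℂ)
    obtain ⟨D', hD', h2⟩ := arank_wten (K := ℂ)
    obtain ⟨c, h3, hc⟩ := ((h v V hv hV qV).and_eventually
      (eventually_ge_atTop (D * v ^ 2 + D'))).exists
    have hc1 : v ^ 2 ≤ c := by nlinarith
    have e1 := (h1 v c hv (by nlinarith) (by
      calc v ^ (2 * D + 1) ≤ v ^ (2 * (D + 1)) := Nat.pow_le_pow_right hv (by omega)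
        _ = (v ^ 2) ^ (D + 1) := pow_mul _ _ _
        _ ≤ c ^ (D + 1) := Nat.pow_le_pow_left hc1 _) V hV).2
    have e2 := h2 c (by omega)
    rw [e1, e2] at h3
    linarith
  tfae_finish

end Pool.Agent.TH671.SH
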